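import Pool.Agent.Lib.OD.Spec

/-!
# Opaque sets of the disc: module AvA (first half of 5.2) (helper96)
-/

set_option autoImplicit false

namespace Pool.Agent.OD

open MeasureTheory Set Real

namespace AvAAux

theorem integrable_ind (c d : ℝ) : Integrable ((Icc c d).indicator (fun _ => (1 : ℝ))) :=
  (integrable_indicator_iff measurableSet_Icc).2 (integrableOn_const (by simp))

theorem int_ind (c d s p : ℝ) (hsp : s ≤ p) :
    ∫ x in s..p, (Icc c d).indicator (fun _ => (1 : ℝ)) x = max (min d p - max c s) 0 := by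
  rw [intervalIntegral.integral_of_le hsp, setIntegral_indicator measurableSet_Icc,
    setIntegral_const, smul_eq_mul, mul_one, Measure.real]
  have h1 : volume (Ioc s p ∩ Icc c d) = ENNReal.ofReal (min d p - max c s) := by
    apply le_antisymm
    · rw [← Real.volume_Icc]
      refine measure_mono fun x hx => ?_
      exact ⟨max_le hx.2.1 hx.1.1.le, le_min hx.2.2 hx.1.2⟩
    · rw [← Real.volume_Ioc]
      refine measure_mono fun x hx => ?_
      have h2 := max_lt_iff.1 hx.1
      have h3 := le_min_iff.1 hx.2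
      exact ⟨⟨h2.2, h3.2⟩, ⟨h2.1.le, h3.1⟩⟩
  rw [h1, ENNReal.toReal_ofReal']

/-- The left side of `HB` as a sum over all pairs. -/
theorem lhs {ι : Type} [Fintype ι] (a b : ι → ℝ × ℝ) (η R θ₀ t : ℝ) (L : ι → ι → ℝ) :
    ∑ i ∈ XH a b R θ₀ t, ∑ j ∈ YH a b R η θ₀ t, L i j =
      ∑ i ∈ Bs a b R, ∑ j ∈ Bs a b R, L i j *
        (Icc (pr (a i) θ₀) (pr (a j) θ₀ - 4 * η)).indicator (fun _ => (1 : ℝ)) t := by
  classical
  unfold XH YH
  rw [Finset.sum_filter]
  refine Finset.sum_congr rfl fun i _ => ?_
  by_cases h1 : pr (a i) θ₀ ≤ t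
  · rw [if_pos h1, Finset.sum_filter]
    refine Finset.sum_congr rfl fun j _ => ?_
    by_cases h2 : t + 4 * η ≤ pr (a j) θ₀
    · rw [if_pos h2, indicator_of_mem (show t ∈ Icc _ _ from ⟨h1, by linarith⟩), mul_one]
    · rw [if_neg h2, indicator_of_notMem (fun h => h2 (by linarith [h.2])), mul_zero]
  · rw [if_neg h1]
    symm
    refine Finset.sum_eq_zero fun j _ => ?_
    rw [indicator_of_notMem (fun h => h1 h.1), mul_zero]

end AvAAux

open AvAAux

theorem pAvA : S_HB → S_Int → S_AvA := by
  classical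
  intro hHB hInt ι _ a b η ε R hcov hR
  set L : ι → ι → ℝ := fun i j => lam a b η i j * lam a b η j i with hL
  set ℓ := len a b Finset.univ with hℓ
  have hB : ∀ i ∈ Bs a b R, nm (a i) ≤ R := by
    intro i hi
    unfold Bs at hi
    exact (Finset.mem_filter.1 hi).2.1
  -- integration over t
  have key : ∀ θ : ℝ, ∑ i ∈ Bs a b R, ∑ j ∈ Bs a b R,
      L i j * max (pr (a j - a i) θ - 4 * η) 0 ≤
        2 * R * ((ℓ + 2 * R) * IW a b ε + ℓ * Wf a b ε θ) := by
    intro θ
    have h1 : ∀ t : ℝ, ∑ i ∈ Bs a b R, ∑ j ∈ Bs a b R, L i j *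
        (Icc (pr (a i) θ) (pr (a j) θ - 4 * η)).indicator (fun _ => (1 : ℝ)) t ≤
        (ℓ + 2 * R) * IW a b ε + ℓ * Wf a b ε θ := by
      intro t
      rw [← lhs a b η R θ t L]
      exact hHB ι a b η ε R θ t hcov hR
    have hint : ∀ i j : ι, IntervalIntegrable (fun t => L i j *
        (Icc (pr (a i) θ) (pr (a j) θ - 4 * η)).indicator (fun _ => (1 : ℝ)) t) volume (-R) R :=
      fun i j => (integrable_ind _ _).intervalIntegrable.const_mul _
    have hint2 : ∀ i : ι, IntervalIntegrable (fun t => ∑ j ∈ Bs a b R, L i j *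
        (Icc (pr (a i) θ) (pr (a j) θ - 4 * η)).indicator (fun _ => (1 : ℝ)) t) volume (-R) R := by
      intro i
      have h := IntervalIntegrable.sum (Bs a b R) fun j _ => hint i j
      rwa [Finset.sum_fn] at h
    have hint3 : IntervalIntegrable (fun t => ∑ i ∈ Bs a b R, ∑ j ∈ Bs a b R, L i j *
        (Icc (pr (a i) θ) (pr (a j) θ - 4 * η)).indicator (fun _ => (1 : ℝ)) t) volume (-R) R := by
      have h := IntervalIntegrable.sum (Bs a b R) fun i _ => hint2 i
      rwa [Finset.sum_fn] at h
    have h2 := intervalIntegral.integral_mono_on (by linarith : -R ≤ R) hint3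
      intervalIntegrable_const (fun t _ => h1 t)
    rw [intervalIntegral.integral_const, smul_eq_mul,
      intervalIntegral.integral_finsetSum (fun i _ => hint2 i)] at h2
    have h3 : ∑ i ∈ Bs a b R, ∑ j ∈ Bs a b R, L i j * max (pr (a j - a i) θ - 4 * η) 0 =
        ∑ i ∈ Bs a b R, ∫ t in (-R)..R, ∑ j ∈ Bs a b R, L i j *
        (Icc (pr (a i) θ) (pr (a j) θ - 4 * η)).indicator (fun _ => (1 : ℝ)) t := by
      refine Finset.sum_congr rfl fun i hi => ?_
      rw [intervalIntegral.integral_finsetSum (fun j _ => hint i j)]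
      refine Finset.sum_congr rfl fun j hj => ?_
      rw [intervalIntegral.integral_const_mul, int_ind _ _ _ _ (by linarith : -R ≤ R)]
      congr 2
      have a1 := (abs_le.1 ((abs_pr_le (a i) θ).trans (hB i hi)))
      have a2 := (abs_le.1 ((abs_pr_le (a j) θ).trans (hB j hj)))
      have a3 := hcov.eta_pos
      rw [min_eq_left (by linarith), max_eq_left (by linarith), pr_sub]
      ring
    rw [h3]
    refine h2.trans (le_of_eq ?_)
    ring
  -- integration over θ
  have hc : ∀ i j : ι, Continuous fun θ => max (pr (a j - a i) θ - 4 * η) 0 := fun i j =>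
    ((continuous_pr _).sub continuous_const).max continuous_const
  have hc2 : Continuous fun θ => ∑ i ∈ Bs a b R, ∑ j ∈ Bs a b R,
      L i j * max (pr (a j - a i) θ - 4 * η) 0 :=
    continuous_finsetSum _ fun i _ => continuous_finsetSum _ fun j _ =>
      continuous_const.mul (hc i j)
  have hW : Continuous (Wf a b ε) := by
    unfold Wf Mf
    refine ((continuous_finsetSum _ fun i _ => ?_).sub continuous_const).add continuous_const
    exact (continuous_pr (b i - a i)).abs
  have hc3 : Continuous fun θ => 2 * R * ((ℓ + 2 * R) * IW a b ε + ℓ * Wf a b ε θ) :=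
    continuous_const.mul (continuous_const.add (continuous_const.mul hW))
  have h4 := intervalIntegral.integral_mono_on (μ := volume) (a := 0) (b := π) Real.pi_pos.le
    (hc2.intervalIntegrable 0 π) (hc3.intervalIntegrable 0 π) (fun θ _ => key θ)
  have h5 : ∫ θ in (0 : ℝ)..π, ∑ i ∈ Bs a b R, ∑ j ∈ Bs a b R,
      L i j * max (pr (a j - a i) θ - 4 * η) 0 =
      ∑ i ∈ Bs a b R, ∑ j ∈ Bs a b R, L i j *
        ∫ θ in (0 : ℝ)..π, max (pr (a j - a i) θ - 4 * η) 0 := by
    have k1 : ∀ i j : ι, IntervalIntegrable (fun θ => L i j *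
        max (pr (a j - a i) θ - 4 * η) 0) volume 0 π := fun i j =>
      (continuous_const.mul (hc i j)).intervalIntegrable _ _
    have k2 : ∀ i : ι, IntervalIntegrable (fun θ => ∑ j ∈ Bs a b R, L i j *
        max (pr (a j - a i) θ - 4 * η) 0) volume 0 π := fun i =>
      (continuous_finsetSum _ fun j _ => continuous_const.mul (hc i j)).intervalIntegrable _ _
    rw [intervalIntegral.integral_finsetSum fun i _ => k2 i]
    refine Finset.sum_congr rfl fun i _ => ?_
    rw [intervalIntegral.integral_finsetSum fun j _ => k1 i j]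
    refine Finset.sum_congr rfl fun j _ => ?_
    rw [intervalIntegral.integral_const_mul]
  have h6 : ∫ θ in (0 : ℝ)..π, 2 * R * ((ℓ + 2 * R) * IW a b ε + ℓ * Wf a b ε θ) =
      2 * R * (π * (ℓ + 2 * R) + ℓ) * IW a b ε := by
    have h7 := hInt.2 ι a b ε 0
    rw [zero_add] at h7
    have k3 : IntervalIntegrable (fun θ => ℓ * Wf a b ε θ) volume 0 π :=
      (continuous_const.mul hW).intervalIntegrable _ _
    rw [intervalIntegral.integral_const_mul, intervalIntegral.integral_add
      intervalIntegrable_const k3,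
      intervalIntegral.integral_const, intervalIntegral.integral_const_mul, h7, smul_eq_mul]
    ring
  rw [h5, h6] at h4
  exact h4

end Pool.Agent.OD
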