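import Pool.Agent.Lib.OD.Spec

/-!
# Opaque sets of the disc: symmetrisation and the error terms (second half of 5.2)
-/

set_option autoImplicit false

namespace Pool.Agent.OD

open MeasureTheory Set Real

namespace AvBAux

theorem Dd_nonneg {ι : Type} (a b : ι → ℝ × ℝ) (i j : ι) : 0 ≤ Dd a b i j := abs_nonneg _

theorem Dd_le {ι : Type} (a b : ι → ℝ × ℝ) (i j : ι) :
    Dd a b i j ≤ nm (b i - a i) * nm (a j - a i) := by
  unfold Dd
  have hn := mul_nonneg (nm_nonneg (b i - a i)) (nm_nonneg (a j - a i))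
  refine abs_le_of_sq_le_sq ?_ hn
  rw [mul_pow, nm_sq, nm_sq]
  unfold dt
  nlinarith [sq_nonneg ((b i - a i).1 * (a j - a i).1 + (b i - a i).2 * (a j - a i).2)]

theorem lam_nonneg {ι : Type} (a b : ι → ℝ × ℝ) (η : ℝ) (i j : ι) : 0 ≤ lam a b η i j :=
  div_nonneg (le_max_right _ _) (nm_nonneg _)

theorem lam_le {ι : Type} (a b : ι → ℝ × ℝ) {η : ℝ} (hη : 0 < η) (i j : ι) :
    lam a b η i j ≤ nm (b i - a i) := by
  unfold lam
  rcases (nm_nonneg (a j - a i)).lt_or_eq with h | h
  · rw [div_le_iff₀ h]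
    refine max_le ?_ (mul_nonneg (nm_nonneg _) h.le)
    have h1 := Dd_le a b i j
    have h2 : 0 ≤ 3 * η * nm (b i - a i) := by
      have := nm_nonneg (b i - a i)
      positivity
    linarith
  · rw [← h, div_zero]; exact nm_nonneg _

theorem max_mul_max {x y p q : ℝ} (hx : 0 ≤ x) (hy : 0 ≤ y) (hp : 0 ≤ p) (hq : 0 ≤ q) :
    x * y - p * y - q * x ≤ max (x - p) 0 * max (y - q) 0 := by
  rcases le_total (x - p) 0 with h1 | h1
  · rw [max_eq_right h1, zero_mul]
    nlinarith [mul_nonneg hq hx, mul_nonneg hy (sub_nonneg.2 (sub_nonpos.1 h1))]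
  · rcases le_total (y - q) 0 with h2 | h2
    · rw [max_eq_right h2, mul_zero]
      nlinarith [mul_nonneg hp hy, mul_nonneg hx (sub_nonneg.2 (sub_nonpos.1 h2))]
    · rw [max_eq_left h1, max_eq_left h2]
      nlinarith [mul_nonneg hp hq]

theorem term_le {ι : Type} (a b : ι → ℝ × ℝ) {η : ℝ} (hη : 0 < η) (i j : ι) :
    Dd a b i j * Dd a b j i / nm (a j - a i) - 6 * η * (nm (b i - a i) * nm (b j - a j)) ≤
      nm (a j - a i) * (lam a b η i j * lam a b η j i) := by
  have hvi := nm_nonneg (b i - a i)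
  have hvj := nm_nonneg (b j - a j)
  rcases (nm_nonneg (a j - a i)).lt_or_eq with h | h
  · have hD1 := Dd_le a b i j
    have hD2 := Dd_le a b j i
    rw [nm_sub_comm (a i) (a j)] at hD2
    have h1 : 0 ≤ 3 * η * nm (b i - a i) := by positivity
    have h2 : 0 ≤ 3 * η * nm (b j - a j) := by positivity
    have h3 := max_mul_max (Dd_nonneg a b i j) (Dd_nonneg a b j i) h1 h2
    have h4 : nm (a j - a i) * (lam a b η i j * lam a b η j i) =
        max (Dd a b i j - 3 * η * nm (b i - a i)) 0 *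
          max (Dd a b j i - 3 * η * nm (b j - a j)) 0 / nm (a j - a i) := by
      unfold lam
      rw [nm_sub_comm (a i) (a j)]
      field_simp
    rw [h4, le_div_iff₀ h, sub_mul, div_mul_cancel₀ _ h.ne']
    have h5 : 3 * η * nm (b i - a i) * Dd a b j i ≤
        3 * η * nm (b i - a i) * (nm (b j - a j) * nm (a j - a i)) :=
      mul_le_mul_of_nonneg_left hD2 h1
    have h6 : 3 * η * nm (b j - a j) * Dd a b i j ≤
        3 * η * nm (b j - a j) * (nm (b i - a i) * nm (a j - a i)) :=
      mul_le_mul_of_nonneg_left hD1 h2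
    nlinarith [h3, h5, h6]
  · rw [← h, div_zero, zero_mul, zero_sub, neg_nonpos]
    positivity

theorem int_ge (hInt : S_Int) (v : ℝ × ℝ) {η : ℝ} :
    2 * nm v - 4 * π * η ≤ (∫ θ in (0 : ℝ)..π, max (pr v θ - 4 * η) 0) +
      ∫ θ in (0 : ℝ)..π, max (pr (-v) θ - 4 * η) 0 := by
  have hc : Continuous fun θ => max (pr v θ - 4 * η) 0 :=
    ((continuous_pr v).sub continuous_const).max continuous_const
  have hc' : Continuous fun θ => max (pr (-v) θ - 4 * η) 0 :=
    ((continuous_pr (-v)).sub continuous_const).max continuous_const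
  have hc2 : Continuous fun θ => |pr v θ| - 4 * η := (continuous_pr v).abs.sub continuous_const
  rw [← intervalIntegral.integral_add (hc.intervalIntegrable _ _) (hc'.intervalIntegrable _ _)]
  have h1 : ∫ θ in (0 : ℝ)..π, (|pr v θ| - 4 * η) = 2 * nm v - 4 * π * η := by
    rw [intervalIntegral.integral_sub ((continuous_pr v).abs.intervalIntegrable _ _)
      (continuous_const.intervalIntegrable _ _), hInt.1 v, intervalIntegral.integral_const]
    simp only [sub_zero, smul_eq_mul]
    ring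
  rw [← h1]
  refine intervalIntegral.integral_mono_on pi_pos.le (hc2.intervalIntegrable _ _)
    ((hc.add hc').intervalIntegrable _ _) fun θ _ => ?_
  rw [pr_neg]
  rcases abs_cases (pr v θ) with ⟨h, _⟩ | ⟨h, _⟩
  · rw [h]
    have h2 := le_max_left (pr v θ - 4 * η) 0
    have h3 := le_max_right (-pr v θ - 4 * η) 0
    linarith
  · rw [h]
    have h2 := le_max_right (pr v θ - 4 * η) 0
    have h3 := le_max_left (-pr v θ - 4 * η) 0
    linarith

end AvBAux

open AvBAux

theorem pAvB : S_Int → S_AvB := by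
  intro hInt ι _ a b η R hη
  set B := Bs a b R with hB
  set I : ι → ι → ℝ := fun i j => ∫ θ in (0 : ℝ)..π, max (pr (a j - a i) θ - 4 * η) 0 with hI
  -- symmetrisation
  have hsym : 2 * ∑ i ∈ B, ∑ j ∈ B, lam a b η i j * lam a b η j i * I i j =
      ∑ i ∈ B, ∑ j ∈ B, lam a b η i j * lam a b η j i * (I i j + I j i) := by
    have h1 : ∑ i ∈ B, ∑ j ∈ B, lam a b η i j * lam a b η j i * I j i =
        ∑ i ∈ B, ∑ j ∈ B, lam a b η i j * lam a b η j i * I i j := by
      rw [Finset.sum_comm]
      refine Finset.sum_congr rfl fun i _ => Finset.sum_congr rfl fun j _ => ?_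
      ring
    simp only [mul_add, Finset.sum_add_distrib]
    rw [h1]; ring
  have hterm : ∀ i j, 2 * (Dd a b i j * Dd a b j i / nm (a j - a i) -
      13 * η * (nm (b i - a i) * nm (b j - a j))) ≤
      lam a b η i j * lam a b η j i * (I i j + I j i) := by
    intro i j
    have h1 := int_ge hInt (a j - a i) (η := η)
    rw [neg_sub] at h1
    have hl := lam_nonneg a b η i j
    have hl' := lam_nonneg a b η j i
    have hll := mul_nonneg hl hl'
    have h2 := mul_le_mul_of_nonneg_left h1 hll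
    have h3 := term_le a b hη i j
    have h4 : lam a b η i j * lam a b η j i ≤ nm (b i - a i) * nm (b j - a j) :=
      mul_le_mul (lam_le a b hη i j) (lam_le a b hη j i) hl' (nm_nonneg _)
    have hpi := Real.pi_lt_d2
    have hpi0 := Real.pi_pos
    have h5 : 2 * π * η * (lam a b η i j * lam a b η j i) ≤
        7 * η * (nm (b i - a i) * nm (b j - a j)) := by
      refine mul_le_mul ?_ h4 hll (by positivity)
      have : 2 * π ≤ 7 := by linarith
      exact mul_le_mul_of_nonneg_right this hη.le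
    calc 2 * (Dd a b i j * Dd a b j i / nm (a j - a i) -
          13 * η * (nm (b i - a i) * nm (b j - a j)))
        ≤ lam a b η i j * lam a b η j i * (2 * nm (a j - a i) - 4 * π * η) := by nlinarith
      _ ≤ _ := h2
  have hsum : 2 * ((∑ i ∈ B, ∑ j ∈ B, Dd a b i j * Dd a b j i / nm (a j - a i)) -
      13 * η * len a b B ^ 2) ≤
      ∑ i ∈ B, ∑ j ∈ B, lam a b η i j * lam a b η j i * (I i j + I j i) := by
    have h1 : 2 * ((∑ i ∈ B, ∑ j ∈ B, Dd a b i j * Dd a b j i / nm (a j - a i)) -
      13 * η * len a b B ^ 2) = ∑ i ∈ B, ∑ j ∈ B, 2 * (Dd a b i j * Dd a b j i / nm (a j - a i) -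
      13 * η * (nm (b i - a i) * nm (b j - a j))) := by
      have h2 : len a b B ^ 2 = ∑ i ∈ B, ∑ j ∈ B, nm (b i - a i) * nm (b j - a j) := by
        rw [sq, len, Finset.sum_mul_sum]
      rw [h2]
      simp only [← Finset.mul_sum, Finset.sum_sub_distrib]
    rw [h1]
    exact Finset.sum_le_sum fun i _ => Finset.sum_le_sum fun j _ => hterm i j
  have hlen : len a b B ^ 2 ≤ len a b Finset.univ ^ 2 := by
    have h0 : 0 ≤ len a b B := Finset.sum_nonneg fun i _ => nm_nonneg _
    have h1 : len a b B ≤ len a b Finset.univ :=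
      Finset.sum_le_sum_of_subset_of_nonneg (Finset.subset_univ _) fun i _ _ => nm_nonneg _
    exact pow_le_pow_left₀ h0 h1 2
  have h13 : 13 * η * len a b B ^ 2 ≤ 13 * η * len a b Finset.univ ^ 2 :=
    mul_le_mul_of_nonneg_left hlen (by positivity)
  have hfin : ∑ i ∈ B, ∑ j ∈ B, lam a b η i j * lam a b η j i * I i j =
      ∑ i ∈ B, ∑ j ∈ B, lam a b η i j * lam a b η j i *
      (∫ θ in (0 : ℝ)..π, max (pr (a j - a i) θ - 4 * η) 0) := rfl
  rw [← hfin]
  linarith

end Pool.Agent.OD
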