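import Mathlib

/-!
# Opaque sets of the disc (MP_721d21): definitions and elementary facts

See `TEXT.md` in this folder for the proof.
-/

set_option autoImplicit false

namespace Pool.Agent.OD

open MeasureTheory Set

noncomputable section

/-! ## The plane -/

/-- `⟨x, n_θ⟩`, `n_θ = (-sin θ, cos θ)`: the coordinate of the line with direction `e_θ` through `x`. -/
def pr (x : ℝ × ℝ) (θ : ℝ) : ℝ := x.2 * Real.cos θ - x.1 * Real.sin θ

/-- `⟨x, e_θ⟩`, `e_θ = (cos θ, sin θ)`. -/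
def en (x : ℝ × ℝ) (θ : ℝ) : ℝ := x.1 * Real.cos θ + x.2 * Real.sin θ

/-- The Euclidean norm. -/
def nm (x : ℝ × ℝ) : ℝ := √(x.1 ^ 2 + x.2 ^ 2)

/-- The determinant. -/
def dt (u v : ℝ × ℝ) : ℝ := u.1 * v.2 - u.2 * v.1

/-! ## Finite families of closed intervals `[c i, d i]`, `i ∈ X` -/

/-- The number of the intervals that contain `p`. -/
def cnt {ι : Type} (X : Finset ι) (c d : ι → ℝ) (p : ℝ) : ℝ :=
  ∑ i ∈ X, (Icc (c i) (d i)).indicator (fun _ => (1 : ℝ)) p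

/-- The total overlap `∫ (N - 1)⁺`. -/
def Fo {ι : Type} (X : Finset ι) (c d : ι → ℝ) : ℝ := ∫ p, max (cnt X c d p - 1) 0

/-- `A(p) = ∫_{-∞}^p N`. -/
def Aq {ι : Type} (X : Finset ι) (c d : ι → ℝ) (p : ℝ) : ℝ :=
  ∑ i ∈ X, (max (p - c i) 0 - max (p - d i) 0)

/-- `q_k(p)`. -/
def qk {ι : Type} (X : Finset ι) (c d : ι → ℝ) (k : ι) (p : ℝ) : ℝ :=
  Aq X c d p - Aq X c d (min (c k) p) - (p - min (c k) p)

/-- The queue length `q(p) = max(0, max_k q_k(p))`. -/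
def qu {ι : Type} (X : Finset ι) (c d : ι → ℝ) (p : ℝ) : ℝ := X.fold max 0 (fun k => qk X c d k p)

/-- The busy set. -/
def Ub {ι : Type} (X : Finset ι) (c d : ι → ℝ) : Set ℝ :=
  {p | 0 < qu X c d p ∨ ∃ i ∈ X, p ∈ Icc (c i) (d i)}

/-- `ψ(u) = 1/4 - (1 - min(u,1))²/2`. -/
def psi (u : ℝ) : ℝ := 1 / 4 - (1 - min u 1) ^ 2 / 2

/-! ## Finite families of segments `[a i, b i]` -/

/-- Left end of the shadow of the piece `i` in direction `θ`. -/
def lo {ι : Type} (a b : ι → ℝ × ℝ) (θ : ℝ) (i : ι) : ℝ := min (pr (a i) θ) (pr (b i) θ)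

/-- Right end of the shadow. -/
def hi {ι : Type} (a b : ι → ℝ × ℝ) (θ : ℝ) (i : ι) : ℝ := max (pr (a i) θ) (pr (b i) θ)

/-- Length of the shadow. -/
def wd {ι : Type} (a b : ι → ℝ × ℝ) (θ : ℝ) (i : ι) : ℝ := |pr (b i - a i) θ|

/-- Total length of the pieces in `X`. -/
def len {ι : Type} (a b : ι → ℝ × ℝ) (X : Finset ι) : ℝ := ∑ i ∈ X, nm (b i - a i)

/-- Total length of the shadows of the pieces in `X`. -/
def Mf {ι : Type} (a b : ι → ℝ × ℝ) (X : Finset ι) (θ : ℝ) : ℝ := ∑ i ∈ X, wd a b θ i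

/-- `W(θ) = M(θ) - 2 + ε`. -/
def Wf {ι : Type} [Fintype ι] (a b : ι → ℝ × ℝ) (ε θ : ℝ) : ℝ := Mf a b Finset.univ θ - 2 + ε

/-- `I_W = ∫_0^π W = 2 ℓ - 2 π + π ε`. -/
def IW {ι : Type} [Fintype ι] (a b : ι → ℝ × ℝ) (ε : ℝ) : ℝ :=
  2 * len a b Finset.univ - 2 * Real.pi + Real.pi * ε

/-- The endpoint of the piece `i` whose coordinate is the left end of the shadow. -/
def lp {ι : Type} (a b : ι → ℝ × ℝ) (θ : ℝ) (i : ι) : ℝ × ℝ :=
  if pr (a i) θ ≤ pr (b i) θ then a i else b i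

/-- `ρ_i(θ)`: the speed `c_i' - ζ'` if the point `z` is in the (half open) shadow of `i`. -/
def rho {ι : Type} (a b : ι → ℝ × ℝ) (z : ℝ × ℝ) (θ : ℝ) (i : ι) : ℝ :=
  if lo a b θ i < pr z θ ∧ pr z θ ≤ hi a b θ i then en (z - lp a b θ i) θ else 0

/-- The queue length at the point `z`, direction `θ`. -/
def qt {ι : Type} (a b : ι → ℝ × ℝ) (X : Finset ι) (z : ℝ × ℝ) (θ : ℝ) : ℝ :=
  qu X (lo a b θ) (hi a b θ) (pr z θ)

/-- `1` if the coordinate of `z` is in the busy set in direction `θ`, else `0`. -/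
def us {ι : Type} (a b : ι → ℝ × ℝ) (X : Finset ι) (z : ℝ × ℝ) (θ : ℝ) : ℝ :=
  (Ub X (lo a b θ) (hi a b θ)).indicator (fun _ => (1 : ℝ)) (pr z θ)

/-- `D_ij = |det(v_i, a_j - a_i)|`. -/
def Dd {ι : Type} (a b : ι → ℝ × ℝ) (i j : ι) : ℝ := |dt (b i - a i) (a j - a i)|

/-- `λ_ij = (D_ij - 3 η |v_i|)⁺ / r_ij`. -/
def lam {ι : Type} (a b : ι → ℝ × ℝ) (η : ℝ) (i j : ι) : ℝ :=
  max (Dd a b i j - 3 * η * nm (b i - a i)) 0 / nm (a j - a i)

/-- The pieces with both ends in the disc of radius `R`. -/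
def Bs {ι : Type} [Fintype ι] (a b : ι → ℝ × ℝ) (R : ℝ) : Finset ι :=
  by classical exact Finset.univ.filter (fun i => nm (a i) ≤ R ∧ nm (b i) ≤ R)

/-- The pieces of `Bs` on the left of the line `H`. -/
def XH {ι : Type} [Fintype ι] (a b : ι → ℝ × ℝ) (R θ₀ t : ℝ) : Finset ι :=
  by classical exact (Bs a b R).filter (fun i => pr (a i) θ₀ ≤ t)

/-- The pieces of `Bs` on the right of the line `H`, with a gap `4 η`. -/
def YH {ι : Type} [Fintype ι] (a b : ι → ℝ × ℝ) (R η θ₀ t : ℝ) : Finset ι :=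
  by classical exact (Bs a b R).filter (fun j => t + 4 * η ≤ pr (a j) θ₀)

/-- A family of pieces of length at most `η` that blocks, in every direction, all lines meeting the disc
up to measure `ε`. -/
structure Cov {ι : Type} [Fintype ι] (a b : ι → ℝ × ℝ) (η ε : ℝ) : Prop where
  eta_pos : 0 < η
  eps_nonneg : 0 ≤ ε
  small : ∀ i, nm (b i - a i) ≤ η
  cov : ∀ θ, volume {p : ℝ | p ∈ Icc (-1 : ℝ) 1 ∧ ∀ i, p ∉ Icc (lo a b θ i) (hi a b θ i)} ≤
    ENNReal.ofReal ε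

/-! ## Elementary facts -/

theorem nm_nonneg (x : ℝ × ℝ) : 0 ≤ nm x := Real.sqrt_nonneg _

theorem nm_sq (x : ℝ × ℝ) : nm x ^ 2 = x.1 ^ 2 + x.2 ^ 2 := Real.sq_sqrt (by positivity)

theorem pr_add (x y : ℝ × ℝ) (θ : ℝ) : pr (x + y) θ = pr x θ + pr y θ := by
  simp only [pr, Prod.fst_add, Prod.snd_add]; ring

theorem pr_sub (x y : ℝ × ℝ) (θ : ℝ) : pr (x - y) θ = pr x θ - pr y θ := by
  simp only [pr, Prod.fst_sub, Prod.snd_sub]; ring

theorem pr_smul (r : ℝ) (x : ℝ × ℝ) (θ : ℝ) : pr (r • x) θ = r * pr x θ := by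
  simp only [pr, Prod.smul_fst, Prod.smul_snd, smul_eq_mul]; ring

theorem pr_neg (x : ℝ × ℝ) (θ : ℝ) : pr (-x) θ = - pr x θ := by
  simp only [pr, Prod.fst_neg, Prod.snd_neg]; ring

theorem en_add (x y : ℝ × ℝ) (θ : ℝ) : en (x + y) θ = en x θ + en y θ := by
  simp only [en, Prod.fst_add, Prod.snd_add]; ring

theorem en_sub (x y : ℝ × ℝ) (θ : ℝ) : en (x - y) θ = en x θ - en y θ := by
  simp only [en, Prod.fst_sub, Prod.snd_sub]; ring

theorem en_smul (r : ℝ) (x : ℝ × ℝ) (θ : ℝ) : en (r • x) θ = r * en x θ := by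
  simp only [en, Prod.smul_fst, Prod.smul_snd, smul_eq_mul]; ring

theorem en_neg (x : ℝ × ℝ) (θ : ℝ) : en (-x) θ = - en x θ := by
  simp only [en, Prod.fst_neg, Prod.snd_neg]; ring

theorem pr_sq_add_en_sq (x : ℝ × ℝ) (θ : ℝ) : pr x θ ^ 2 + en x θ ^ 2 = nm x ^ 2 := by
  rw [nm_sq]; simp only [pr, en]
  have h := Real.sin_sq_add_cos_sq θ
  linear_combination (x.1 ^ 2 + x.2 ^ 2) * h

theorem abs_pr_le (x : ℝ × ℝ) (θ : ℝ) : |pr x θ| ≤ nm x :=
  abs_le_of_sq_le_sq (by nlinarith [pr_sq_add_en_sq x θ, sq_nonneg (en x θ)]) (nm_nonneg x)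

theorem abs_en_le (x : ℝ × ℝ) (θ : ℝ) : |en x θ| ≤ nm x :=
  abs_le_of_sq_le_sq (by nlinarith [pr_sq_add_en_sq x θ, sq_nonneg (pr x θ)]) (nm_nonneg x)

theorem dt_eq (u v : ℝ × ℝ) (θ : ℝ) : dt u v = en u θ * pr v θ - pr u θ * en v θ := by
  simp only [dt, pr, en]
  have h := Real.sin_sq_add_cos_sq θ
  linear_combination (-(u.1 * v.2 - u.2 * v.1)) * h

theorem hasDerivAt_pr (x : ℝ × ℝ) (θ : ℝ) : HasDerivAt (pr x) (-en x θ) θ := by
  have h1 := (Real.hasDerivAt_cos θ).const_mul x.2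
  have h2 := (Real.hasDerivAt_sin θ).const_mul x.1
  refine (h1.sub h2).congr_deriv ?_
  simp only [en]; ring

theorem hasDerivAt_en (x : ℝ × ℝ) (θ : ℝ) : HasDerivAt (en x) (pr x θ) θ := by
  have h1 := (Real.hasDerivAt_cos θ).const_mul x.1
  have h2 := (Real.hasDerivAt_sin θ).const_mul x.2
  refine (h1.add h2).congr_deriv ?_
  simp only [pr]; ring

theorem pr_add_pi (x : ℝ × ℝ) (θ : ℝ) : pr x (θ + Real.pi) = - pr x θ := by
  simp only [pr, Real.cos_add_pi, Real.sin_add_pi]; ring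

theorem en_add_pi (x : ℝ × ℝ) (θ : ℝ) : en x (θ + Real.pi) = - en x θ := by
  simp only [en, Real.cos_add_pi, Real.sin_add_pi]; ring

theorem pr_add_angle (x : ℝ × ℝ) (θ s : ℝ) :
    pr x (θ + s) = pr x θ * Real.cos s - en x θ * Real.sin s := by
  simp only [pr, en, Real.cos_add, Real.sin_add]; ring

theorem en_add_angle (x : ℝ × ℝ) (θ s : ℝ) :
    en x (θ + s) = en x θ * Real.cos s + pr x θ * Real.sin s := by
  simp only [pr, en, Real.cos_add, Real.sin_add]; ring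

theorem continuous_pr (x : ℝ × ℝ) : Continuous (pr x) := by unfold pr; fun_prop

theorem continuous_en (x : ℝ × ℝ) : Continuous (en x) := by unfold en; fun_prop

/-- Polar coordinates. -/
theorem exists_polar (x : ℝ × ℝ) : ∃ φ : ℝ, ∀ θ, pr x θ = - (nm x * Real.sin (θ - φ)) ∧
    en x θ = nm x * Real.cos (θ - φ) := by
  obtain ⟨φ, h1, h2⟩ : ∃ φ : ℝ, x.1 = nm x * Real.cos φ ∧ x.2 = nm x * Real.sin φ := by
    refine ⟨(⟨x.1, x.2⟩ : ℂ).arg, ?_, ?_⟩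
    · have h := Complex.norm_mul_cos_arg (⟨x.1, x.2⟩ : ℂ)
      have hn : ‖(⟨x.1, x.2⟩ : ℂ)‖ = nm x := by
        rw [Complex.norm_def, Complex.normSq_mk, nm]; congr 1; ring
      rw [hn] at h; exact h.symm
    · have h := Complex.norm_mul_sin_arg (⟨x.1, x.2⟩ : ℂ)
      have hn : ‖(⟨x.1, x.2⟩ : ℂ)‖ = nm x := by
        rw [Complex.norm_def, Complex.normSq_mk, nm]; congr 1; ring
      rw [hn] at h; exact h.symm
  refine ⟨φ, fun θ => ⟨?_, ?_⟩⟩
  · rw [pr, Real.sin_sub]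
    conv_lhs => rw [h1, h2]
    ring
  · rw [en, Real.cos_sub]
    conv_lhs => rw [h1, h2]
    ring

theorem nm_add_le (x y : ℝ × ℝ) : nm (x + y) ≤ nm x + nm y := by
  have h := norm_add_le (⟨x.1, x.2⟩ : ℂ) ⟨y.1, y.2⟩
  have e : ∀ z : ℝ × ℝ, ‖(⟨z.1, z.2⟩ : ℂ)‖ = nm z := fun z => by
    rw [Complex.norm_def, Complex.normSq_mk, nm]; congr 1; ring
  rw [e, e] at h
  rw [← e (x + y)]
  exact h

theorem nm_neg (x : ℝ × ℝ) : nm (-x) = nm x := by simp [nm]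

theorem nm_sub_comm (x y : ℝ × ℝ) : nm (x - y) = nm (y - x) := by rw [← nm_neg, neg_sub]

theorem nm_smul (r : ℝ) (x : ℝ × ℝ) : nm (r • x) = |r| * nm x := by
  simp only [nm, Prod.smul_fst, Prod.smul_snd, smul_eq_mul]
  rw [← Real.sqrt_sq_eq_abs, ← Real.sqrt_mul (sq_nonneg r)]
  congr 1; ring

theorem nm_sub_le (x y : ℝ × ℝ) : nm (x - y) ≤ nm x + nm y := by
  rw [sub_eq_add_neg, ← nm_neg y]; exact nm_add_le _ _

theorem hi_sub_lo {ι : Type} (a b : ι → ℝ × ℝ) (θ : ℝ) (i : ι) :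
    hi a b θ i - lo a b θ i = wd a b θ i := by
  rw [hi, lo, wd, pr_sub, max_sub_min_eq_abs]

theorem lo_le_hi {ι : Type} (a b : ι → ℝ × ℝ) (θ : ℝ) (i : ι) : lo a b θ i ≤ hi a b θ i :=
  min_le_max

theorem wd_nonneg {ι : Type} (a b : ι → ℝ × ℝ) (θ : ℝ) (i : ι) : 0 ≤ wd a b θ i := abs_nonneg _

theorem wd_le {ι : Type} (a b : ι → ℝ × ℝ) (θ : ℝ) (i : ι) : wd a b θ i ≤ nm (b i - a i) :=
  abs_pr_le _ _

theorem lipschitz_pr (x : ℝ × ℝ) : LipschitzWith (nm x).toNNReal (pr x) := by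
  apply lipschitzWith_of_nnnorm_deriv_le (fun θ => (hasDerivAt_pr x θ).differentiableAt)
  intro θ
  rw [(hasDerivAt_pr x θ).deriv, ← NNReal.coe_le_coe, coe_nnnorm, Real.coe_toNNReal _ (nm_nonneg x),
    Real.norm_eq_abs, abs_neg]
  exact abs_en_le x θ

theorem lipschitz_wd {ι : Type} (a b : ι → ℝ × ℝ) (i : ι) :
    LipschitzWith (nm (b i - a i)).toNNReal (fun θ => wd a b θ i) := by
  have h := (lipschitz_pr (b i - a i))
  apply LipschitzWith.of_dist_le_mul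
  intro x y
  have h2 := h.dist_le_mul x y
  rw [Real.dist_eq] at h2 ⊢
  exact le_trans (abs_abs_sub_abs_le_abs_sub _ _) h2

end

end Pool.Agent.OD
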