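import Pool.Agent.Lib.OD.Spec

/-!
# Opaque sets of the disc: the identity for `2 |det (u, v)|` (6.3)
-/

set_option autoImplicit false

namespace Pool.Agent.OD

open MeasureTheory Set Real

namespace CosAux

/-- The integrand. -/
noncomputable def gg (u v : ℝ × ℝ) (θ : ℝ) : ℝ := |pr u θ| * |pr v θ| -
    (SignType.sign (pr u θ) : ℝ) * en u θ * ((SignType.sign (pr v θ) : ℝ) * en v θ)

theorem sign_neg' (x : ℝ) : ((SignType.sign (-x) : SignType) : ℝ) = -((SignType.sign x : SignType) : ℝ) := by
  rw [Left.sign_neg]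
  rcases SignType.sign x with _ | _ | _ <;> simp

theorem gg_periodic (u v : ℝ × ℝ) : Function.Periodic (gg u v) π := by
  intro θ
  unfold gg
  rw [pr_add_pi, pr_add_pi, en_add_pi, en_add_pi, abs_neg, abs_neg, sign_neg', sign_neg']
  ring

theorem measurable_sgn : Measurable fun x : ℝ => ((SignType.sign x : SignType) : ℝ) := by
  refine Monotone.measurable ?_
  intro x y hxy
  have h := SignType.sign.monotone hxy
  have key : ∀ s t : SignType, s ≤ t → (s : ℝ) ≤ (t : ℝ) := by
    intro s t hst
    rcases s with _ | _ | _ <;> rcases t with _ | _ | _ <;>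
      first | (exact absurd hst (by decide)) | norm_num
  exact key _ _ h

theorem abs_sgn_le (x : ℝ) : |((SignType.sign x : SignType) : ℝ)| ≤ 1 := by
  rcases SignType.sign x with _ | _ | _ <;> norm_num

theorem gg_int (u v : ℝ × ℝ) (α β : ℝ) : IntervalIntegrable (gg u v) volume α β := by
  have hm : Measurable (gg u v) := by
    unfold gg
    exact ((continuous_pr u).abs.measurable.mul (continuous_pr v).abs.measurable).sub
      (((measurable_sgn.comp (continuous_pr u).measurable).mul (continuous_en u).measurable).mul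
      ((measurable_sgn.comp (continuous_pr v).measurable).mul (continuous_en v).measurable))
  have hc : Continuous fun _ : ℝ => 2 * (nm u * nm v) := continuous_const
  refine (hc.intervalIntegrable α β).mono_fun hm.aestronglyMeasurable ?_
  refine Filter.Eventually.of_forall fun θ => ?_
  have h0 : 0 ≤ 2 * (nm u * nm v) := by
    have := mul_nonneg (nm_nonneg u) (nm_nonneg v)
    linarith
  show ‖gg u v θ‖ ≤ ‖2 * (nm u * nm v)‖
  rw [Real.norm_eq_abs, Real.norm_eq_abs, abs_of_nonneg h0]
  unfold gg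
  have h1 : |pr u θ| * |pr v θ| ≤ nm u * nm v :=
    mul_le_mul (abs_pr_le u θ) (abs_pr_le v θ) (abs_nonneg _) (nm_nonneg _)
  have h2 : |((SignType.sign (pr u θ) : SignType) : ℝ) * en u θ| ≤ nm u := by
    rw [abs_mul]
    calc _ ≤ 1 * nm u := mul_le_mul (abs_sgn_le _) (abs_en_le u θ) (abs_nonneg _) zero_le_one
      _ = nm u := one_mul _
  have h3 : |((SignType.sign (pr v θ) : SignType) : ℝ) * en v θ| ≤ nm v := by
    rw [abs_mul]
    calc _ ≤ 1 * nm v := mul_le_mul (abs_sgn_le _) (abs_en_le v θ) (abs_nonneg _) zero_le_one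
      _ = nm v := one_mul _
  have h4 : |((SignType.sign (pr u θ) : SignType) : ℝ) * en u θ *
      (((SignType.sign (pr v θ) : SignType) : ℝ) * en v θ)| ≤ nm u * nm v := by
    rw [abs_mul]
    exact mul_le_mul h2 h3 (abs_nonneg _) (nm_nonneg _)
  have h5 := abs_sub (|pr u θ| * |pr v θ|) (((SignType.sign (pr u θ) : SignType) : ℝ) * en u θ *
      (((SignType.sign (pr v θ) : SignType) : ℝ) * en v θ))
  have h6 : |(|pr u θ| * |pr v θ|)| = |pr u θ| * |pr v θ| :=
    abs_of_nonneg (mul_nonneg (abs_nonneg _) (abs_nonneg _))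
  rw [h6] at h5
  linarith

theorem hasDerivAt_abs_pr (u : ℝ × ℝ) (θ : ℝ) (h : pr u θ ≠ 0) :
    HasDerivAt (fun θ => |pr u θ|) (-(((SignType.sign (pr u θ) : SignType) : ℝ) * en u θ)) θ := by
  have h1 := (hasDerivAt_abs h).comp θ (hasDerivAt_pr u θ)
  refine h1.congr_deriv ?_
  ring

theorem countable_zero (u : ℝ × ℝ) (hu : nm u ≠ 0) : {θ : ℝ | pr u θ = 0}.Countable := by
  obtain ⟨φ, hφ⟩ := exists_polar u
  have hsub : {θ : ℝ | pr u θ = 0} ⊆ Set.range fun n : ℤ => (n : ℝ) * π + φ := by
    intro θ hθ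
    have h1 : pr u θ = 0 := hθ
    rw [(hφ θ).1, neg_eq_zero, mul_eq_zero] at h1
    rcases h1 with h1 | h1
    · exact absurd h1 hu
    · obtain ⟨n, hn⟩ := Real.sin_eq_zero_iff.1 h1
      exact ⟨n, by simp only; linarith⟩
  exact (Set.countable_range _).mono hsub

theorem main (u v : ℝ × ℝ) (hu : nm u ≠ 0) :
    ∫ θ in (0 : ℝ)..π, gg u v θ = 2 * |dt u v| := by
  obtain ⟨φ, hφ⟩ := exists_polar v
  have hper := (gg_periodic u v).intervalIntegral_add_eq 0 φ
  rw [zero_add] at hper
  rw [hper]
  have hle : φ ≤ φ + π := by linarith [pi_pos]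
  have hF : ∫ θ in φ..(φ + π), gg u v θ =
      (fun θ => -(nm v * (|pr u θ| * Real.cos (θ - φ)))) (φ + π) -
      (fun θ => -(nm v * (|pr u θ| * Real.cos (θ - φ)))) φ := by
    refine integral_eq_of_hasDerivAt_off_countable_of_le
      (fun θ => -(nm v * (|pr u θ| * Real.cos (θ - φ)))) (gg u v) hle (countable_zero u hu) ?_ ?_
      (gg_int u v _ _)
    · refine Continuous.continuousOn ?_
      have := (continuous_pr u).abs
      fun_prop
    · rintro θ ⟨⟨h1, h2⟩, h3⟩
      have h3' : pr u θ ≠ 0 := h3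
      have hs : 0 < Real.sin (θ - φ) := Real.sin_pos_of_pos_of_lt_pi (by linarith) (by linarith)
      have hd1 := hasDerivAt_abs_pr u θ h3'
      have hd2 : HasDerivAt (fun θ => Real.cos (θ - φ)) (-Real.sin (θ - φ)) θ := by
        have := (Real.hasDerivAt_cos (θ - φ)).comp θ ((hasDerivAt_id θ).sub_const φ)
        refine this.congr_deriv ?_
        ring
      refine (((hd1.mul hd2).const_mul (nm v)).neg).congr_deriv ?_
      unfold gg
      rcases (nm_nonneg v).lt_or_eq with hv | hv
      · have e1 : pr v θ = -(nm v * Real.sin (θ - φ)) := (hφ θ).1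
        have e2 : en v θ = nm v * Real.cos (θ - φ) := (hφ θ).2
        have e3 : ((SignType.sign (pr v θ) : SignType) : ℝ) = -1 := by
          have : pr v θ < 0 := by
            rw [e1, neg_neg_iff_pos]; exact mul_pos hv hs
          rw [sign_neg this]; norm_num
        have e4 : |pr v θ| = nm v * Real.sin (θ - φ) := by
          rw [e1, abs_neg, abs_of_pos (mul_pos hv hs)]
        rw [e3, e4, e2]
        ring
      · have e1 : pr v θ = 0 := by rw [(hφ θ).1, ← hv]; ring
        have e2 : en v θ = 0 := by rw [(hφ θ).2, ← hv]; ring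
        rw [e1, e2, ← hv]
        simp
  rw [hF]
  have hc1 : Real.cos (φ + π - φ) = -1 := by
    rw [add_sub_cancel_left, Real.cos_pi]
  have hc2 : Real.cos (φ - φ) = 1 := by rw [sub_self, Real.cos_zero]
  simp only [hc1, hc2, pr_add_pi, abs_neg]
  have hd : |dt u v| = nm v * |pr u φ| := by
    rw [dt_eq u v φ]
    have e1 : pr v φ = 0 := by rw [(hφ φ).1]; simp
    have e2 : en v φ = nm v := by rw [(hφ φ).2]; simp
    rw [e1, e2, mul_zero, zero_sub, abs_neg, abs_mul, abs_of_nonneg (nm_nonneg v), mul_comm]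
  rw [hd]
  ring

end CosAux

open CosAux

theorem pCos : S_Cos := by
  intro u v
  by_cases hu : nm u = 0
  · have h1 : ∀ θ, pr u θ = 0 := fun θ => by
      have := abs_pr_le u θ
      rw [hu] at this
      exact abs_nonpos_iff.1 this
    have h2 : |dt u v| = 0 := by
      rw [dt_eq u v 0, h1 0]
      have h3 : en u 0 = 0 := by
        have := abs_en_le u 0
        rw [hu] at this
        exact abs_nonpos_iff.1 this
      rw [h3]; simp
    rw [h2]
    simp [h1]
  · exact main u v hu

end Pool.Agent.OD
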