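import Pool.Agent.Lib.OD.Spec

set_option autoImplicit false

namespace Pool.Agent.OD

open MeasureTheory Set Real

namespace CrAux

theorem pr_lp {ι : Type} (a b : ι → ℝ × ℝ) (θ : ℝ) (i : ι) :
    pr (lp a b θ i) θ = lo a b θ i := by
  unfold lo lp
  split_ifs with h
  · exact (min_eq_left h).symm
  · exact (min_eq_right (le_of_lt (not_le.mp h))).symm

theorem lo_le_pr_lp {ι : Type} (a b : ι → ℝ × ℝ) (θ t : ℝ) (i : ι) :
    lo a b t i ≤ pr (lp a b θ i) t := by
  unfold lo lp
  split_ifs
  · exact min_le_left _ _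
  · exact min_le_right _ _

theorem nm_lp_sub {ι : Type} (a b : ι → ℝ × ℝ) (θ : ℝ) (i : ι) :
    nm (lp a b θ i - a i) ≤ nm (b i - a i) := by
  unfold lp
  split_ifs
  · rw [sub_self]
    have : nm (0 : ℝ × ℝ) = 0 := by simp [nm]
    rw [this]; exact nm_nonneg _
  · exact le_rfl

theorem deriv_lo {ι : Type} (a b : ι → ℝ × ℝ) (θ : ℝ) (i : ι)
    (h : DifferentiableAt ℝ (fun t => lo a b t i) θ) :
    deriv (fun t => lo a b t i) θ = - en (lp a b θ i) θ := by
  have h1 : IsLocalMin (fun t => pr (lp a b θ i) t - lo a b t i) θ := by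
    filter_upwards with t
    rw [pr_lp, sub_self, sub_nonneg]
    exact lo_le_pr_lp a b θ t i
  have h2 := h1.deriv_eq_zero
  have h3 : HasDerivAt (fun t => pr (lp a b θ i) t - lo a b t i)
      (- en (lp a b θ i) θ - deriv (fun t => lo a b t i) θ) θ :=
    (hasDerivAt_pr _ _).sub h.hasDerivAt
  rw [h3.deriv] at h2
  linarith

theorem abs_dt_le (v u : ℝ × ℝ) (θ c : ℝ) (hc : |pr u θ| ≤ c) :
    |dt v u| ≤ c * nm v + |pr v θ| * nm u := by
  rw [dt_eq v u θ]
  have h1 : |en v θ * pr u θ - pr v θ * en u θ| ≤ |en v θ * pr u θ| + |pr v θ * en u θ| :=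
    abs_sub _ _
  have h2 : |en v θ * pr u θ| ≤ nm v * c := by
    rw [abs_mul]; exact mul_le_mul (abs_en_le _ _) hc (abs_nonneg _) (nm_nonneg _)
  have h3 : |pr v θ * en u θ| ≤ |pr v θ| * nm u := by
    rw [abs_mul]; exact mul_le_mul_of_nonneg_left (abs_en_le _ _) (abs_nonneg _)
  linarith

theorem lam_le {ι : Type} (a b : ι → ℝ × ℝ) (η θ : ℝ) (i j : ι)
    (h : |pr (a j - a i) θ| ≤ 3 * η) : lam a b η i j ≤ wd a b θ i := by
  unfold lam
  rcases (nm_nonneg (a j - a i)).eq_or_lt with h0 | h0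
  · rw [← h0, div_zero]; exact wd_nonneg _ _ _ _
  · rw [div_le_iff₀ h0]
    apply max_le
    · have := abs_dt_le (b i - a i) (a j - a i) θ (3 * η) h
      unfold Dd wd
      linarith
    · exact mul_nonneg (wd_nonneg _ _ _ _) h0.le

theorem lam_nonneg {ι : Type} (a b : ι → ℝ × ℝ) (η : ℝ) (i j : ι) : 0 ≤ lam a b η i j :=
  div_nonneg (le_max_right _ _) (nm_nonneg _)

theorem lam_le_nm {ι : Type} (a b : ι → ℝ × ℝ) (η : ℝ) (hη : 0 ≤ η) (i j : ι) :
    lam a b η i j ≤ nm (b i - a i) := by
  obtain ⟨φ, hφ⟩ := exists_polar (a j - a i)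
  refine (lam_le a b η φ i j ?_).trans (wd_le a b φ i)
  rw [(hφ φ).1, sub_self, Real.sin_zero, mul_zero, neg_zero, abs_zero]
  linarith

theorem meas_rho {ι : Type} (a b : ι → ℝ × ℝ) (z : ℝ × ℝ) (i : ι) :
    Measurable (fun θ => rho a b z θ i) := by
  have hlo : Continuous (fun θ => lo a b θ i) := (continuous_pr _).min (continuous_pr _)
  have hhi : Continuous (fun θ => hi a b θ i) := (continuous_pr _).max (continuous_pr _)
  have hz := continuous_pr z
  have hen : (fun θ => en (z - lp a b θ i) θ) =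
      fun θ => if pr (a i) θ ≤ pr (b i) θ then en (z - a i) θ else en (z - b i) θ := by
    funext θ; unfold lp; split_ifs <;> rfl
  unfold rho
  refine Measurable.ite ?_ ?_ measurable_const
  · exact (measurableSet_lt hlo.measurable hz.measurable).inter
      (measurableSet_le hz.measurable hhi.measurable)
  · rw [hen]
    exact Measurable.ite
      (measurableSet_le (continuous_pr _).measurable (continuous_pr _).measurable)
      (continuous_en _).measurable (continuous_en _).measurable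

theorem abs_rho_le {ι : Type} (a b : ι → ℝ × ℝ) (z : ℝ × ℝ) (θ : ℝ) (i : ι) :
    |rho a b z θ i| ≤ nm (z - a i) + nm (z - b i) := by
  have h1 := nm_nonneg (z - a i)
  have h2 := nm_nonneg (z - b i)
  unfold rho lp
  split_ifs
  · have := abs_en_le (z - a i) θ; linarith
  · have := abs_en_le (z - b i) θ; linarith
  · rw [abs_zero]; linarith

theorem int_rho {ι : Type} (a b : ι → ℝ × ℝ) (z : ℝ × ℝ) (i : ι) (s t : ℝ) :
    IntervalIntegrable (fun θ => rho a b z θ i) volume s t := by
  refine (intervalIntegrable_const (c := nm (z - a i) + nm (z - b i))).mono_fun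
    (meas_rho a b z i).aestronglyMeasurable (Filter.Eventually.of_forall fun θ => ?_)
  simp only [Real.norm_eq_abs]
  rw [abs_of_nonneg (a := nm (z - a i) + nm (z - b i))
    (add_nonneg (nm_nonneg _) (nm_nonneg _))]
  exact abs_rho_le a b z θ i

theorem int_wd_rho {ι : Type} (a b : ι → ℝ × ℝ) (z : ℝ × ℝ) (i j : ι) (s t : ℝ) :
    IntervalIntegrable (fun θ => wd a b θ j * rho a b z θ i) volume s t :=
  (int_rho a b z i s t).continuousOn_mul (lipschitz_wd a b j).continuous.continuousOn

end CrAux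

open CrAux in
theorem pCr : S_Cr := by
  intro ι a b i j η θ₀ t τ hη hvi hvj hai haj hτ0 hτ1
  set z : ℝ × ℝ := a j + τ • (b j - a j) with hz
  set lam' := lam a b η i j with hlam'
  set mu := lam a b η j i with hmu
  have hlam0 : 0 ≤ lam' := lam_nonneg _ _ _ _ _
  have hmu0 : 0 ≤ mu := lam_nonneg _ _ _ _ _
  have hlamη : lam' ≤ η := (lam_le_nm a b η hη.le i j).trans hvi
  -- the point `z`
  have hza : nm (z - a j) ≤ η := by
    have : z - a j = τ • (b j - a j) := by rw [hz, add_sub_cancel_left]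
    rw [this, nm_smul, abs_of_nonneg hτ0]
    have h0 := nm_nonneg (b j - a j)
    nlinarith
  have hprz : ∀ θ, |pr z θ - pr (a j) θ| ≤ η := fun θ => by
    rw [← pr_sub]; exact (abs_pr_le _ _).trans hza
  have hprl : ∀ θ s, |pr (lp a b θ i) s - pr (a i) s| ≤ η := fun θ s => by
    rw [← pr_sub]; exact ((abs_pr_le _ _).trans (nm_lp_sub a b θ i)).trans hvi
  -- the function `f`
  set f : ℝ → ℝ := fun θ => pr z θ - lo a b θ i with hf
  have hfx : ∀ θ, f θ = pr (z - lp a b θ i) θ := fun θ => by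
    rw [pr_sub, pr_lp]
  have hu : ∀ θ, |f θ| ≤ η → |pr (a j - a i) θ| ≤ 3 * η := fun θ h => by
    rw [hfx, pr_sub] at h
    rw [pr_sub]
    have h1 := hprz θ
    have h2 := hprl θ θ
    rw [abs_le] at h h1 h2 ⊢
    constructor <;> linarith [h.1, h.2, h1.1, h1.2, h2.1, h2.2]
  have hwi : ∀ θ, |f θ| ≤ η → lam' ≤ wd a b θ i := fun θ h => lam_le a b η θ i j (hu θ h)
  have hwj : ∀ θ, |f θ| ≤ η → mu ≤ wd a b θ j := fun θ h => by
    refine lam_le a b η θ j i ?_
    have := hu θ h
    rw [pr_sub] at this ⊢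
    rwa [abs_sub_comm]
  -- positivity of the speed
  have hen : ∀ θ ∈ Icc θ₀ (θ₀ + π), |f θ| ≤ η → 0 < en (z - lp a b θ i) θ := by
    intro θ hθ h
    have h1 := pr_add_angle (z - lp a b θ i) θ (-(θ - θ₀))
    rw [show θ + -(θ - θ₀) = θ₀ by ring, Real.cos_neg, Real.sin_neg, ← hfx] at h1
    have h2 : 2 * η ≤ pr (z - lp a b θ i) θ₀ := by
      rw [pr_sub]
      have e1 := hprz θ₀
      have e2 := hprl θ θ₀
      rw [abs_le] at e1 e2
      linarith [e1.1, e2.2]
    have h3 : f θ * Real.cos (θ - θ₀) ≤ η := by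
      calc f θ * Real.cos (θ - θ₀) ≤ |f θ * Real.cos (θ - θ₀)| := le_abs_self _
        _ = |f θ| * |Real.cos (θ - θ₀)| := abs_mul _ _
        _ ≤ η * 1 := mul_le_mul h (Real.abs_cos_le_one _) (abs_nonneg _) hη.le
        _ = η := mul_one _
    have h4 : 0 ≤ Real.sin (θ - θ₀) :=
      Real.sin_nonneg_of_nonneg_of_le_pi (by linarith [hθ.1]) (by linarith [hθ.2])
    by_contra hcon
    have h5 : en (z - lp a b θ i) θ * Real.sin (θ - θ₀) ≤ 0 :=
      mul_nonpos_of_nonpos_of_nonneg (not_lt.mp hcon) h4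
    nlinarith
  -- in the shadow
  have hin : ∀ θ, lo a b θ i < pr z θ ∧ pr z θ ≤ hi a b θ i → |f θ| ≤ η := by
    intro θ h
    have h1 := hi_sub_lo a b θ i
    have h2 := (wd_le a b θ i).trans hvi
    have h3 : f θ = pr z θ - lo a b θ i := rfl
    rw [abs_le]
    constructor <;> linarith [h.1, h.2]
  have hrho0 : ∀ θ ∈ Icc θ₀ (θ₀ + π), 0 ≤ rho a b z θ i := by
    intro θ hθ
    unfold rho
    split_ifs with h
    · exact (hen θ hθ (hin θ h)).le
    · exact le_rfl
  have hmurho : ∀ θ ∈ Icc θ₀ (θ₀ + π), mu * rho a b z θ i ≤ wd a b θ j * rho a b z θ i := by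
    intro θ hθ
    by_cases h : lo a b θ i < pr z θ ∧ pr z θ ≤ hi a b θ i
    · exact mul_le_mul_of_nonneg_right (hwj θ (hin θ h)) (hrho0 θ hθ)
    · have : rho a b z θ i = 0 := by unfold rho; rw [if_neg h]
      rw [this, mul_zero, mul_zero]
  -- the function `h`
  have hfL : LipschitzWith ((nm z).toNNReal +
      max (nm (a i)).toNNReal (nm (b i)).toNNReal) f :=
    (lipschitz_pr z).sub ((lipschitz_pr (a i)).min (lipschitz_pr (b i)))
  set h : ℝ → ℝ := fun θ => min (max (f θ) 0) lam' with hh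
  have hhL : LipschitzWith ((nm z).toNNReal +
      max (nm (a i)).toNNReal (nm (b i)).toNNReal) h := (hfL.max_const 0).min_const lam'
  have hAC : AbsolutelyContinuousOnInterval h θ₀ (θ₀ + π) :=
    (hhL.lipschitzOnWith (s := uIcc θ₀ (θ₀ + π))).absolutelyContinuousOnInterval
  have hpi : θ₀ ≤ θ₀ + π := by linarith [Real.pi_pos]
  have h0 : h θ₀ = lam' := by
    have e1 := (hprz θ₀)
    rw [abs_le] at e1
    have e2 : lo a b θ₀ i ≤ pr (a i) θ₀ := min_le_left _ _
    have e3 : lam' ≤ f θ₀ := by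
      have : f θ₀ = pr z θ₀ - lo a b θ₀ i := rfl
      linarith [e1.1]
    exact min_eq_right (e3.trans (le_max_left _ _))
  have h1 : h (θ₀ + π) = 0 := by
    have e1 := (hprz (θ₀ + π))
    have e2 := hprl (θ₀ + π) (θ₀ + π)
    rw [abs_le] at e1 e2
    rw [pr_add_pi (a j)] at e1
    rw [pr_add_pi (a i), pr_lp] at e2
    have e3 : f (θ₀ + π) ≤ 0 := by
      have : f (θ₀ + π) = pr z (θ₀ + π) - lo a b (θ₀ + π) i := rfl
      linarith [e1.2, e2.1]
    have e4 : max (f (θ₀ + π)) 0 = 0 := max_eq_right e3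
    change min (max (f (θ₀ + π)) 0) lam' = 0
    rw [e4]; exact min_eq_left hlam0
  -- the derivative
  have hloL : LipschitzWith (max (nm (a i)).toNNReal (nm (b i)).toNNReal)
      (fun t => lo a b t i) := (lipschitz_pr (a i)).min (lipschitz_pr (b i))
  have hder : ∀ᵐ θ : ℝ, θ ∈ Icc θ₀ (θ₀ + π) → - deriv h θ ≤ rho a b z θ i := by
    filter_upwards [hloL.ae_differentiableAt] with θ hd hθ
    have hfd : HasDerivAt f (- en (z - lp a b θ i) θ) θ := by
      have e1 := (hasDerivAt_pr z θ).sub hd.hasDerivAt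
      rw [deriv_lo a b θ i hd] at e1
      refine e1.congr_deriv ?_
      rw [en_sub]; ring
    rcases le_or_gt (f θ) 0 with hneg | hpos
    · have e1 : IsLocalMin h θ := by
        filter_upwards with s
        have : h θ = 0 := by
          change min (max (f θ) 0) lam' = 0
          rw [max_eq_right hneg]; exact min_eq_left hlam0
        rw [this]
        exact le_min (le_max_right _ _) hlam0
      rw [e1.deriv_eq_zero, neg_zero]
      exact hrho0 θ hθ
    · rcases le_or_gt lam' (f θ) with hbig | hsm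
      · have e1 : IsLocalMax h θ := by
          filter_upwards with s
          have : h θ = lam' := min_eq_right (hbig.trans (le_max_left _ _))
          rw [this]
          exact min_le_right _ _
        rw [e1.deriv_eq_zero, neg_zero]
        exact hrho0 θ hθ
      · have e1 : h =ᶠ[nhds θ] f := by
          have c1 : ∀ᶠ s in nhds θ, 0 < f s := hfd.continuousAt.eventually_const_lt hpos
          have c2 : ∀ᶠ s in nhds θ, f s < lam' := hfd.continuousAt.eventually_lt_const hsm
          filter_upwards [c1, c2] with s hs1 hs2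
          change min (max (f s) 0) lam' = f s
          rw [max_eq_left hs1.le, min_eq_left hs2.le]
        rw [e1.deriv_eq, hfd.deriv, neg_neg]
        have e2 : |f θ| ≤ η := by
          rw [abs_of_pos hpos]; linarith
        have e3 := hwi θ e2
        have e4 := hi_sub_lo a b θ i
        have e5 : f θ = pr z θ - lo a b θ i := rfl
        have e6 : lo a b θ i < pr z θ ∧ pr z θ ≤ hi a b θ i := by
          constructor <;> linarith
        unfold rho
        rw [if_pos e6]
  have hint1 : lam' ≤ ∫ θ in θ₀..(θ₀ + π), rho a b z θ i := by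
    have e1 := hAC.integral_deriv_eq_sub
    have e2 : lam' = ∫ θ in θ₀..(θ₀ + π), - deriv h θ := by
      rw [intervalIntegral.integral_neg, e1, h0, h1]; ring
    rw [e2]
    refine intervalIntegral.integral_mono_ae_restrict hpi hAC.intervalIntegrable_deriv.neg
      (int_rho a b z i _ _) ?_
    rw [Filter.EventuallyLE, ae_restrict_iff' measurableSet_Icc]
    exact hder
  calc lam' * mu = mu * lam' := mul_comm _ _
    _ ≤ mu * ∫ θ in θ₀..(θ₀ + π), rho a b z θ i := mul_le_mul_of_nonneg_left hint1 hmu0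
    _ = ∫ θ in θ₀..(θ₀ + π), mu * rho a b z θ i :=
      (intervalIntegral.integral_const_mul _ _).symm
    _ ≤ ∫ θ in θ₀..(θ₀ + π), wd a b θ j * rho a b z θ i :=
      intervalIntegral.integral_mono_on hpi ((int_rho a b z i _ _).const_mul _)
        (int_wd_rho a b z i j _ _) hmurho

end Pool.Agent.OD
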