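import Pool.Agent.Lib.OD.Spec

/-!
# `S_Far`: the pieces outside the disc of radius `1.084`
-/

set_option autoImplicit false

namespace Pool.Agent.OD

open MeasureTheory Set Real

noncomputable section

namespace FarAux

/-- The angle with sine `12/13`. -/
def al : ℝ := Real.arcsin (12 / 13)

theorem sin_al : Real.sin al = 12 / 13 := Real.sin_arcsin (by norm_num) (by norm_num)

theorem cos_al : Real.cos al = 5 / 13 := by
  rw [al, Real.cos_arcsin, show (1 - (12 / 13 : ℝ) ^ 2) = (5 / 13) ^ 2 by norm_num,
    Real.sqrt_sq (by norm_num)]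

theorem al_pos : 0 < al := Real.arcsin_pos.2 (by norm_num)

theorem al_le : al ≤ π / 2 := Real.arcsin_le_pi_div_two _

theorem sin_win {s : ℝ} (h1 : al ≤ s) (h2 : s ≤ π - al) : 12 / 13 ≤ Real.sin s := by
  rw [← sin_al]
  rcases le_total s (π / 2) with h | h
  · exact Real.sin_le_sin_of_le_of_le_pi_div_two (by linarith [al_pos, Real.pi_pos]) h h1
  · rw [← Real.sin_pi_sub s]
    exact Real.sin_le_sin_of_le_of_le_pi_div_two (by linarith [al_pos, Real.pi_pos])
      (by linarith) (by linarith)

theorem int_pr (v : ℝ × ℝ) (s t : ℝ) : ∫ θ in s..t, pr v θ = en v t - en v s :=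
  intervalIntegral.integral_eq_sub_of_hasDerivAt (fun θ _ => hasDerivAt_en v θ)
    ((continuous_pr v).intervalIntegrable _ _)

theorem abs_int_le (v : ℝ × ℝ) {s t : ℝ} (h : s ≤ t) :
    |en v t - en v s| ≤ ∫ θ in s..t, |pr v θ| := by
  rw [← int_pr]
  exact intervalIntegral.abs_integral_le_integral_abs h

theorem window (v : ℝ × ℝ) (φ : ℝ) :
    0.1508 * nm v ≤ ∫ θ in (φ + al)..(φ + (π - al)), |pr v θ| := by
  have hc : Continuous (fun θ => |pr v θ|) := (continuous_pr v).abs
  have hal := al_le
  have h1 := abs_int_le v (s := φ + al) (t := φ + (π - al)) (by linarith)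
  have h2 := abs_int_le v (s := φ + al) (t := φ + π / 2) (by linarith)
  have h3 := abs_int_le v (s := φ + π / 2) (t := φ + (π - al)) (by linarith)
  have hadd := intervalIntegral.integral_add_adjacent_intervals
    (hc.intervalIntegrable (μ := volume) (φ + al) (φ + π / 2))
    (hc.intervalIntegrable (μ := volume) (φ + π / 2) (φ + (π - al)))
  set A := ∫ θ in (φ + al)..(φ + (π - al)), |pr v θ| with hA
  rw [en_add_angle, en_add_angle, Real.cos_pi_sub, Real.sin_pi_sub, sin_al, cos_al] at h1
  rw [en_add_angle, en_add_angle, Real.cos_pi_div_two, Real.sin_pi_div_two, sin_al, cos_al] at h2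
  rw [en_add_angle, en_add_angle, Real.cos_pi_sub, Real.sin_pi_sub, Real.cos_pi_div_two,
    Real.sin_pi_div_two, sin_al, cos_al] at h3
  have hn := pr_sq_add_en_sq v φ
  set x := en v φ
  set y := pr v φ
  have hx : |x| ≤ 13 / 10 * A := by
    have e : x * -(5 / 13) + y * (12 / 13) - (x * (5 / 13) + y * (12 / 13)) = -(10 / 13) * x := by ring
    rw [e, abs_mul, abs_of_nonpos (show (-(10 / 13) : ℝ) ≤ 0 by norm_num)] at h1
    linarith
  have hy : |y| ≤ 13 / 2 * A := by
    have h4 := abs_sub (x * 0 + y * 1 - (x * (5 / 13) + y * (12 / 13)))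
      (x * -(5 / 13) + y * (12 / 13) - (x * 0 + y * 1))
    have e : x * 0 + y * 1 - (x * (5 / 13) + y * (12 / 13)) -
      (x * -(5 / 13) + y * (12 / 13) - (x * 0 + y * 1)) = (2 / 13) * y := by ring
    rw [e, abs_mul, abs_of_pos (show ((2 / 13) : ℝ) > 0 by norm_num)] at h4
    linarith
  have hA0 : 0 ≤ A := by
    have := abs_nonneg x
    linarith
  have hx2 : x ^ 2 ≤ (13 / 10 * A) ^ 2 := by
    rw [← sq_abs x]; exact pow_le_pow_left₀ (abs_nonneg _) hx 2
  have hy2 : y ^ 2 ≤ (13 / 2 * A) ^ 2 := by
    rw [← sq_abs y]; exact pow_le_pow_left₀ (abs_nonneg _) hy 2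
  have : (0.1508 * nm v) ^ 2 ≤ A ^ 2 := by
    rw [mul_pow, ← hn]
    nlinarith [sq_nonneg A]
  exact (pow_le_pow_iff_left₀ (mul_nonneg (by norm_num) (nm_nonneg v)) hA0 (by norm_num)).1 this

/-- The set of the directions in which a point of angle `φ` is far from the line. -/
def Sw (φ : ℝ) : Set ℝ := {θ | 12 / 13 ≤ |Real.sin (θ - φ)|}

theorem measurable_Sw (φ : ℝ) : MeasurableSet (Sw φ) := by
  apply IsClosed.measurableSet
  exact isClosed_le continuous_const (by fun_prop)

theorem Sw_add_pi (φ θ : ℝ) : θ + π ∈ Sw φ ↔ θ ∈ Sw φ := by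
  simp only [Sw, mem_setOf_eq]
  rw [show θ + π - φ = (θ - φ) + π by ring, Real.sin_add_pi, abs_neg]

theorem window2 (v : ℝ × ℝ) (φ : ℝ) :
    0.1508 * nm v ≤ ∫ θ in (0 : ℝ)..π, (Sw φ).indicator (fun θ => |pr v θ|) θ := by
  have hc : Continuous (fun θ => |pr v θ|) := (continuous_pr v).abs
  have hper : Function.Periodic ((Sw φ).indicator (fun θ => |pr v θ|)) π := by
    intro θ
    by_cases h : θ ∈ Sw φ
    · rw [indicator_of_mem h, indicator_of_mem ((Sw_add_pi φ θ).2 h), pr_add_pi, abs_neg]
    · rw [indicator_of_notMem h, indicator_of_notMem (fun h2 => h ((Sw_add_pi φ θ).1 h2))]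
  have h1 := hper.intervalIntegral_add_eq 0 φ
  rw [zero_add] at h1
  rw [h1]
  have hal := al_le
  have hal0 := al_pos
  have hpi := Real.pi_pos
  have hint : IntervalIntegrable ((Sw φ).indicator (fun θ => |pr v θ|)) volume φ (φ + π) := by
    rw [intervalIntegrable_iff_integrableOn_Ioc_of_le (by linarith)]
    have : IntegrableOn (fun θ => |pr v θ|) (Ioc φ (φ + π)) volume := by
      rw [← intervalIntegrable_iff_integrableOn_Ioc_of_le (by linarith)]
      exact hc.intervalIntegrable _ _
    exact Integrable.indicator this (measurable_Sw φ)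
  refine le_trans ?_ (intervalIntegral.integral_mono_interval (a := φ + al) (b := φ + (π - al))
    (by linarith) (by linarith) (by linarith) ?_ hint)
  · refine le_trans (window v φ) (le_of_eq ?_)
    apply intervalIntegral.integral_congr
    intro θ hθ
    rw [uIcc_of_le (by linarith)] at hθ
    have : θ ∈ Sw φ := by
      have h := sin_win (s := θ - φ) (by linarith [hθ.1]) (by linarith [hθ.2])
      exact le_trans h (le_abs_self _)
    simp only [indicator_of_mem this]
  · exact Filter.Eventually.of_forall (fun θ => indicator_nonneg (fun _ _ => abs_nonneg _) θ)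

end FarAux

open FarAux in
theorem pFar : S_One → S_Int → S_Far := by
  intro hOne hInt ι _ a b hcov
  classical
  have hpi := Real.pi_pos
  set B := Bs a b 1.084 with hB
  choose φ hφ using fun i => exists_polar (a i)
  -- the pieces out of B
  have hlen : len a b Finset.univ - len a b B = ∑ i ∈ Finset.univ \ B, nm (b i - a i) := by
    have := Finset.sum_sdiff (f := fun i => nm (b i - a i)) (Finset.subset_univ B)
    simp only [len]
    linarith
  have hfar : ∀ i ∈ Finset.univ \ B, 1.0839 ≤ nm (a i) := by
    intro i hi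
    have hi' : ¬ (nm (a i) ≤ 1.084 ∧ nm (b i) ≤ 1.084) := by
      intro h
      rw [Finset.mem_sdiff] at hi
      apply hi.2
      rw [hB, Bs]
      simp only [Finset.mem_filter, Finset.mem_univ, true_and]
      exact h
    have hs := hcov.small i
    have ht := nm_add_le (a i) (b i - a i)
    rw [add_sub_cancel] at ht
    by_contra hlt
    push Not at hlt
    apply hi'
    constructor
    · linarith
    · norm_num at hs ⊢
      linarith
  -- one direction
  have hdir : ∀ θ, ∑ i ∈ Finset.univ \ B, (Sw (φ i)).indicator (fun θ => |pr (b i - a i) θ|) θ ≤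
      Wf a b (1 / 10000) θ := by
    intro θ
    have h := (hOne ι (lo a b θ) (hi a b θ) (1 / 10000) (lo_le_hi a b θ) hcov.eps_nonneg
      (hcov.cov θ)).2 ((Finset.univ \ B).filter (fun i => θ ∈ Sw (φ i))) ?_
    · simp only [hi_sub_lo] at h
      rw [Wf, Mf]
      refine le_trans (le_of_eq ?_) h
      rw [Finset.sum_filter]
      apply Finset.sum_congr rfl
      intro i _
      simp only [indicator, wd]
    · intro i him p hp
      rw [Finset.mem_filter] at him
      have h1 := hfar i him.1
      have h2 : 12 / 13 ≤ |Real.sin (θ - φ i)| := him.2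
      have h3 : |pr (a i) θ| = nm (a i) * |Real.sin (θ - φ i)| := by
        rw [(hφ i θ).1, abs_neg, abs_mul, abs_of_nonneg (nm_nonneg _)]
      have h4 : 1.0839 * (12 / 13) ≤ |pr (a i) θ| := by
        rw [h3]
        exact mul_le_mul h1 h2 (by norm_num) (nm_nonneg _)
      have h5 : |p - pr (a i) θ| ≤ 1 / 10000 := by
        have h6 : |pr (b i) θ - pr (a i) θ| ≤ 1 / 10000 := by
          rw [← pr_sub]; exact le_trans (abs_pr_le _ _) (hcov.small i)
        have hp1 := hp.1
        have hp2 := hp.2
        simp only [lo, hi] at hp1 hp2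
        rw [abs_le] at h6 ⊢
        rcases le_total (pr (a i) θ) (pr (b i) θ) with hc | hc
        · rw [min_eq_left hc] at hp1
          rw [max_eq_right hc] at hp2
          constructor <;> linarith [h6.1, h6.2]
        · rw [min_eq_right hc] at hp1
          rw [max_eq_left hc] at hp2
          constructor <;> linarith [h6.1, h6.2]
      have h7 := abs_sub_abs_le_abs_sub (pr (a i) θ) p
      rw [abs_sub_comm] at h7
      norm_num at h4 h5 ⊢
      linarith
  have hint : ∀ i, IntervalIntegrable ((Sw (φ i)).indicator (fun θ => |pr (b i - a i) θ|))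
      volume 0 π := by
    intro i
    rw [intervalIntegrable_iff_integrableOn_Ioc_of_le hpi.le]
    have : IntegrableOn (fun θ => |pr (b i - a i) θ|) (Ioc 0 π) volume := by
      rw [← intervalIntegrable_iff_integrableOn_Ioc_of_le hpi.le]
      exact (continuous_pr _).abs.intervalIntegrable _ _
    exact Integrable.indicator this (measurable_Sw _)
  have hWc : Continuous (Wf a b (1 / 10000)) := by
    have : ∀ i, Continuous (fun θ => wd a b θ i) := fun i => (continuous_pr _).abs
    unfold Wf Mf
    fun_prop
  have hI := hInt.2 ι a b (1 / 10000) 0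
  rw [zero_add] at hI
  rw [← hI, hlen, Finset.mul_sum]
  calc ∑ i ∈ Finset.univ \ B, 0.1508 * nm (b i - a i)
      ≤ ∑ i ∈ Finset.univ \ B, ∫ θ in (0 : ℝ)..π,
          (Sw (φ i)).indicator (fun θ => |pr (b i - a i) θ|) θ :=
        Finset.sum_le_sum (fun i _ => window2 _ _)
    _ = ∫ θ in (0 : ℝ)..π, ∑ i ∈ Finset.univ \ B,
          (Sw (φ i)).indicator (fun θ => |pr (b i - a i) θ|) θ := by
        rw [intervalIntegral.integral_finsetSum]
        intro i _
        exact hint i
    _ ≤ ∫ θ in (0 : ℝ)..π, Wf a b (1 / 10000) θ := by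
        apply intervalIntegral.integral_mono_on hpi.le
        · have := IntervalIntegrable.sum (Finset.univ \ B) (fun i _ => hint i)
          refine this.congr ?_
          intro θ _
          simp only [Finset.sum_apply]
        · exact hWc.intervalIntegrable _ _
        · intro θ _
          exact hdir θ

end

end Pool.Agent.OD
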