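import Pool.Agent.Lib.OD.Spec

/-!
# `S_Fin`: Theorem F
-/

set_option autoImplicit false

namespace Pool.Agent.OD

open MeasureTheory Set Real

noncomputable section

namespace FinAux

/-- The numerical contradiction. -/
theorem numerics (P L m I S T D : ℝ) (hP1 : 3.1415 < P) (hP2 : P < 3.1416)
    (hI : I = 2 * L - 2 * P + P * (1 / 10000)) (hI0 : 0 ≤ I) (hL : L < P + 1 / 250)
    (hm : 0 ≤ m) (hfar : 0.1508 * m ≤ I)
    (hD : (L - m) * (4 / 3 - 1 / 10000 - 2 * (1 / 10000) * L - m / 2) - (1 / 2) * S ≤ D)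
    (hS : S ≤ L * (2 + L - P + 0.6 * (1 / 10000)))
    (hDT : D ≤ 2.168 * T)
    (hT : T - 13 * (1 / 10000) * L ^ 2 ≤ 2 * 1.084 * (P * (L + 2 * 1.084) + L) * I) : False := by
  have hI1 : I ≤ 0.00832 := by rw [hI]; norm_num; linarith
  have hL1 : 3.1413 ≤ L := by linarith
  have hL2 : L ≤ 3.1456 := by linarith
  have hm1 : m ≤ 0.0552 := by linarith
  have h1 : 2 * 1.084 * (P * (L + 2 * 1.084) + L) * I ≤ 2 * 1.084 * (3.1416 * (3.1456 + 2 * 1.084) + 3.1456) * 0.00832 := by
    have a1 : P * (L + 2 * 1.084) ≤ 3.1416 * (3.1456 + 2 * 1.084) :=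
      mul_le_mul hP2.le (by linarith) (by linarith) (by norm_num)
    apply mul_le_mul _ hI1 hI0 (by norm_num)
    apply mul_le_mul_of_nonneg_left _ (by norm_num)
    linarith
  have h2 : L ^ 2 ≤ 3.1456 ^ 2 := pow_le_pow_left₀ (by linarith) hL2 2
  have h3 : 3.0861 * 1.305 ≤ (L - m) * (4 / 3 - 1 / 10000 - 2 * (1 / 10000) * L - m / 2) := by
    apply mul_le_mul _ _ (by norm_num) (by linarith)
    · linarith
    · linarith
  have h4 : L * (2 + L - P + 0.6 * (1 / 10000)) ≤ 3.1456 * 2.00406 := by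
    apply mul_le_mul hL2 (by linarith) (by linarith) (by norm_num)
  norm_num at h1 h2 h3 h4 hD hS hDT hT
  linarith

end FinAux

open FinAux in
theorem pFin : S_AvA → S_AvB → S_LA → S_LB → S_Far → S_One → S_Int → S_Fin := by
  intro hAvA hAvB hLA hLB hFar hOne hInt ι _ a b hcov
  classical
  by_contra hlt
  push Not at hlt
  have hpi := Real.pi_pos
  have hη : (0 : ℝ) < 1 / 10000 := by norm_num
  set B := Bs a b 1.084 with hB
  have hA := hAvA ι a b (1 / 10000) (1 / 10000) 1.084 hcov (by norm_num)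
  have hA' := hAvB ι a b (1 / 10000) 1.084 hη
  have hL1 := (hLA ι a b (1 / 10000) (1 / 10000) 1.084 hcov).1
  have hL2 := (hLA ι a b (1 / 10000) (1 / 10000) 1.084 hcov).2
  have hS := hLB ι a b (1 / 10000) (1 / 10000) hcov
  have hF := hFar ι a b hcov
  rw [← hB] at hA hA' hL1 hF
  -- IW is nonnegative
  have hW : ∀ θ, 0 ≤ Wf a b (1 / 10000) θ := by
    intro θ
    have h := (hOne ι (lo a b θ) (hi a b θ) (1 / 10000) (lo_le_hi a b θ) hcov.eps_nonneg
      (hcov.cov θ)).2 ∅ (by simp)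
    simp only [hi_sub_lo, Finset.sum_empty] at h
    rw [Wf, Mf]
    exact h
  have hI0 : 0 ≤ IW a b (1 / 10000) := by
    have hI := hInt.2 ι a b (1 / 10000) 0
    rw [zero_add] at hI
    rw [← hI]
    exact intervalIntegral.integral_nonneg hpi.le (fun θ _ => hW θ)
  -- B
  have hmem : ∀ i ∈ B, nm (a i) ≤ 1.084 := by
    intro i hi
    rw [hB, Bs] at hi
    simp only [Finset.mem_filter, Finset.mem_univ, true_and] at hi
    exact hi.1
  have hlenB : len a b B ≤ len a b Finset.univ :=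
    Finset.sum_le_sum_of_subset_of_nonneg (Finset.subset_univ B) (fun i _ _ => nm_nonneg _)
  -- the sum of the determinants
  have hSB : ∑ i ∈ B, ∑ j, |dt (b i - a i) (b j - a j)| ≤
      ∑ i, ∑ j, |dt (b i - a i) (b j - a j)| :=
    Finset.sum_le_sum_of_subset_of_nonneg (Finset.subset_univ B)
      (fun i _ _ => Finset.sum_nonneg (fun j _ => abs_nonneg _))
  -- D ≤ 2 R T
  have hDT : ∑ i ∈ B, ∑ j ∈ B, Dd a b i j * Dd a b j i ≤
      2.168 * ∑ i ∈ B, ∑ j ∈ B, Dd a b i j * Dd a b j i / nm (a j - a i) := by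
    rw [Finset.mul_sum]
    apply Finset.sum_le_sum
    intro i hi
    rw [Finset.mul_sum]
    apply Finset.sum_le_sum
    intro j hj
    have hr : nm (a j - a i) ≤ 2.168 := by
      have := nm_sub_le (a j) (a i)
      have h1 := hmem i hi
      have h2 := hmem j hj
      norm_num at this h1 h2 ⊢
      linarith
    have hD0 : 0 ≤ Dd a b i j * Dd a b j i := mul_nonneg (abs_nonneg _) (abs_nonneg _)
    rcases (nm_nonneg (a j - a i)).eq_or_lt with h0 | h0
    · have h1 := nm_sq (a j - a i)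
      rw [← h0] at h1
      have h2 : (a j - a i).1 = 0 := by nlinarith [sq_nonneg (a j - a i).1, sq_nonneg (a j - a i).2]
      have h3 : (a j - a i).2 = 0 := by nlinarith [sq_nonneg (a j - a i).1, sq_nonneg (a j - a i).2]
      have h4 : Dd a b i j = 0 := by
        rw [Dd, dt, h2, h3]; simp
      rw [h4]; simp
    · rw [← mul_div_assoc, le_div_iff₀ h0]
      nlinarith
  exact numerics π (len a b Finset.univ) (len a b Finset.univ - len a b B) (IW a b (1 / 10000))
    (∑ i ∈ B, ∑ j, |dt (b i - a i) (b j - a j)|)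
    (∑ i ∈ B, ∑ j ∈ B, Dd a b i j * Dd a b j i / nm (a j - a i))
    (∑ i ∈ B, ∑ j ∈ B, Dd a b i j * Dd a b j i)
    (by have := Real.pi_gt_d4; norm_num at this ⊢; linarith)
    (by have := Real.pi_lt_d4; norm_num at this ⊢; linarith)
    (by rw [IW]) hI0 hlt (by linarith) hF
    (by
      have e : len a b Finset.univ - (len a b Finset.univ - len a b B) = len a b B := by ring
      rw [e]
      exact hL1)
    (le_trans hSB hS) hDT (le_trans hA' hA)

end

end Pool.Agent.OD
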