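import Pool.Agent.Lib.OD.Cr

set_option autoImplicit false

namespace Pool.Agent.OD

open MeasureTheory Set Real

namespace HAAux

theorem mem_XH {ι : Type} [Fintype ι] (a b : ι → ℝ × ℝ) (R θ₀ t : ℝ) (i : ι) :
    i ∈ XH a b R θ₀ t ↔ (nm (a i) ≤ R ∧ nm (b i) ≤ R) ∧ pr (a i) θ₀ ≤ t := by
  classical
  unfold XH Bs
  simp only [Finset.mem_filter, Finset.mem_univ, true_and]

theorem mem_YH {ι : Type} [Fintype ι] (a b : ι → ℝ × ℝ) (R η θ₀ t : ℝ) (i : ι) :
    i ∈ YH a b R η θ₀ t ↔ (nm (a i) ≤ R ∧ nm (b i) ≤ R) ∧ t + 4 * η ≤ pr (a i) θ₀ := by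
  classical
  unfold YH Bs
  simp only [Finset.mem_filter, Finset.mem_univ, true_and]

theorem us_nonneg {ι : Type} (a b : ι → ℝ × ℝ) (X : Finset ι) (z : ℝ × ℝ) (θ : ℝ) :
    0 ≤ us a b X z θ := by
  unfold us
  exact Set.indicator_nonneg (fun _ _ => zero_le_one) _

theorem us_le_one {ι : Type} (a b : ι → ℝ × ℝ) (X : Finset ι) (z : ℝ × ℝ) (θ : ℝ) :
    us a b X z θ ≤ 1 := by
  classical
  unfold us; rw [Set.indicator_apply]; split_ifs <;> norm_num

theorem nm_conv {x y : ℝ × ℝ} {R τ : ℝ} (hx : nm x ≤ R) (hy : nm y ≤ R) (h0 : 0 ≤ τ)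
    (h1 : τ ≤ 1) : nm (x + τ • (y - x)) ≤ R := by
  have e : x + τ • (y - x) = (1 - τ) • x + τ • y := by module
  rw [e]
  refine (nm_add_le _ _).trans ?_
  rw [nm_smul, nm_smul, abs_of_nonneg h0, abs_of_nonneg (by linarith : (0 : ℝ) ≤ 1 - τ)]
  nlinarith

theorem continuous_Wf {ι : Type} [Fintype ι] (a b : ι → ℝ × ℝ) (ε : ℝ) :
    Continuous (Wf a b ε) := by
  unfold Wf Mf
  exact (continuous_finsetSum _ fun i _ => (lipschitz_wd a b i).continuous).sub
    continuous_const |>.add continuous_const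

theorem Fo_le {ι : Type} [Fintype ι] (hOne : S_One) {a b : ι → ℝ × ℝ} {η ε : ℝ}
    (hC : Cov a b η ε) (X : Finset ι) (θ : ℝ) : Fo X (lo a b θ) (hi a b θ) ≤ Wf a b ε θ := by
  have h := (hOne ι (lo a b θ) (hi a b θ) ε (lo_le_hi a b θ) hC.eps_nonneg (hC.cov θ)).1 X
  unfold Wf Mf
  simp only [hi_sub_lo] at h
  exact h

theorem len_nonneg {ι : Type} (a b : ι → ℝ × ℝ) (X : Finset ι) : 0 ≤ len a b X :=
  Finset.sum_nonneg fun _ _ => nm_nonneg _

theorem int_wd_us {ι : Type} (hLip : S_Lip) (a b : ι → ℝ × ℝ) (X : Finset ι) (j : ι)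
    (τ s t : ℝ) : IntervalIntegrable
      (fun θ => wd a b θ j * us a b X (a j + τ • (b j - a j)) θ) volume s t := by
  have hm : Measurable (fun θ : ℝ => us a b X (a j + τ • (b j - a j)) θ) := by
    have h1 : Measurable (fun θ : ℝ => ((θ, τ) : ℝ × ℝ)) := measurable_id.prodMk measurable_const
    have h2 := ((hLip ι a b X).2.2 (a j) (b j - a j)).comp h1
    simpa only [Function.comp_def] using h2
  refine IntervalIntegrable.continuousOn_mul ?_ (lipschitz_wd a b j).continuous.continuousOn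
  refine (intervalIntegrable_const (c := (1 : ℝ))).mono_fun hm.aestronglyMeasurable
    (Filter.Eventually.of_forall fun θ => ?_)
  simp only [Real.norm_eq_abs, abs_one]
  rw [abs_of_nonneg (us_nonneg _ _ _ _ _)]
  exact us_le_one _ _ _ _ _

end HAAux

open CrAux HAAux in
theorem pHA : S_TB → S_Cr → S_QA → S_One → S_Lip → S_Int → S_HA := by
  intro hTB hCr hQA hOne hLip hInt ι _ a b η ε R θ₀ t τ hC hτ0 hτ1
  set X := XH a b R θ₀ t with hX
  set Y := YH a b R η θ₀ t with hY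
  set z : ι → ℝ × ℝ := fun j => a j + τ • (b j - a j) with hz
  have hpi : θ₀ ≤ θ₀ + π := by linarith [Real.pi_pos]
  have hqt : ∀ w θ, 0 ≤ qt a b X w θ ∧ qt a b X w θ ≤ Wf a b ε θ := by
    intro w θ
    have h := (hQA ι X (lo a b θ) (hi a b θ) (lo_le_hi a b θ)).2 (pr w θ)
    exact ⟨h.1, h.2.trans (Fo_le hOne hC X θ)⟩
  have hW0 : ∀ θ, 0 ≤ Wf a b ε θ := fun θ => (hqt 0 θ).1.trans (hqt 0 θ).2
  have hqtc : ∀ w, Continuous (qt a b X w) := fun w => by
    obtain ⟨K, hK⟩ := (hLip ι a b X).1 w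
    exact hK.continuous
  have hqtI : ∀ w, ∫ θ in θ₀..(θ₀ + π), qt a b X w θ ≤ IW a b ε := fun w => by
    rw [← hInt.2 ι a b ε θ₀]
    exact intervalIntegral.integral_mono_on hpi ((hqtc w).intervalIntegrable _ _)
      ((continuous_Wf a b ε).intervalIntegrable _ _) fun θ _ => (hqt w θ).2
  have hIW0 : 0 ≤ IW a b ε := by
    rw [← hInt.2 ι a b ε θ₀]
    exact intervalIntegral.integral_nonneg hpi fun θ _ => hW0 θ
  -- one `j`
  have hone : ∀ j ∈ Y, ∑ i ∈ X, lam a b η i j * lam a b η j i ≤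
      (len a b X + 2 * R) * (∫ θ in θ₀..(θ₀ + π), wd a b θ j * us a b X (z j) θ) +
        nm (b j - a j) * IW a b ε + nm (b j - a j) * Wf a b ε θ₀ := by
    intro j hj
    have hj' := (mem_YH a b R η θ₀ t j).1 hj
    have h1 := hTB ι a b X (z j) R θ₀ (fun θ => wd a b θ j) (nm (b j - a j)).toNNReal
      (fun i hi => ((mem_XH a b R θ₀ t i).1 hi).1) (nm_conv hj'.1.1 hj'.1.2 hτ0 hτ1)
      (lipschitz_wd a b j) (fun θ => wd_nonneg a b θ j)
    rw [Real.coe_toNNReal _ (nm_nonneg _)] at h1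
    have h2 : ∑ i ∈ X, lam a b η i j * lam a b η j i ≤
        ∫ θ in θ₀..(θ₀ + π), wd a b θ j * ∑ i ∈ X, rho a b (z j) θ i := by
      have e1 : (∫ θ in θ₀..(θ₀ + π), wd a b θ j * ∑ i ∈ X, rho a b (z j) θ i) =
          ∑ i ∈ X, ∫ θ in θ₀..(θ₀ + π), wd a b θ j * rho a b (z j) θ i := by
        rw [← intervalIntegral.integral_finsetSum fun i _ => int_wd_rho a b (z j) i j _ _]
        simp only [Finset.mul_sum]
      rw [e1]
      refine Finset.sum_le_sum fun i hi => ?_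
      have hi' := (mem_XH a b R θ₀ t i).1 hi
      exact hCr ι a b i j η θ₀ t τ hC.eta_pos (hC.small i) (hC.small j) hi'.2 hj'.2 hτ0 hτ1
    have h3 : nm (b j - a j) * (∫ θ in θ₀..(θ₀ + π), qt a b X (z j) θ) ≤
        nm (b j - a j) * IW a b ε := mul_le_mul_of_nonneg_left (hqtI _) (nm_nonneg _)
    have h4 : wd a b θ₀ j * qt a b X (z j) θ₀ ≤ nm (b j - a j) * Wf a b ε θ₀ :=
      mul_le_mul (wd_le a b θ₀ j) (hqt _ _).2 (hqt _ _).1 (nm_nonneg _)
    linarith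
  have hsum : ∑ i ∈ X, ∑ j ∈ Y, lam a b η i j * lam a b η j i ≤
      ∑ j ∈ Y, ((len a b X + 2 * R) * (∫ θ in θ₀..(θ₀ + π), wd a b θ j * us a b X (z j) θ) +
        nm (b j - a j) * IW a b ε + nm (b j - a j) * Wf a b ε θ₀) := by
    rw [Finset.sum_comm]
    exact Finset.sum_le_sum hone
  have e1 : (∫ θ in θ₀..(θ₀ + π), ∑ j ∈ Y, wd a b θ j * us a b X (z j) θ) =
      ∑ j ∈ Y, ∫ θ in θ₀..(θ₀ + π), wd a b θ j * us a b X (z j) θ :=
    intervalIntegral.integral_finsetSum fun j _ => int_wd_us hLip a b X j τ _ _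
  have e2 : ∑ j ∈ Y, ((len a b X + 2 * R) *
      (∫ θ in θ₀..(θ₀ + π), wd a b θ j * us a b X (z j) θ) +
        nm (b j - a j) * IW a b ε + nm (b j - a j) * Wf a b ε θ₀) =
      (len a b X + 2 * R) * (∫ θ in θ₀..(θ₀ + π), ∑ j ∈ Y, wd a b θ j * us a b X (z j) θ) +
        len a b Y * IW a b ε + len a b Y * Wf a b ε θ₀ := by
    rw [e1, Finset.sum_add_distrib, Finset.sum_add_distrib, ← Finset.mul_sum, ← Finset.sum_mul,
      ← Finset.sum_mul]
    rfl
  have e3 : len a b Y * Wf a b ε θ₀ ≤ len a b Finset.univ * Wf a b ε θ₀ :=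
    mul_le_mul_of_nonneg_right
      (Finset.sum_le_sum_of_subset_of_nonneg (Finset.subset_univ _) fun _ _ _ => nm_nonneg _)
      (hW0 θ₀)
  rw [e2] at hsum
  linarith

end Pool.Agent.OD
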