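import Pool.Agent.Lib.OD.HA

set_option autoImplicit false

namespace Pool.Agent.OD

open MeasureTheory Set Real

namespace HBAux

/-- Fubini: average an inequality that depends on `τ`. -/
theorem fub (g : ℝ × ℝ → ℝ) (hg : Measurable g) (C : ℝ) (hC : ∀ x, |g x| ≤ C) {α β : ℝ}
    (hαβ : α ≤ β) (W : ℝ → ℝ) (hW : Continuous W) (L c1 c2 : ℝ) (hc1 : 0 ≤ c1)
    (h1 : ∀ τ ∈ Icc (0 : ℝ) 1, L ≤ c1 * (∫ θ in α..β, g (θ, τ)) + c2)
    (h2 : ∀ θ, ∫ τ in (0 : ℝ)..1, g (θ, τ) ≤ W θ) :
    L ≤ c1 * (∫ θ in α..β, W θ) + c2 := by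
  have hi : Integrable g ((volume.restrict (Ioc α β)).prod (volume.restrict (Ioc (0 : ℝ) 1))) :=
    Integrable.of_bound hg.aestronglyMeasurable C (Filter.Eventually.of_forall fun x => by
      rw [Real.norm_eq_abs]; exact hC x)
  have hi' : Integrable (Function.uncurry fun θ τ => g (θ, τ))
      ((volume.restrict (Ioc α β)).prod (volume.restrict (Ioc (0 : ℝ) 1))) := hi
  have hG : IntervalIntegrable (fun τ => ∫ θ in α..β, g (θ, τ)) volume 0 1 := by
    rw [intervalIntegrable_iff_integrableOn_Ioc_of_le zero_le_one]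
    have h := hi.integral_prod_right
    simp only [intervalIntegral.integral_of_le hαβ]
    exact h
  have hH : IntervalIntegrable (fun θ => ∫ τ in (0 : ℝ)..1, g (θ, τ)) volume α β := by
    rw [intervalIntegrable_iff_integrableOn_Ioc_of_le hαβ]
    have h := hi.integral_prod_left
    simp only [intervalIntegral.integral_of_le zero_le_one]
    exact h
  have hsw : (∫ τ in (0 : ℝ)..1, ∫ θ in α..β, g (θ, τ)) =
      ∫ θ in α..β, ∫ τ in (0 : ℝ)..1, g (θ, τ) := by
    simp only [intervalIntegral.integral_of_le zero_le_one, intervalIntegral.integral_of_le hαβ]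
    exact (integral_integral_swap hi').symm
  have e1 : (∫ τ in (0 : ℝ)..1, ∫ θ in α..β, g (θ, τ)) ≤ ∫ θ in α..β, W θ := by
    rw [hsw]
    exact intervalIntegral.integral_mono_on hαβ hH (hW.intervalIntegrable _ _) fun θ _ => h2 θ
  have e2 : (∫ _τ in (0 : ℝ)..1, L) ≤ ∫ τ in (0 : ℝ)..1,
      (c1 * (∫ θ in α..β, g (θ, τ)) + c2) :=
    intervalIntegral.integral_mono_on zero_le_one intervalIntegrable_const
      ((hG.const_mul c1).add intervalIntegrable_const) h1
  rw [intervalIntegral.integral_add (hG.const_mul c1) intervalIntegrable_const,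
    intervalIntegral.integral_const_mul, intervalIntegral.integral_const,
    intervalIntegral.integral_const, sub_zero, one_smul, one_smul] at e2
  have e3 := mul_le_mul_of_nonneg_left e1 hc1
  linarith

theorem meas_Ub {ι : Type} (hLip : S_Lip) (a b : ι → ℝ × ℝ) (X : Finset ι) (θ : ℝ) :
    MeasurableSet (Ub X (lo a b θ) (hi a b θ)) := by
  have h1 : Measurable (fun τ : ℝ => ((θ, τ) : ℝ × ℝ)) := measurable_const.prodMk measurable_id
  have h2 := ((hLip ι a b X).2.2 0 (-Real.sin θ, Real.cos θ)).comp h1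
  have h3 : (fun τ : ℝ => us a b X (0 + τ • ((-Real.sin θ, Real.cos θ) : ℝ × ℝ)) θ) =
      (Ub X (lo a b θ) (hi a b θ)).indicator (fun _ => (1 : ℝ)) := by
    funext τ
    have e : pr (0 + τ • ((-Real.sin θ, Real.cos θ) : ℝ × ℝ)) θ = τ := by
      rw [zero_add, pr_smul]
      have := Real.sin_sq_add_cos_sq θ
      simp only [pr]
      linear_combination τ * this
    unfold us
    rw [e]
  have h4 : Measurable ((Ub X (lo a b θ) (hi a b θ)).indicator (fun _ => (1 : ℝ))) := by
    rw [← h3]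
    simpa only [Function.comp_def] using h2
  exact (measurable_indicator_const_iff (1 : ℝ)).1 h4

theorem int_us {ι : Type} (hLip : S_Lip) (a b : ι → ℝ × ℝ) (X : Finset ι) (j : ι) (θ : ℝ) :
    wd a b θ j * (∫ τ in (0 : ℝ)..1, us a b X (a j + τ • (b j - a j)) θ) ≤
      (volume (Ub X (lo a b θ) (hi a b θ) ∩ Icc (lo a b θ j) (hi a b θ j))).toReal := by
  set U := Ub X (lo a b θ) (hi a b θ) with hU
  have hUm : MeasurableSet U := meas_Ub hLip a b X θ
  set F : ℝ → ℝ := U.indicator (fun _ => (1 : ℝ)) with hF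
  have hus : ∀ τ : ℝ, us a b X (a j + τ • (b j - a j)) θ =
      F (pr (a j) θ + pr (b j - a j) θ * τ) := fun τ => by
    unfold us
    rw [pr_add, pr_smul, mul_comm τ]
  have hsub := intervalIntegral.smul_integral_comp_add_mul F (pr (b j - a j) θ) (pr (a j) θ)
    (a := 0) (b := 1)
  rw [smul_eq_mul, mul_zero, add_zero, mul_one] at hsub
  have hend : pr (a j) θ + pr (b j - a j) θ = pr (b j) θ := by rw [pr_sub]; ring
  rw [hend] at hsub
  have hlh : lo a b θ j ≤ hi a b θ j := lo_le_hi a b θ j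
  have key : wd a b θ j * (∫ τ in (0 : ℝ)..1, us a b X (a j + τ • (b j - a j)) θ) =
      ∫ x in (lo a b θ j)..(hi a b θ j), F x := by
    simp only [hus]
    unfold wd lo hi
    rcases le_total (pr (a j) θ) (pr (b j) θ) with h | h
    · rw [min_eq_left h, max_eq_right h, ← hsub, abs_of_nonneg]
      rw [pr_sub]; linarith
    · rw [min_eq_right h, max_eq_left h,
        intervalIntegral.integral_symm (pr (a j) θ) (pr (b j) θ), ← hsub, abs_of_nonpos]
      · ring
      · rw [pr_sub]; linarith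
  rw [key, intervalIntegral.integral_of_le hlh, hF, setIntegral_indicator hUm,
    setIntegral_const, smul_eq_mul, mul_one, measureReal_def]
  refine ENNReal.toReal_mono ?_ (measure_mono ?_)
  · exact ((measure_mono inter_subset_right).trans_lt measure_Icc_lt_top).ne
  · rintro x ⟨hx1, hx2⟩
    exact ⟨hx2, Ioc_subset_Icc_self hx1⟩

end HBAux

open HAAux HBAux in
theorem pHB : S_HA → S_QC → S_One → S_Lip → S_Int → S_HB := by
  intro hHA hQC hOne hLip hInt ι _ a b η ε R θ₀ t hC hR
  classical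
  set X := XH a b R θ₀ t with hX
  set Y := YH a b R η θ₀ t with hY
  have hpi : θ₀ ≤ θ₀ + π := by linarith [Real.pi_pos]
  have hdisj : Disjoint X Y := by
    rw [Finset.disjoint_left]
    intro i hi hi'
    have h1 := ((mem_XH a b R θ₀ t i).1 hi).2
    have h2 := ((mem_YH a b R η θ₀ t i).1 hi').2
    have := hC.eta_pos
    linarith
  have hlen : len a b X + len a b Y ≤ len a b Finset.univ := by
    unfold len
    rw [← Finset.sum_union hdisj]
    exact Finset.sum_le_sum_of_subset_of_nonneg (Finset.subset_univ _) fun _ _ _ => nm_nonneg _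
  have hFo0 : ∀ θ, 0 ≤ Fo X (lo a b θ) (hi a b θ) := fun θ => by
    unfold Fo
    exact integral_nonneg fun p => le_max_right _ _
  have hW0 : ∀ θ, 0 ≤ Wf a b ε θ := fun θ => (hFo0 θ).trans (Fo_le hOne hC X θ)
  have hIW0 : 0 ≤ IW a b ε := by
    rw [← hInt.2 ι a b ε θ₀]
    exact intervalIntegral.integral_nonneg hpi fun θ _ => hW0 θ
  set g : ℝ × ℝ → ℝ := fun x => ∑ j ∈ Y, wd a b x.1 j *
    us a b X (a j + x.2 • (b j - a j)) x.1 with hg
  have hgm : Measurable g := by
    refine Finset.measurable_sum _ fun j _ => ?_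
    exact ((lipschitz_wd a b j).continuous.measurable.comp measurable_fst).mul
      ((hLip ι a b X).2.2 (a j) (b j - a j))
  have hgC : ∀ x, |g x| ≤ ∑ j ∈ Y, nm (b j - a j) := fun x => by
    refine (Finset.abs_sum_le_sum_abs _ _).trans (Finset.sum_le_sum fun j _ => ?_)
    rw [abs_mul, abs_of_nonneg (wd_nonneg _ _ _ _), abs_of_nonneg (us_nonneg _ _ _ _ _)]
    calc wd a b x.1 j * us a b X (a j + x.2 • (b j - a j)) x.1
        ≤ nm (b j - a j) * 1 := mul_le_mul (wd_le _ _ _ _) (us_le_one _ _ _ _ _)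
          (us_nonneg _ _ _ _ _) (nm_nonneg _)
      _ = nm (b j - a j) := mul_one _
  have h1 : ∀ τ ∈ Icc (0 : ℝ) 1, ∑ i ∈ X, ∑ j ∈ Y, lam a b η i j * lam a b η j i ≤
      (len a b X + 2 * R) * (∫ θ in θ₀..(θ₀ + π), g (θ, τ)) +
        (len a b Y * IW a b ε + len a b Finset.univ * Wf a b ε θ₀) := fun τ hτ => by
    have h := hHA ι a b η ε R θ₀ t τ hC hτ.1 hτ.2
    rw [← add_assoc]
    exact h
  have h2 : ∀ θ, ∫ τ in (0 : ℝ)..1, g (θ, τ) ≤ Wf a b ε θ := fun θ => by
    have e1 : (∫ τ in (0 : ℝ)..1, g (θ, τ)) = ∑ j ∈ Y, wd a b θ j *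
        ∫ τ in (0 : ℝ)..1, us a b X (a j + τ • (b j - a j)) θ := by
      simp only [hg]
      rw [intervalIntegral.integral_finsetSum]
      · simp only [intervalIntegral.integral_const_mul]
      · intro j _
        have hm : Measurable (fun τ : ℝ => us a b X (a j + τ • (b j - a j)) θ) := by
          have c1 : Measurable (fun τ : ℝ => ((θ, τ) : ℝ × ℝ)) :=
            measurable_const.prodMk measurable_id
          have c2 := ((hLip ι a b X).2.2 (a j) (b j - a j)).comp c1
          simpa only [Function.comp_def] using c2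
        refine IntervalIntegrable.const_mul ?_ _
        refine (intervalIntegrable_const (c := (1 : ℝ))).mono_fun hm.aestronglyMeasurable
          (Filter.Eventually.of_forall fun τ => ?_)
        simp only [Real.norm_eq_abs, abs_one]
        rw [abs_of_nonneg (us_nonneg _ _ _ _ _)]
        exact us_le_one _ _ _ _ _
    rw [e1]
    refine (Finset.sum_le_sum fun j _ => int_us hLip a b X j θ).trans ?_
    exact (hQC ι X Y (lo a b θ) (hi a b θ) (lo_le_hi a b θ) hdisj).trans (Fo_le hOne hC _ θ)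
  have h3 := fub g hgm _ hgC hpi (Wf a b ε) (continuous_Wf a b ε) _ _ _
    (add_nonneg (len_nonneg a b X) (by linarith : (0 : ℝ) ≤ 2 * R)) h1 h2
  rw [hInt.2 ι a b ε θ₀] at h3
  have h4 := mul_le_mul_of_nonneg_right hlen hIW0
  linarith

end Pool.Agent.OD
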