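import Pool.Agent.Lib.OD.Spec

set_option autoImplicit false

namespace Pool.Agent.OD

open MeasureTheory Set Real

namespace IntAux

lemma periodic_abs_pr (v : ℝ × ℝ) : Function.Periodic (fun θ => |pr v θ|) π := by
  intro θ
  simp only [pr_add_pi, abs_neg]

lemma int_abs_sin (φ : ℝ) : ∫ θ in (0 : ℝ)..π, |Real.sin (θ - φ)| = 2 := by
  have hper : Function.Periodic (fun θ => |Real.sin θ|) π := by
    intro θ
    simp only [Real.sin_add_pi, abs_neg]
  have h1 : ∫ θ in (0 : ℝ)..π, |Real.sin (θ - φ)| = ∫ θ in (0 - φ)..(π - φ), |Real.sin θ| :=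
    intervalIntegral.integral_comp_sub_right (fun θ => |Real.sin θ|) φ
  have h2 := hper.intervalIntegral_add_eq (0 - φ) 0
  rw [h1, show π - φ = 0 - φ + π by ring, h2, zero_add]
  have h3 : ∫ θ in (0 : ℝ)..π, |Real.sin θ| = ∫ θ in (0 : ℝ)..π, Real.sin θ := by
    apply intervalIntegral.integral_congr
    intro θ hθ
    rw [uIcc_of_le Real.pi_pos.le] at hθ
    exact abs_of_nonneg (Real.sin_nonneg_of_mem_Icc hθ)
  rw [h3, integral_sin, Real.cos_zero, Real.cos_pi]
  norm_num

lemma int_abs_pr (v : ℝ × ℝ) : ∫ θ in (0 : ℝ)..π, |pr v θ| = 2 * nm v := by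
  obtain ⟨φ, hφ⟩ := exists_polar v
  have h1 : ∀ θ, |pr v θ| = nm v * |Real.sin (θ - φ)| := by
    intro θ
    rw [(hφ θ).1, abs_neg, abs_mul, abs_of_nonneg (nm_nonneg v)]
  simp only [h1]
  rw [intervalIntegral.integral_const_mul, int_abs_sin]
  ring

end IntAux

open IntAux

theorem pInt : S_Int := by
  refine ⟨int_abs_pr, ?_⟩
  intro ι _ a b ε θ₀
  have hper : Function.Periodic (Wf a b ε) π := by
    intro θ
    unfold Wf Mf wd
    have h1 : ∀ i, |pr (b i - a i) (θ + π)| = |pr (b i - a i) θ| := fun i =>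
      periodic_abs_pr (b i - a i) θ
    simp only [h1]
  have h2 := hper.intervalIntegral_add_eq θ₀ 0
  rw [h2, zero_add]
  have hc : ∀ i, Continuous fun θ => wd a b θ i := fun i => (continuous_pr (b i - a i)).abs
  have hi : ∀ i ∈ (Finset.univ : Finset ι), IntervalIntegrable (fun θ => wd a b θ i) volume 0 π :=
    fun i _ => (hc i).intervalIntegrable _ _
  have h3 : ∫ θ in (0 : ℝ)..π, Mf a b Finset.univ θ = 2 * len a b Finset.univ := by
    unfold Mf
    rw [intervalIntegral.integral_finsetSum hi]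
    unfold len
    rw [Finset.mul_sum]
    apply Finset.sum_congr rfl
    intro i _
    exact int_abs_pr (b i - a i)
  have hM : Continuous (Mf a b Finset.univ) := by
    unfold Mf
    exact continuous_finsetSum _ fun i _ => hc i
  have h4 : ∫ θ in (0 : ℝ)..π, Wf a b ε θ =
      (∫ θ in (0 : ℝ)..π, Mf a b Finset.univ θ) + ∫ θ in (0 : ℝ)..π, (-2 + ε) := by
    rw [← intervalIntegral.integral_add (hM.intervalIntegrable _ _)
      (continuous_const.intervalIntegrable _ _)]
    apply intervalIntegral.integral_congr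
    intro θ _
    simp only [Wf]
    ring
  rw [h4, h3, intervalIntegral.integral_const, smul_eq_mul]
  unfold IW
  ring

end Pool.Agent.OD
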