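import Pool.Agent.Lib.OD.Spec

/-!
# Opaque sets of the disc: the lower bound from the direction of each piece
-/

set_option autoImplicit false

namespace Pool.Agent.OD

open MeasureTheory Set Real

namespace LAAux

theorem psi_le (u : ℝ) : psi u ≤ 1 / 4 := by
  unfold psi
  nlinarith [sq_nonneg (1 - min u 1)]

/-- The direction of the piece. -/
theorem exists_dir (v : ℝ × ℝ) : ∃ φ : ℝ, ∀ w : ℝ × ℝ, |dt v w| = nm v * |pr w φ| := by
  obtain ⟨φ, h⟩ := exists_polar v
  refine ⟨φ, fun w => ?_⟩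
  obtain ⟨h1, h2⟩ := h φ
  rw [dt_eq v w φ, h1, h2, sub_self, Real.sin_zero, Real.cos_zero, mul_zero, neg_zero, zero_mul,
    sub_zero, mul_one, abs_mul, abs_of_nonneg (nm_nonneg v)]

theorem dt_comm_abs (u v : ℝ × ℝ) : |dt u v| = |dt v u| := by
  rw [← abs_neg (dt v u)]
  congr 1
  simp only [dt]
  ring

theorem key (P Q U V D : ℝ) (hP : 0 ≤ P) (hQ : 0 ≤ Q) (hU : 0 ≤ U) (hV : 0 ≤ V) (hD0 : 0 ≤ D)
    (hD : D ≤ P * Q) : D * (psi U + psi V) ≤ (P * U) * (Q * V) := by
  have h1 : psi U + psi V ≤ min U 1 * min V 1 := by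
    unfold psi
    nlinarith [sq_nonneg (min U 1 + min V 1 - 1)]
  have hU0 : 0 ≤ min U 1 := le_min hU zero_le_one
  have hV0 : 0 ≤ min V 1 := le_min hV zero_le_one
  have h2 : min U 1 * min V 1 ≤ U * V :=
    mul_le_mul (min_le_left _ _) (min_le_left _ _) hV0 hU
  calc D * (psi U + psi V) ≤ D * (min U 1 * min V 1) := by gcongr
    _ ≤ (P * Q) * (U * V) := mul_le_mul hD h2 (mul_nonneg hU0 hV0) (mul_nonneg hP hQ)
    _ = (P * U) * (Q * V) := by ring

end LAAux

open LAAux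

theorem pLA (h1 : S_Psi) (h2 : S_One) : S_LA := by
  classical
  intro ι _ a b η ε R hC
  choose φ hφ using fun i : ι => exists_dir (b i - a i)
  have hwd : ∀ i j, |dt (b i - a i) (b j - a j)| = nm (b i - a i) * wd a b (φ i) j :=
    fun i j => hφ i _
  have hM : ∀ θ, ∑ i, (hi a b θ i - lo a b θ i) = Mf a b Finset.univ θ := fun θ =>
    Finset.sum_congr rfl fun i _ => hi_sub_lo a b θ i
  have hone : ∀ θ, ∀ X : Finset ι, Fo X (lo a b θ) (hi a b θ) ≤ Mf a b Finset.univ θ - 2 + ε := by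
    intro θ X
    have h3 := (h2 ι (lo a b θ) (hi a b θ) ε (lo_le_hi a b θ) hC.eps_nonneg (hC.cov θ)).1 X
    rwa [hM] at h3
  have hFo0 : ∀ θ, ∀ X : Finset ι, 0 ≤ Fo X (lo a b θ) (hi a b θ) := fun θ X =>
    integral_nonneg fun p => le_max_right _ _
  have hM2 : ∀ θ, 2 - ε ≤ Mf a b Finset.univ θ := fun θ => by
    have h3 := hone θ ∅
    have h4 := hFo0 θ ∅
    linarith
  have hMl : ∀ θ, Mf a b Finset.univ θ ≤ len a b Finset.univ := fun θ =>
    Finset.sum_le_sum fun i _ => wd_le a b θ i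
  have hsum : ∀ i, ∑ j, |dt (b i - a i) (b j - a j)| =
      nm (b i - a i) * Mf a b Finset.univ (φ i) := by
    intro i
    rw [Mf, Finset.mul_sum]
    exact Finset.sum_congr rfl fun j _ => hwd i j
  set B := Bs a b R with hB
  set ℓ := len a b Finset.univ with hℓ
  set ℓB := len a b B with hℓB
  set u : ι → ι → ℝ := fun i j => |pr (a j) (φ i) - pr (a i) (φ i)| with hu
  have hDd : ∀ i j, Dd a b i j = nm (b i - a i) * u i j := by
    intro i j
    rw [Dd, hφ i, pr_sub]
  constructor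
  · -- the estimate for one `i`
    have hi1 : ∀ i, 2 / 3 - Mf a b Finset.univ (φ i) / 4 - ε / 2 - η * ℓ - (ℓ - ℓB) / 4 ≤
        ∑ j ∈ B, wd a b (φ i) j * psi (u i j) := by
      intro i
      have h3 := h1 ι (lo a b (φ i)) (hi a b (φ i)) (fun j => pr (a j) (φ i)) (pr (a i) (φ i)) η
        (lo_le_hi a b (φ i)) (fun j => by
          rw [hi_sub_lo]
          exact (wd_le a b (φ i) j).trans (hC.small j)) (fun j => ⟨min_le_left _ _,
            le_max_left _ _⟩)
      rw [hM] at h3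
      have h4 : ∑ j, (hi a b (φ i) j - lo a b (φ i) j) *
          psi |pr (a j) (φ i) - pr (a i) (φ i)| = ∑ j, wd a b (φ i) j * psi (u i j) :=
        Finset.sum_congr rfl fun j _ => by rw [hi_sub_lo]
      rw [h4] at h3
      have h5 := hone (φ i) Finset.univ
      have h6 : ∑ j, wd a b (φ i) j * psi (u i j) = ∑ j ∈ B, wd a b (φ i) j * psi (u i j) +
          ∑ j ∈ Bᶜ, wd a b (φ i) j * psi (u i j) := (Finset.sum_add_sum_compl _ _).symm
      have h7 : ℓ = ℓB + ∑ j ∈ Bᶜ, nm (b j - a j) := (Finset.sum_add_sum_compl _ _).symm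
      have h8 : ∑ j ∈ Bᶜ, wd a b (φ i) j * psi (u i j) ≤ ∑ j ∈ Bᶜ, nm (b j - a j) / 4 := by
        refine Finset.sum_le_sum fun j _ => ?_
        have h9 := psi_le (u i j)
        have h10 := wd_nonneg a b (φ i) j
        have h11 := wd_le a b (φ i) j
        nlinarith
      rw [← Finset.sum_div] at h8
      have h12 := hMl (φ i)
      have h13 : η * Mf a b Finset.univ (φ i) ≤ η * ℓ :=
        mul_le_mul_of_nonneg_left h12 hC.eta_pos.le
      linarith
    have hi2 : ∀ i, nm (b i - a i) * (2 / 3 - ε / 2 - η * ℓ - (ℓ - ℓB) / 4) -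
        (∑ j, |dt (b i - a i) (b j - a j)|) / 4 ≤
        ∑ j ∈ B, |dt (b i - a i) (b j - a j)| * psi (u i j) := by
      intro i
      have h3 := mul_le_mul_of_nonneg_left (hi1 i) (nm_nonneg (b i - a i))
      rw [hsum i]
      have h4 : nm (b i - a i) * ∑ j ∈ B, wd a b (φ i) j * psi (u i j) =
          ∑ j ∈ B, |dt (b i - a i) (b j - a j)| * psi (u i j) := by
        rw [Finset.mul_sum]
        refine Finset.sum_congr rfl fun j _ => ?_
        rw [hwd, mul_assoc]
      rw [h4] at h3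
      linarith
    have h5 : ∑ i ∈ B, ∑ j ∈ B, |dt (b i - a i) (b j - a j)| * (psi (u i j) + psi (u j i)) ≤
        ∑ i ∈ B, ∑ j ∈ B, Dd a b i j * Dd a b j i := by
      refine Finset.sum_le_sum fun i _ => Finset.sum_le_sum fun j _ => ?_
      rw [hDd, hDd]
      refine key _ _ _ _ _ (nm_nonneg _) (nm_nonneg _) (abs_nonneg _) (abs_nonneg _)
        (abs_nonneg _) ?_
      rw [hwd]
      exact mul_le_mul_of_nonneg_left (wd_le a b (φ i) j) (nm_nonneg _)
    have h6 : ∑ i ∈ B, ∑ j ∈ B, |dt (b i - a i) (b j - a j)| * (psi (u i j) + psi (u j i)) =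
        2 * ∑ i ∈ B, ∑ j ∈ B, |dt (b i - a i) (b j - a j)| * psi (u i j) := by
      simp only [mul_add, Finset.sum_add_distrib]
      have h7 : ∑ i ∈ B, ∑ j ∈ B, |dt (b i - a i) (b j - a j)| * psi (u j i) =
          ∑ i ∈ B, ∑ j ∈ B, |dt (b i - a i) (b j - a j)| * psi (u i j) := by
        rw [Finset.sum_comm]
        refine Finset.sum_congr rfl fun i _ => Finset.sum_congr rfl fun j _ => ?_
        rw [dt_comm_abs]
      rw [h7]
      ring
    have h7 : ∑ i ∈ B, (nm (b i - a i) * (2 / 3 - ε / 2 - η * ℓ - (ℓ - ℓB) / 4) -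
        (∑ j, |dt (b i - a i) (b j - a j)|) / 4) ≤
        ∑ i ∈ B, ∑ j ∈ B, |dt (b i - a i) (b j - a j)| * psi (u i j) :=
      Finset.sum_le_sum fun i _ => hi2 i
    rw [Finset.sum_sub_distrib, ← Finset.sum_mul, ← Finset.sum_div] at h7
    have h8 : ∑ i ∈ B, nm (b i - a i) = ℓB := rfl
    rw [h8] at h7
    rw [h6] at h5
    refine le_trans ?_ h5
    linarith
  · intro i
    rw [hsum i]
    have h3 := mul_le_mul_of_nonneg_left (hM2 (φ i)) (nm_nonneg (b i - a i))
    linarith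

end Pool.Agent.OD
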