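import Pool.Agent.Lib.OD.Spec

/-!
# Opaque sets of the disc: upper bound for the sum of the `|det|` (6.3)
-/

set_option autoImplicit false

namespace Pool.Agent.OD

open MeasureTheory Set Real

namespace LBAux

theorem measurable_sgn : Measurable fun x : ℝ => ((SignType.sign x : SignType) : ℝ) := by
  refine Monotone.measurable ?_
  intro x y hxy
  have h := SignType.sign.monotone hxy
  have key : ∀ s t : SignType, s ≤ t → (s : ℝ) ≤ (t : ℝ) := by
    intro s t hst
    rcases s with _ | _ | _ <;> rcases t with _ | _ | _ <;>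
      first | (exact absurd hst (by decide)) | norm_num
  exact key _ _ h

theorem abs_sgn_le (x : ℝ) : |((SignType.sign x : SignType) : ℝ)| ≤ 1 := by
  rcases SignType.sign x with _ | _ | _ <;> norm_num

/-- `sign (pr v θ) * en v θ`. -/
noncomputable def se (v : ℝ × ℝ) (θ : ℝ) : ℝ := ((SignType.sign (pr v θ) : SignType) : ℝ) * en v θ

theorem measurable_se (v : ℝ × ℝ) : Measurable (se v) :=
  (measurable_sgn.comp (continuous_pr v).measurable).mul (continuous_en v).measurable

theorem abs_se_le (v : ℝ × ℝ) (θ : ℝ) : |se v θ| ≤ nm v := by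
  unfold se
  rw [abs_mul]
  calc _ ≤ 1 * nm v := mul_le_mul (abs_sgn_le _) (abs_en_le v θ) (abs_nonneg _) zero_le_one
    _ = nm v := one_mul _

theorem int_se (u v : ℝ × ℝ) (α β : ℝ) :
    IntervalIntegrable (fun θ => se u θ * se v θ) volume α β := by
  have hc : Continuous fun _ : ℝ => nm u * nm v := continuous_const
  refine (hc.intervalIntegrable α β).mono_fun
    ((measurable_se u).mul (measurable_se v)).aestronglyMeasurable ?_
  refine Filter.Eventually.of_forall fun θ => ?_
  show ‖se u θ * se v θ‖ ≤ ‖nm u * nm v‖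
  rw [Real.norm_eq_abs, Real.norm_eq_abs, abs_of_nonneg (mul_nonneg (nm_nonneg u) (nm_nonneg v)),
    abs_mul]
  exact mul_le_mul (abs_se_le u θ) (abs_se_le v θ) (abs_nonneg _) (nm_nonneg _)

theorem int_pr (u v : ℝ × ℝ) (α β : ℝ) :
    IntervalIntegrable (fun θ => |pr u θ| * |pr v θ|) volume α β :=
  ((continuous_pr u).abs.mul (continuous_pr v).abs).intervalIntegrable _ _

end LBAux

open LBAux

theorem pLB : S_Cos → S_Int → S_One → S_LB := by
  intro hCos hInt hOne ι _ a b η ε hC
  set v : ι → ℝ × ℝ := fun i => b i - a i with hv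
  set ℓ := len a b Finset.univ with hℓ
  set M : ℝ → ℝ := fun θ => ∑ i, |pr (v i) θ| with hM
  have hMc : Continuous M := continuous_finsetSum _ fun i _ => (continuous_pr (v i)).abs
  -- the identity summed
  have hsum : 2 * ∑ i, ∑ j, |dt (v i) (v j)| =
      ∫ θ in (0 : ℝ)..π, (M θ ^ 2 - (∑ i, se (v i) θ) ^ 2) := by
    have h1 : ∀ θ, M θ ^ 2 - (∑ i, se (v i) θ) ^ 2 =
        ∑ i, ∑ j, (|pr (v i) θ| * |pr (v j) θ| - se (v i) θ * se (v j) θ) := by
      intro θ
      rw [sq, sq, hM]
      simp only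
      rw [Finset.sum_mul_sum, Finset.sum_mul_sum]
      simp only [← Finset.sum_sub_distrib]
    simp only [h1]
    rw [intervalIntegral.integral_finsetSum]
    · rw [Finset.mul_sum]
      refine Finset.sum_congr rfl fun i _ => ?_
      rw [intervalIntegral.integral_finsetSum]
      · rw [Finset.mul_sum]
        refine Finset.sum_congr rfl fun j _ => ?_
        exact (hCos (v i) (v j)).symm
      · intro j _
        exact (int_pr _ _ _ _).sub (int_se _ _ _ _)
    · intro i _
      have h2 : IntervalIntegrable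
          (∑ j, fun θ => |pr (v i) θ| * |pr (v j) θ| - se (v i) θ * se (v j) θ) volume 0 π :=
        IntervalIntegrable.sum _ fun j _ => (int_pr _ _ _ _).sub (int_se _ _ _ _)
      have h3 : (fun θ => ∑ j, (|pr (v i) θ| * |pr (v j) θ| - se (v i) θ * se (v j) θ)) =
          ∑ j, fun θ => |pr (v i) θ| * |pr (v j) θ| - se (v i) θ * se (v j) θ := by
        funext θ
        simp
      rw [h3]
      exact h2
  -- bounds for M
  have hM1 : ∀ θ, M θ ≤ ℓ := fun θ => Finset.sum_le_sum fun i _ => abs_pr_le _ _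
  have hM2 : ∀ θ, 2 - ε ≤ M θ := by
    intro θ
    have h1 := (hOne ι (lo a b θ) (hi a b θ) ε (lo_le_hi a b θ) hC.eps_nonneg (hC.cov θ)).1 ∅
    have h2 : Fo (∅ : Finset ι) (lo a b θ) (hi a b θ) = 0 := by
      simp [Fo, cnt]
    rw [h2] at h1
    have h3 : ∑ i, (hi a b θ i - lo a b θ i) = M θ :=
      Finset.sum_congr rfl fun i _ => hi_sub_lo a b θ i
    rw [h3] at h1
    linarith
  have hℓ0 : 0 ≤ ℓ := Finset.sum_nonneg fun i _ => nm_nonneg _
  have hIM : ∫ θ in (0 : ℝ)..π, M θ = 2 * ℓ := by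
    rw [hM, intervalIntegral.integral_finsetSum
      (fun i _ => (continuous_pr (v i)).abs.intervalIntegrable _ _)]
    simp only [hInt.1]
    rw [← Finset.mul_sum]
    rfl
  have hle : ∫ θ in (0 : ℝ)..π, (M θ ^ 2 - (∑ i, se (v i) θ) ^ 2) ≤
      ∫ θ in (0 : ℝ)..π, ((2 - ε + ℓ) * M θ - (2 - ε) * ℓ) := by
    refine intervalIntegral.integral_mono_on pi_pos.le ?_ ?_ fun θ _ => ?_
    · refine IntervalIntegrable.sub ((hMc.pow 2).intervalIntegrable _ _) ?_
      have h1 : (fun θ => (∑ i, se (v i) θ) ^ 2) =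
          fun θ => ∑ i, ∑ j, se (v i) θ * se (v j) θ := by
        funext θ
        rw [sq, Finset.sum_mul_sum]
      rw [h1]
      have h2 : IntervalIntegrable (∑ i, ∑ j, fun θ => se (v i) θ * se (v j) θ) volume 0 π :=
        IntervalIntegrable.sum _ fun i _ => IntervalIntegrable.sum _ fun j _ => int_se _ _ _ _
      have h3 : (fun θ => ∑ i, ∑ j, se (v i) θ * se (v j) θ) =
          ∑ i, ∑ j, fun θ => se (v i) θ * se (v j) θ := by
        funext θ
        simp
      rw [h3]
      exact h2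
    · exact (((continuous_const.mul hMc).sub continuous_const)).intervalIntegrable _ _
    · have h1 := hM1 θ
      have h2 := hM2 θ
      nlinarith [sq_nonneg (∑ i, se (v i) θ), mul_nonneg (sub_nonneg.2 h1) (sub_nonneg.2 h2)]
  have hval : ∫ θ in (0 : ℝ)..π, ((2 - ε + ℓ) * M θ - (2 - ε) * ℓ) =
      (2 - ε + ℓ) * (2 * ℓ) - π * ((2 - ε) * ℓ) := by
    have hc1 : Continuous fun θ => (2 - ε + ℓ) * M θ := continuous_const.mul hMc
    rw [intervalIntegral.integral_sub (hc1.intervalIntegrable _ _)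
      (continuous_const.intervalIntegrable _ _), intervalIntegral.integral_const_mul, hIM,
      intervalIntegral.integral_const]
    simp only [sub_zero, smul_eq_mul]
  have hpi := Real.pi_lt_d2
  have hε := hC.eps_nonneg
  have h9 : ε * π * ℓ ≤ ε * 3.15 * ℓ :=
    mul_le_mul_of_nonneg_right (mul_le_mul_of_nonneg_left hpi.le hε) hℓ0
  have hεl : 0 ≤ ε * ℓ := mul_nonneg hε hℓ0
  have hfin : ∑ i, ∑ j, |dt (b i - a i) (b j - a j)| = ∑ i, ∑ j, |dt (v i) (v j)| := rfl
  rw [hfin]
  nlinarith [hsum, hle, hval, h9, hεl]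

end Pool.Agent.OD
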