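import Pool.Agent.Lib.OD.Spec

/-!
# Opaque sets of the disc: Lipschitz and measurability facts (statement `S_Lip`)
-/

set_option autoImplicit false

namespace Pool.Agent.OD

open MeasureTheory Set Real

namespace LipAux

/-- Lipschitz functions of a real variable. -/
def Lp (f : ℝ → ℝ) : Prop := ∃ K, LipschitzWith K f

theorem Lp.const (c : ℝ) : Lp (fun _ => c) := ⟨0, LipschitzWith.const c⟩

theorem Lp.add {f g : ℝ → ℝ} (hf : Lp f) (hg : Lp g) : Lp (fun x => f x + g x) := by
  obtain ⟨K, hK⟩ := hf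
  obtain ⟨L, hL⟩ := hg
  exact ⟨K + L, hK.add hL⟩

theorem Lp.sub {f g : ℝ → ℝ} (hf : Lp f) (hg : Lp g) : Lp (fun x => f x - g x) := by
  obtain ⟨K, hK⟩ := hf
  obtain ⟨L, hL⟩ := hg
  exact ⟨K + L, hK.sub hL⟩

theorem Lp.max {f g : ℝ → ℝ} (hf : Lp f) (hg : Lp g) : Lp (fun x => max (f x) (g x)) := by
  obtain ⟨K, hK⟩ := hf
  obtain ⟨L, hL⟩ := hg
  exact ⟨_, hK.max hL⟩

theorem Lp.min {f g : ℝ → ℝ} (hf : Lp f) (hg : Lp g) : Lp (fun x => min (f x) (g x)) := by
  obtain ⟨K, hK⟩ := hf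
  obtain ⟨L, hL⟩ := hg
  exact ⟨_, hK.min hL⟩

theorem Lp.sum {ι : Type} (s : Finset ι) {f : ι → ℝ → ℝ} (hf : ∀ i, Lp (f i)) :
    Lp (fun x => ∑ i ∈ s, f i x) := by
  classical
  induction s using Finset.induction_on with
  | empty =>
    simp only [Finset.sum_empty]
    exact Lp.const 0
  | insert i s hi ih =>
    simp only [Finset.sum_insert hi]
    exact (hf i).add ih

theorem Lp.fold {ι : Type} (s : Finset ι) {f : ι → ℝ → ℝ} (hf : ∀ i, Lp (f i)) :
    Lp (fun x => s.fold Max.max 0 (fun i => f i x)) := by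
  classical
  induction s using Finset.induction_on with
  | empty =>
    simp only [Finset.fold_empty]
    exact Lp.const 0
  | insert i s hi ih =>
    simp only [Finset.fold_insert hi]
    exact (hf i).max ih

theorem lp_Aq {ι : Type} (X : Finset ι) {c d : ℝ → ι → ℝ} {p : ℝ → ℝ}
    (hc : ∀ i, Lp (fun θ => c θ i)) (hd : ∀ i, Lp (fun θ => d θ i)) (hp : Lp p) :
    Lp (fun θ => Aq X (c θ) (d θ) (p θ)) := by
  unfold Aq
  exact Lp.sum X fun i => ((hp.sub (hc i)).max (Lp.const 0)).sub ((hp.sub (hd i)).max (Lp.const 0))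

theorem lp_qk {ι : Type} (X : Finset ι) {c d : ℝ → ι → ℝ} {p : ℝ → ℝ}
    (hc : ∀ i, Lp (fun θ => c θ i)) (hd : ∀ i, Lp (fun θ => d θ i)) (hp : Lp p) (k : ι) :
    Lp (fun θ => qk X (c θ) (d θ) k (p θ)) := by
  unfold qk
  have hm : Lp (fun θ => min (c θ k) (p θ)) := (hc k).min hp
  exact ((lp_Aq X hc hd hp).sub (lp_Aq X hc hd hm)).sub (hp.sub hm)

theorem lp_pr (z : ℝ × ℝ) : Lp (pr z) := ⟨_, lipschitz_pr z⟩

theorem lp_lo {ι : Type} (a b : ι → ℝ × ℝ) (i : ι) : Lp (fun θ => lo a b θ i) :=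
  (lp_pr (a i)).min (lp_pr (b i))

theorem lp_hi {ι : Type} (a b : ι → ℝ × ℝ) (i : ι) : Lp (fun θ => hi a b θ i) :=
  (lp_pr (a i)).max (lp_pr (b i))

/-! Continuity in all arguments. -/

variable {α : Type} [TopologicalSpace α]

theorem cont_Aq {ι : Type} (X : Finset ι) {c d : α → ι → ℝ} {p : α → ℝ}
    (hc : ∀ i, Continuous (fun θ => c θ i)) (hd : ∀ i, Continuous (fun θ => d θ i))
    (hp : Continuous p) : Continuous (fun θ => Aq X (c θ) (d θ) (p θ)) := by
  unfold Aq
  exact continuous_finset_sum X fun i _ =>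
    ((hp.sub (hc i)).max continuous_const).sub ((hp.sub (hd i)).max continuous_const)

theorem cont_qk {ι : Type} (X : Finset ι) {c d : α → ι → ℝ} {p : α → ℝ}
    (hc : ∀ i, Continuous (fun θ => c θ i)) (hd : ∀ i, Continuous (fun θ => d θ i))
    (hp : Continuous p) (k : ι) : Continuous (fun θ => qk X (c θ) (d θ) k (p θ)) := by
  unfold qk
  have hm : Continuous (fun θ => min (c θ k) (p θ)) := (hc k).min hp
  exact ((cont_Aq X hc hd hp).sub (cont_Aq X hc hd hm)).sub (hp.sub hm)

theorem cont_fold {ι : Type} (s : Finset ι) {f : ι → α → ℝ} (hf : ∀ i, Continuous (f i)) :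
    Continuous (fun x => s.fold Max.max 0 (fun i => f i x)) := by
  classical
  induction s using Finset.induction_on with
  | empty =>
    simp only [Finset.fold_empty]
    exact continuous_const
  | insert i s hi ih =>
    simp only [Finset.fold_insert hi]
    exact (hf i).max ih

end LipAux

open LipAux in
theorem pLip : S_Lip := by
  intro ι a b X
  refine ⟨fun z => ?_, fun k z => ?_, fun P v => ?_⟩
  · exact Lp.fold X fun k => lp_qk X (lp_lo a b) (lp_hi a b) (lp_pr z) k
  · exact lp_qk X (lp_lo a b) (lp_hi a b) (lp_pr z) k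
  · have hpr : ∀ w : ℝ × ℝ, Continuous (fun x : ℝ × ℝ => pr w x.1) := fun w =>
      (continuous_pr w).comp continuous_fst
    have hp : Continuous (fun x : ℝ × ℝ => pr (P + x.2 • v) x.1) := by
      simp only [pr_add, pr_smul]
      exact (hpr P).add (continuous_snd.mul (hpr v))
    have hlo : ∀ i, Continuous (fun x : ℝ × ℝ => lo a b x.1 i) := fun i =>
      (hpr (a i)).min (hpr (b i))
    have hhi : ∀ i, Continuous (fun x : ℝ × ℝ => hi a b x.1 i) := fun i =>
      (hpr (a i)).max (hpr (b i))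
    have hq : Continuous (fun x : ℝ × ℝ => qu X (lo a b x.1) (hi a b x.1) (pr (P + x.2 • v) x.1)) :=
      cont_fold X fun k => cont_qk X hlo hhi hp k
    have hS : MeasurableSet {x : ℝ × ℝ |
        pr (P + x.2 • v) x.1 ∈ Ub X (lo a b x.1) (hi a b x.1)} := by
      have h1 : {x : ℝ × ℝ | pr (P + x.2 • v) x.1 ∈ Ub X (lo a b x.1) (hi a b x.1)} =
          {x : ℝ × ℝ | 0 < qu X (lo a b x.1) (hi a b x.1) (pr (P + x.2 • v) x.1)} ∪
          ⋃ i ∈ X, {x : ℝ × ℝ | pr (P + x.2 • v) x.1 ∈ Icc (lo a b x.1 i) (hi a b x.1 i)} := by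
        ext x
        simp only [Ub, mem_setOf_eq, mem_union, mem_iUnion, exists_prop]
      rw [h1]
      refine (isOpen_lt continuous_const hq).measurableSet.union ?_
      refine Finset.measurableSet_biUnion X fun i _ => ?_
      exact ((isClosed_le (hlo i) hp).inter (isClosed_le hp (hhi i))).measurableSet
    have h2 : (fun x : ℝ × ℝ => us a b X (P + x.2 • v) x.1) =
        {x : ℝ × ℝ | pr (P + x.2 • v) x.1 ∈ Ub X (lo a b x.1) (hi a b x.1)}.indicator
          (fun _ => (1 : ℝ)) := by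
      funext x
      by_cases h : pr (P + x.2 • v) x.1 ∈ Ub X (lo a b x.1) (hi a b x.1)
      · rw [indicator_of_mem (a := x) h]
        exact indicator_of_mem h _
      · rw [indicator_of_notMem (a := x) h]
        exact indicator_of_notMem h _
    rw [h2]
    exact measurable_const.indicator hS

end Pool.Agent.OD
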