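import Pool.Agent.Lib.OD.Spec

set_option autoImplicit false

namespace Pool.Agent.OD

open MeasureTheory Set Real

namespace MainAux

theorem norm_pt (p θ : ℝ) : ‖(!₂[-(p * sin θ), p * cos θ] : E2)‖ = |p| := by
  rw [EuclideanSpace.norm_eq, Fin.sum_univ_two]
  simp only [Matrix.cons_val_zero, Matrix.cons_val_one, norm_neg, Real.norm_eq_abs,
    sq_abs]
  rw [← Real.sqrt_sq_eq_abs]
  congr 1
  linear_combination p ^ 2 * Real.sin_sq_add_cos_sq θ

theorem dir_ne (θ : ℝ) : (!₂[cos θ, sin θ] : E2) ≠ 0 := by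
  intro h
  have h0 : cos θ = 0 := congrArg (fun x : E2 => x 0) h
  have h1 : sin θ = 0 := congrArg (fun x : E2 => x 1) h
  have h2 := Real.sin_sq_add_cos_sq θ
  rw [h0, h1] at h2
  norm_num at h2

end MainAux

open MainAux

theorem pMain : S_RD → S_Main := by
  intro hRD γ _ hγ
  apply hRD γ
  intro θ p hp
  obtain ⟨k, t, ht, hl⟩ := hγ (AffineSubspace.mk' (!₂[-(p * sin θ), p * cos θ] : E2)
    (Submodule.span ℝ {(!₂[cos θ, sin θ] : E2)})) (by
      rw [AffineSubspace.direction_mk']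
      exact finrank_span_singleton (dir_ne θ))
    ⟨_, AffineSubspace.self_mem_mk' _ _, by rw [norm_pt]; exact hp⟩
  refine ⟨k, t, ht, ?_⟩
  rw [AffineSubspace.mem_mk', Submodule.mem_span_singleton] at hl
  obtain ⟨c, hc⟩ := hl
  have h0 : c * cos θ = γ k t 0 - (-(p * sin θ)) := congrArg (fun x : E2 => x 0) hc
  have h1 : c * sin θ = γ k t 1 - p * cos θ := congrArg (fun x : E2 => x 1) hc
  have e0 : γ k t 0 = c * cos θ - p * sin θ := by linarith
  have e1 : γ k t 1 = c * sin θ + p * cos θ := by linarith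
  show γ k t 1 * cos θ - γ k t 0 * sin θ = p
  rw [e0, e1]
  linear_combination p * Real.sin_sq_add_cos_sq θ

end Pool.Agent.OD
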