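import Pool.Agent.Lib.OD.Spec

/-!
# Opaque sets of the disc: module One (1.1) (helper96)
-/

set_option autoImplicit false

namespace Pool.Agent.OD

open MeasureTheory Set Real

namespace OneAux

theorem integrable_ind (c d : ℝ) : Integrable ((Icc c d).indicator (fun _ => (1 : ℝ))) :=
  (integrable_indicator_iff measurableSet_Icc).2 (integrableOn_const (by simp))

theorem integrable_cnt {ι : Type} (X : Finset ι) (c d : ι → ℝ) : Integrable (cnt X c d) := by
  unfold cnt
  exact integrable_finsetSum _ fun i _ => integrable_ind _ _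

theorem cnt_nonneg {ι : Type} (X : Finset ι) (c d : ι → ℝ) (p : ℝ) : 0 ≤ cnt X c d p :=
  Finset.sum_nonneg fun _ _ => indicator_nonneg (fun _ _ => zero_le_one) _

theorem cnt_mono {ι : Type} (X Y : Finset ι) (h : X ⊆ Y) (c d : ι → ℝ) (p : ℝ) :
    cnt X c d p ≤ cnt Y c d p :=
  Finset.sum_le_sum_of_subset_of_nonneg h fun _ _ _ => indicator_nonneg (fun _ _ => zero_le_one) _

theorem one_le_cnt {ι : Type} [Fintype ι] (c d : ι → ℝ) (p : ℝ) (i : ι)
    (hi : p ∈ Icc (c i) (d i)) : 1 ≤ cnt Finset.univ c d p := by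
  unfold cnt
  refine le_trans ?_ (Finset.single_le_sum (f := fun i =>
    (Icc (c i) (d i)).indicator (fun _ => (1 : ℝ)) p)
    (fun j _ => indicator_nonneg (fun _ _ => zero_le_one) _) (Finset.mem_univ i))
  show 1 ≤ (Icc (c i) (d i)).indicator (fun _ => (1 : ℝ)) p
  rw [indicator_of_mem hi]

theorem integrable_over {ι : Type} (X : Finset ι) (c d : ι → ℝ) :
    Integrable (fun p => max (cnt X c d p - 1) 0) := by
  have hm : AEStronglyMeasurable (fun p => max (cnt X c d p - 1) 0) volume :=
    ((integrable_cnt X c d).aestronglyMeasurable.sub aestronglyMeasurable_const).sup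
      aestronglyMeasurable_const
  refine (integrable_cnt X c d).mono hm (Filter.Eventually.of_forall fun p => ?_)
  rw [Real.norm_eq_abs, Real.norm_eq_abs, abs_of_nonneg (le_max_right _ _),
    abs_of_nonneg (cnt_nonneg X c d p)]
  exact max_le (by linarith) (cnt_nonneg X c d p)

theorem int_cnt {ι : Type} (X : Finset ι) (c d : ι → ℝ) (h : ∀ i, c i ≤ d i) :
    ∫ p, cnt X c d p = ∑ i ∈ X, (d i - c i) := by
  unfold cnt
  rw [integral_finsetSum _ fun i _ => integrable_ind _ _]
  refine Finset.sum_congr rfl fun i _ => ?_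
  rw [integral_indicator measurableSet_Icc, setIntegral_const, smul_eq_mul, mul_one,
    Measure.real, Real.volume_Icc, ENNReal.toReal_ofReal (sub_nonneg.2 (h i))]

theorem main {ι : Type} [Fintype ι] (c d : ι → ℝ) (ε : ℝ) (hcd : ∀ i, c i ≤ d i) (hε : 0 ≤ ε)
    (hc : volume {p : ℝ | p ∈ Icc (-1 : ℝ) 1 ∧ ∀ i, p ∉ Icc (c i) (d i)} ≤ ENNReal.ofReal ε)
    (f : ℝ → ℝ) (hf : Integrable f) (h1 : ∀ p, f p ≤ cnt Finset.univ c d p)
    (h2 : ∀ p, p ∈ Icc (-1 : ℝ) 1 → (∃ i, p ∈ Icc (c i) (d i)) →
      f p ≤ cnt Finset.univ c d p - 1) :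
    ∫ p, f p ≤ ∑ i, (d i - c i) - 2 + ε := by
  set E : Set ℝ := Icc (-1 : ℝ) 1 ∩ ⋃ i, Icc (c i) (d i) with hE
  have hEm : MeasurableSet E :=
    measurableSet_Icc.inter (MeasurableSet.iUnion fun i => measurableSet_Icc)
  have hEfin : volume E ≠ ⊤ := by
    refine ne_top_of_le_ne_top ?_ (measure_mono inter_subset_left)
    simp
  have hvol : 2 - ε ≤ (volume E).toReal := by
    have a1 : Icc (-1 : ℝ) 1 ⊆ E ∪ {p : ℝ | p ∈ Icc (-1 : ℝ) 1 ∧ ∀ i, p ∉ Icc (c i) (d i)} := by
      intro p hp
      by_cases h : ∃ i, p ∈ Icc (c i) (d i)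
      · left
        exact ⟨hp, mem_iUnion.2 h⟩
      · right
        exact ⟨hp, not_exists.1 h⟩
    have a2 : volume (Icc (-1 : ℝ) 1) ≤ volume E + ENNReal.ofReal ε :=
      (measure_mono a1).trans ((measure_union_le _ _).trans (by gcongr))
    rw [Real.volume_Icc] at a2
    have a3 := ENNReal.toReal_mono (ENNReal.add_ne_top.2 ⟨hEfin, ENNReal.ofReal_ne_top⟩) a2
    rw [ENNReal.toReal_ofReal (by norm_num), ENNReal.toReal_add hEfin ENNReal.ofReal_ne_top,
      ENNReal.toReal_ofReal hε] at a3
    linarith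
  have hI : Integrable (E.indicator (fun _ => (1 : ℝ))) :=
    (integrable_indicator_iff hEm).2 (integrableOn_const hEfin)
  have h3 : ∫ p, f p ≤ ∫ p, (cnt Finset.univ c d p - E.indicator (fun _ => (1 : ℝ)) p) := by
    refine integral_mono hf ((integrable_cnt _ c d).sub hI) fun p => ?_
    show f p ≤ cnt Finset.univ c d p - E.indicator (fun _ => (1 : ℝ)) p
    by_cases hp : p ∈ E
    · rw [indicator_of_mem hp]
      exact h2 p hp.1 (mem_iUnion.1 hp.2)
    · rw [indicator_of_notMem hp, sub_zero]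
      exact h1 p
  rw [integral_sub (integrable_cnt _ c d) hI, int_cnt _ c d hcd, integral_indicator hEm,
    setIntegral_const, smul_eq_mul, mul_one, Measure.real] at h3
  linarith

end OneAux

open OneAux

theorem pOne : S_One := by
  intro ι _ c d ε hcd hε hc
  refine ⟨fun X => ?_, fun O hO => ?_⟩
  · refine main c d ε hcd hε hc _ (integrable_over X c d) (fun p => ?_) (fun p _ hp => ?_)
    · have := cnt_mono X Finset.univ (Finset.subset_univ X) c d p
      exact max_le (by linarith) (cnt_nonneg _ c d p)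
    · obtain ⟨i, hi⟩ := hp
      have a1 := one_le_cnt c d p i hi
      have a2 := cnt_mono X Finset.univ (Finset.subset_univ X) c d p
      exact max_le (by linarith) (by linarith)
  · rw [← int_cnt O c d hcd]
    refine main c d ε hcd hε hc _ (integrable_cnt O c d) (fun p => ?_) (fun p hp1 hp => ?_)
    · exact cnt_mono O Finset.univ (Finset.subset_univ O) c d p
    · obtain ⟨i, hi⟩ := hp
      have a1 := one_le_cnt c d p i hi
      have a2 : cnt O c d p = 0 := by
        unfold cnt
        refine Finset.sum_eq_zero fun j hj => indicator_of_notMem (fun h => ?_) _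
        have := hO j hj p h
        have h3 : |p| ≤ 1 := abs_le.2 hp1
        linarith
      rw [a2]
      linarith

end Pool.Agent.OD
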