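import Pool.Agent.Lib.OD.Spec

/-!
# Opaque sets of the disc: module Psi (1.4) (helper7)
-/

set_option autoImplicit false

namespace Pool.Agent.OD

open MeasureTheory Set Real

namespace PsiAux

/-- the profile -/
noncomputable def F (u : ℝ) : ℝ := (1 - min u 1) ^ 2

theorem F_nonneg (u : ℝ) : 0 ≤ F u := sq_nonneg _

theorem F_le_one {u : ℝ} (hu : 0 ≤ u) : F u ≤ 1 := by
  have h1 : 0 ≤ min u 1 := le_min hu zero_le_one
  have h2 : min u 1 ≤ 1 := min_le_right _ _
  unfold F
  nlinarith

theorem F_zero {u : ℝ} (hu : 1 ≤ u) : F u = 0 := by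
  unfold F
  rw [min_eq_right hu]
  ring

theorem F_lip {u v : ℝ} (hu : 0 ≤ u) (hv : 0 ≤ v) : F u ≤ F v + 2 * |u - v| := by
  have h1 : |min u 1 - min v 1| ≤ |u - v| := by
    have := abs_min_sub_min_le_max u 1 v 1
    simpa using this
  have h2 : 0 ≤ min u 1 := le_min hu zero_le_one
  have h3 : min u 1 ≤ 1 := min_le_right _ _
  have h4 : 0 ≤ min v 1 := le_min hv zero_le_one
  have h5 : min v 1 ≤ 1 := min_le_right _ _
  unfold F
  have h6 : (1 - min u 1) ^ 2 - (1 - min v 1) ^ 2 =
      (min v 1 - min u 1) * (2 - min u 1 - min v 1) := by ring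
  have h7 : (min v 1 - min u 1) * (2 - min u 1 - min v 1) ≤
      |min u 1 - min v 1| * (2 - min u 1 - min v 1) := by
    apply mul_le_mul_of_nonneg_right _ (by linarith)
    rw [abs_sub_comm]
    exact le_abs_self _
  have h8 : |min u 1 - min v 1| * (2 - min u 1 - min v 1) ≤ |u - v| * 2 := by
    apply mul_le_mul h1 (by linarith) (by linarith) (abs_nonneg _)
  linarith

theorem continuous_F : Continuous F := by
  unfold F
  fun_prop

theorem integral_F : ∫ u in Ioi (0 : ℝ), F u = 1 / 3 := by
  have h1 : ∫ u in Ioc (0 : ℝ) 1, F u = ∫ u in Ioi (0 : ℝ), F u := by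
    symm
    apply setIntegral_eq_of_subset_of_forall_sdiff_eq_zero measurableSet_Ioi
    · exact Ioc_subset_Ioi_self
    · rintro u ⟨hu, hu'⟩
      apply F_zero
      by_contra h
      exact hu' ⟨hu, (not_le.1 h).le⟩
  rw [← h1, ← intervalIntegral.integral_of_le zero_le_one]
  have h2 : ∫ u in (0 : ℝ)..1, F u = ∫ u in (0 : ℝ)..1, (1 - u) ^ 2 := by
    apply intervalIntegral.integral_congr
    intro u hu
    rw [uIcc_of_le zero_le_one] at hu
    simp only [F]
    rw [min_eq_left hu.2]
  rw [h2, intervalIntegral.integral_comp_sub_left (fun u => u ^ 2) 1]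
  norm_num

theorem integral_f (p₀ : ℝ) : ∫ p, F |p - p₀| = 2 / 3 := by
  have h1 : ∫ p, F |p - p₀| = ∫ p, F |p| := integral_sub_right_eq_self (fun p => F |p|) p₀
  rw [h1, integral_comp_abs, integral_F]
  norm_num

theorem integrable_f (p₀ : ℝ) : Integrable (fun p => F |p - p₀|) := by
  apply Continuous.integrable_of_hasCompactSupport
  · exact continuous_F.comp (by fun_prop)
  · apply HasCompactSupport.intro (isCompact_closedBall p₀ 1)
    intro p hp
    apply F_zero
    rw [Metric.mem_closedBall, Real.dist_eq] at hp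
    linarith

theorem integrable_ind (c d : ℝ) : Integrable ((Icc c d).indicator (fun _ => (1 : ℝ))) :=
  (integrable_indicator_iff measurableSet_Icc).2 (integrableOn_const (by simp))

theorem integrable_cnt {ι : Type} (X : Finset ι) (c d : ι → ℝ) : Integrable (cnt X c d) := by
  unfold cnt
  exact integrable_finsetSum _ fun i _ => integrable_ind _ _

theorem cnt_nonneg {ι : Type} (X : Finset ι) (c d : ι → ℝ) (p : ℝ) : 0 ≤ cnt X c d p :=
  Finset.sum_nonneg fun _ _ => indicator_nonneg (fun _ _ => zero_le_one) _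

theorem integrable_over {ι : Type} (X : Finset ι) (c d : ι → ℝ) :
    Integrable (fun p => max (cnt X c d p - 1) 0) := by
  have hm : AEStronglyMeasurable (fun p => max (cnt X c d p - 1) 0) volume :=
    ((integrable_cnt X c d).aestronglyMeasurable.sub aestronglyMeasurable_const).sup
      aestronglyMeasurable_const
  refine (integrable_cnt X c d).mono hm (Filter.Eventually.of_forall fun p => ?_)
  rw [Real.norm_eq_abs, Real.norm_eq_abs, abs_of_nonneg (le_max_right _ _),
    abs_of_nonneg (cnt_nonneg X c d p)]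
  exact max_le (by linarith) (cnt_nonneg X c d p)

/-- one interval -/
theorem one_le {c d x p₀ η : ℝ} (hcd : c ≤ d) (hη : d - c ≤ η) (hx : x ∈ Icc c d) :
    (d - c) * F |x - p₀| ≤ (∫ p, (Icc c d).indicator (fun p => F |p - p₀|) p) +
      2 * η * (d - c) := by
  rw [integral_indicator measurableSet_Icc]
  have h1 : ∀ p ∈ Icc c d, F |x - p₀| - 2 * η ≤ F |p - p₀| := by
    intro p hp
    have h2 := F_lip (abs_nonneg (x - p₀)) (abs_nonneg (p - p₀))
    have h3 : abs (|x - p₀| - |p - p₀|) ≤ |x - p| := by
      have := abs_abs_sub_abs_le_abs_sub (x - p₀) (p - p₀)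
      simpa using this
    have h4 : |x - p| ≤ η := by
      rw [abs_le]
      constructor <;> linarith [hx.1, hx.2, hp.1, hp.2]
    linarith
  have h2 : ∫ p in Icc c d, (F |x - p₀| - 2 * η) ≤ ∫ p in Icc c d, F |p - p₀| :=
    setIntegral_mono_on (integrableOn_const (by simp)) (integrable_f p₀).integrableOn
      measurableSet_Icc h1
  rw [setIntegral_const, smul_eq_mul, Measure.real, Real.volume_Icc,
    ENNReal.toReal_ofReal (by linarith)] at h2
  linarith

end PsiAux

open PsiAux in
theorem pPsi : S_Psi := by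
  intro ι _ c d x p₀ η hcd hη hx
  have h1 : ∀ i, (d i - c i) * psi |x i - p₀| =
      (d i - c i) / 4 - (d i - c i) * F |x i - p₀| / 2 := by
    intro i
    unfold psi F
    ring
  have h2 : ∑ i, (d i - c i) * psi |x i - p₀| =
      (∑ i, (d i - c i)) / 4 - (∑ i, (d i - c i) * F |x i - p₀|) / 2 := by
    rw [Finset.sum_congr rfl fun i _ => h1 i, Finset.sum_sub_distrib, Finset.sum_div,
      Finset.sum_div]
  have h3 : ∑ i, (d i - c i) * F |x i - p₀| ≤
      ∑ i, ((∫ p, (Icc (c i) (d i)).indicator (fun p => F |p - p₀|) p) +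
        2 * η * (d i - c i)) :=
    Finset.sum_le_sum fun i _ => one_le (hcd i) (hη i) (hx i)
  rw [Finset.sum_add_distrib, ← Finset.mul_sum] at h3
  have h4 : ∀ i, Integrable ((Icc (c i) (d i)).indicator (fun p => F |p - p₀|)) := fun i =>
    (integrable_f p₀).indicator measurableSet_Icc
  have h5 : ∑ i, (∫ p, (Icc (c i) (d i)).indicator (fun p => F |p - p₀|) p) ≤
      2 / 3 + Fo Finset.univ c d := by
    rw [← integral_finsetSum _ fun i _ => h4 i, ← integral_f p₀, Fo,
      ← integral_add (integrable_f p₀) (integrable_over Finset.univ c d)]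
    apply integral_mono (integrable_finsetSum _ fun i _ => h4 i)
      ((integrable_f p₀).add (integrable_over Finset.univ c d))
    intro p
    have h6 : ∑ i, (Icc (c i) (d i)).indicator (fun p => F |p - p₀|) p =
        cnt Finset.univ c d p * F |p - p₀| := by
      unfold cnt
      rw [Finset.sum_mul]
      refine Finset.sum_congr rfl fun i _ => ?_
      by_cases h : p ∈ Icc (c i) (d i)
      · rw [indicator_of_mem h, indicator_of_mem h, one_mul]
      · rw [indicator_of_notMem h, indicator_of_notMem h, zero_mul]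
    simp only [Pi.add_apply]
    rw [h6]
    have h7 : cnt Finset.univ c d p ≤ 1 + max (cnt Finset.univ c d p - 1) 0 := by
      have := le_max_left (cnt Finset.univ c d p - 1) 0
      linarith
    have h8 := F_nonneg |p - p₀|
    have h9 := F_le_one (abs_nonneg (p - p₀))
    have h10 := le_max_right (cnt Finset.univ c d p - 1) 0
    calc cnt Finset.univ c d p * F |p - p₀|
        ≤ (1 + max (cnt Finset.univ c d p - 1) 0) * F |p - p₀| :=
          mul_le_mul_of_nonneg_right h7 h8
      _ = F |p - p₀| + max (cnt Finset.univ c d p - 1) 0 * F |p - p₀| := by ring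
      _ ≤ F |p - p₀| + max (cnt Finset.univ c d p - 1) 0 * 1 := by gcongr
      _ = _ := by ring
  rw [h2]
  linarith

end Pool.Agent.OD
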