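import Pool.Agent.Lib.OD.Spec

/-!
# Opaque sets of the disc: module QA (1.2 (a) and the formula for `Aq`) (helper96)
-/

set_option autoImplicit false

namespace Pool.Agent.OD

open MeasureTheory Set Real

namespace QAAux

theorem integrable_ind (c d : ℝ) : Integrable ((Icc c d).indicator (fun _ => (1 : ℝ))) :=
  (integrable_indicator_iff measurableSet_Icc).2 (integrableOn_const (by simp))

theorem integrable_cnt {ι : Type} (X : Finset ι) (c d : ι → ℝ) : Integrable (cnt X c d) := by
  unfold cnt
  exact integrable_finsetSum _ fun i _ => integrable_ind _ _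

theorem cnt_nonneg {ι : Type} (X : Finset ι) (c d : ι → ℝ) (p : ℝ) : 0 ≤ cnt X c d p :=
  Finset.sum_nonneg fun _ _ => indicator_nonneg (fun _ _ => zero_le_one) _

theorem integrable_over {ι : Type} (X : Finset ι) (c d : ι → ℝ) :
    Integrable (fun p => max (cnt X c d p - 1) 0) := by
  have hm : AEStronglyMeasurable (fun p => max (cnt X c d p - 1) 0) volume :=
    ((integrable_cnt X c d).aestronglyMeasurable.sub aestronglyMeasurable_const).sup
      aestronglyMeasurable_const
  refine (integrable_cnt X c d).mono hm (Filter.Eventually.of_forall fun p => ?_)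
  rw [Real.norm_eq_abs, Real.norm_eq_abs, abs_of_nonneg (le_max_right _ _),
    abs_of_nonneg (cnt_nonneg X c d p)]
  exact max_le (by linarith) (cnt_nonneg X c d p)

theorem int_ind (c d s p : ℝ) (hsp : s ≤ p) :
    ∫ x in s..p, (Icc c d).indicator (fun _ => (1 : ℝ)) x = max (min d p - max c s) 0 := by
  rw [intervalIntegral.integral_of_le hsp, setIntegral_indicator measurableSet_Icc,
    setIntegral_const, smul_eq_mul, mul_one, Measure.real]
  have h1 : volume (Ioc s p ∩ Icc c d) = ENNReal.ofReal (min d p - max c s) := by
    apply le_antisymm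
    · rw [← Real.volume_Icc]
      refine measure_mono fun x hx => ?_
      exact ⟨max_le hx.2.1 hx.1.1.le, le_min hx.2.2 hx.1.2⟩
    · rw [← Real.volume_Ioc]
      refine measure_mono fun x hx => ?_
      have h2 := max_lt_iff.1 hx.1
      have h3 := le_min_iff.1 hx.2
      exact ⟨⟨h2.2, h3.2⟩, ⟨h2.1.le, h3.1⟩⟩
  rw [h1, ENNReal.toReal_ofReal']

theorem one (c d s p : ℝ) (hcd : c ≤ d) (hsp : s ≤ p) :
    (max (p - c) 0 - max (p - d) 0) - (max (s - c) 0 - max (s - d) 0) =
      max (min d p - max c s) 0 := by
  rcases le_total p c with h1 | h1 <;> rcases le_total p d with h2 | h2 <;>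
  rcases le_total s c with h3 | h3 <;> rcases le_total s d with h4 | h4 <;>
  simp only [max_eq_left, max_eq_right, min_eq_left, min_eq_right, sub_nonneg, sub_nonpos,
    h1, h2, h3, h4] <;>
  first
  | linarith
  | (rw [max_eq_right (by linarith)]; linarith)
  | (rw [max_eq_left (by linarith)]; linarith)

end QAAux

open QAAux

theorem pQA : S_QA := by
  intro ι X c d hcd
  have hA : ∀ s p, s ≤ p → Aq X c d p - Aq X c d s = ∫ x in s..p, cnt X c d x := by
    intro s p hsp
    unfold cnt
    rw [intervalIntegral.integral_finsetSum fun i _ =>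
      (integrable_ind (c i) (d i)).intervalIntegrable]
    unfold Aq
    rw [← Finset.sum_sub_distrib]
    refine Finset.sum_congr rfl fun i _ => ?_
    rw [int_ind _ _ _ _ hsp]
    exact one _ _ _ _ (hcd i) hsp
  refine ⟨hA, fun p => ⟨?_, ?_⟩⟩
  · unfold qu
    exact (Finset.le_fold_max _).2 (Or.inl le_rfl)
  · have hF : 0 ≤ Fo X c d := integral_nonneg fun _ => le_max_right _ _
    unfold qu
    refine (Finset.fold_max_le _).2 ⟨hF, fun k _ => ?_⟩
    unfold qk
    set m := min (c k) p with hm
    have hmp : m ≤ p := min_le_right _ _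
    rw [hA m p hmp]
    have h1 : (∫ x in m..p, cnt X c d x) - (p - m) = ∫ x in m..p, (cnt X c d x - 1) := by
      rw [intervalIntegral.integral_sub (integrable_cnt X c d).intervalIntegrable
        intervalIntegrable_const]
      simp
    rw [h1, intervalIntegral.integral_of_le hmp]
    have h2 : ∫ x in Ioc m p, (cnt X c d x - 1) ≤ ∫ x in Ioc m p, max (cnt X c d x - 1) 0 := by
      refine setIntegral_mono_on ?_ (integrable_over X c d).integrableOn measurableSet_Ioc
        fun x _ => le_max_left _ _
      exact (integrable_cnt X c d).integrableOn.sub (integrableOn_const (by simp))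
    refine h2.trans ?_
    exact setIntegral_le_integral (integrable_over X c d)
      (Filter.Eventually.of_forall fun x => le_max_right _ _)

end Pool.Agent.OD
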