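import Pool.Agent.Lib.OD.Spec

/-!
# Opaque sets of the disc: module QB (1.2 (b), (c), (d)) (helper7)
-/

set_option autoImplicit false

namespace Pool.Agent.OD

open MeasureTheory Set Real Filter Topology

namespace QBAux

variable {ι : Type}

/-! ### Lipschitz -/

theorem lip_sum (X : Finset ι) (f : ι → ℝ → ℝ) (h : ∀ i, ∃ K, LipschitzWith K (f i)) :
    ∃ K, LipschitzWith K (fun p => ∑ i ∈ X, f i p) := by
  classical
  induction X using Finset.induction_on with
  | empty => exact ⟨0, by simp⟩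
  | insert i X hi ih =>
    obtain ⟨K, hK⟩ := ih
    obtain ⟨K', hK'⟩ := h i
    refine ⟨K' + K, ?_⟩
    have h1 : (fun p => ∑ i ∈ insert i X, f i p) = fun p => f i p + ∑ i ∈ X, f i p := by
      funext p
      rw [Finset.sum_insert hi]
    rw [h1]
    exact hK'.add hK

theorem lip_fold (X : Finset ι) (f : ι → ℝ → ℝ) (h : ∀ i, ∃ K, LipschitzWith K (f i)) :
    ∃ K, LipschitzWith K (fun p => X.fold max 0 (fun i => f i p)) := by
  classical
  induction X using Finset.induction_on with
  | empty => exact ⟨0, by simp⟩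
  | insert i X hi ih =>
    obtain ⟨K, hK⟩ := ih
    obtain ⟨K', hK'⟩ := h i
    refine ⟨max K' K, ?_⟩
    have h1 : (fun p => (insert i X).fold max 0 (fun i => f i p)) =
        fun p => max (f i p) (X.fold max 0 (fun i => f i p)) := by
      funext p
      rw [Finset.fold_insert hi]
    rw [h1]
    exact hK'.max hK

theorem lip_pm (e : ℝ) : ∃ K, LipschitzWith K (fun p : ℝ => max (p - e) 0) :=
  ⟨_, (LipschitzWith.id.sub (LipschitzWith.const e)).max_const 0⟩

theorem lip_Aq (X : Finset ι) (c d : ι → ℝ) : ∃ K, LipschitzWith K (Aq X c d) := by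
  unfold Aq
  apply lip_sum
  intro i
  obtain ⟨K, hK⟩ := lip_pm (c i)
  obtain ⟨K', hK'⟩ := lip_pm (d i)
  exact ⟨_, hK.sub hK'⟩

theorem lip_qu (X : Finset ι) (c d : ι → ℝ) : ∃ K, LipschitzWith K (qu X c d) := by
  unfold qu
  apply lip_fold
  intro k
  unfold qk
  obtain ⟨K, hK⟩ := lip_Aq X c d
  have h1 : LipschitzWith 1 (fun p : ℝ => min (c k) p) := LipschitzWith.id.const_min (c k)
  exact ⟨_, (hK.sub (hK.comp h1)).sub (LipschitzWith.id.sub h1)⟩

/-! ### One step -/

theorem cnt_nat (X : Finset ι) (c d : ι → ℝ) (p : ℝ) : ∃ n : ℕ, cnt X c d p = n := by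
  classical
  unfold cnt
  induction X using Finset.induction_on with
  | empty => exact ⟨0, by simp⟩
  | insert i X hi ih =>
    obtain ⟨n, hn⟩ := ih
    rw [Finset.sum_insert hi, hn]
    by_cases h : p ∈ Icc (c i) (d i)
    · exact ⟨n + 1, by rw [indicator_of_mem h]; push_cast; ring⟩
    · exact ⟨n, by rw [indicator_of_notMem h]; ring⟩

theorem cnt_nonneg (X : Finset ι) (c d : ι → ℝ) (p : ℝ) : 0 ≤ cnt X c d p :=
  Finset.sum_nonneg fun _ _ => indicator_nonneg (fun _ _ => zero_le_one) _

theorem one_le_cnt {X : Finset ι} {c d : ι → ℝ} {p : ℝ} {i : ι} (hi : i ∈ X)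
    (h : p ∈ Icc (c i) (d i)) : 1 ≤ cnt X c d p := by
  have h1 : (Icc (c i) (d i)).indicator (fun _ => (1 : ℝ)) p ≤ cnt X c d p :=
    Finset.single_le_sum (f := fun i => (Icc (c i) (d i)).indicator (fun _ => (1 : ℝ)) p)
      (fun _ _ => indicator_nonneg (fun _ _ => zero_le_one) _) hi
  rwa [indicator_of_mem h] at h1

theorem cnt_zero {X : Finset ι} {c d : ι → ℝ} {p : ℝ}
    (h : ∀ i ∈ X, p ∉ Icc (c i) (d i)) : cnt X c d p = 0 :=
  Finset.sum_eq_zero fun i hi => indicator_of_notMem (h i hi) _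

theorem Aq_step {X : Finset ι} {c d : ι → ℝ} (hcd : ∀ i, c i ≤ d i) {p p' : ℝ} (hp : p < p')
    (hc : ∀ i ∈ X, c i ∉ Icc p p') (hd : ∀ i ∈ X, d i ∉ Icc p p') :
    Aq X c d p' - Aq X c d p = cnt X c d p * (p' - p) := by
  unfold Aq cnt
  rw [← Finset.sum_sub_distrib, Finset.sum_mul]
  refine Finset.sum_congr rfl fun i hi => ?_
  have h1 : c i < p ∨ p' < c i := by
    by_contra h
    push Not at h
    exact hc i hi h
  have h2 : d i < p ∨ p' < d i := by
    by_contra h
    push Not at h
    exact hd i hi h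
  have h3 := hcd i
  rcases h1 with h1 | h1
  · rcases h2 with h2 | h2
    · rw [indicator_of_notMem (fun h => absurd h.2 (not_le.2 h2)),
        max_eq_left (by linarith), max_eq_left (by linarith), max_eq_left (by linarith),
        max_eq_left (by linarith)]
      ring
    · have hm : p ∈ Icc (c i) (d i) := ⟨h1.le, by linarith⟩
      rw [indicator_of_mem hm,
        max_eq_left (by linarith), max_eq_right (by linarith), max_eq_left (by linarith),
        max_eq_right (by linarith)]
      ring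
  · rw [indicator_of_notMem (fun h => absurd h.1 (not_le.2 (by linarith))),
      max_eq_right (by linarith), max_eq_right (by linarith), max_eq_right (by linarith),
      max_eq_right (by linarith)]
    ring

theorem qu_nonneg (X : Finset ι) (c d : ι → ℝ) (p : ℝ) : 0 ≤ qu X c d p :=
  (Finset.le_fold_max _).2 (Or.inl le_rfl)

theorem qk_le_qu {X : Finset ι} {c d : ι → ℝ} {p : ℝ} {k : ι} (hk : k ∈ X) :
    qk X c d k p ≤ qu X c d p :=
  (Finset.le_fold_max _).2 (Or.inr ⟨k, hk, le_rfl⟩)

theorem qk_step {X : Finset ι} {c d : ι → ℝ} (hcd : ∀ i, c i ≤ d i) {p p' : ℝ} (hp : p < p')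
    (hc : ∀ i ∈ X, c i ∉ Icc p p') (hd : ∀ i ∈ X, d i ∉ Icc p p') {k : ι} (hk : k ∈ X) :
    qk X c d k p' = qk X c d k p + (cnt X c d p - 1) * (p' - p) ∨ qk X c d k p' = 0 := by
  have h1 : c k < p ∨ p' < c k := by
    by_contra h
    push Not at h
    exact hc k hk h
  have h2 := Aq_step hcd hp hc hd
  rcases h1 with h1 | h1
  · left
    unfold qk
    rw [min_eq_left (by linarith), min_eq_left (by linarith)]
    linarith
  · right
    unfold qk
    rw [min_eq_right h1.le]
    ring

theorem qu_step {X : Finset ι} {c d : ι → ℝ} (hcd : ∀ i, c i ≤ d i) {p p' : ℝ} (hp : p < p')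
    (hc : ∀ i ∈ X, c i ∉ Icc p p') (hd : ∀ i ∈ X, d i ∉ Icc p p') :
    qu X c d p' ≤ max (qu X c d p + (cnt X c d p - 1) * (p' - p)) 0 := by
  unfold qu
  rw [Finset.fold_max_le]
  refine ⟨le_max_right _ _, fun k hk => ?_⟩
  rcases qk_step hcd hp hc hd hk with h | h
  · rw [h]
    have := qk_le_qu (c := c) (d := d) (p := p) hk
    unfold qu at this
    exact le_max_of_le_left (by linarith)
  · rw [h]
    exact le_max_right _ _

/-! ### The derivative -/

theorem deriv_le {f : ℝ → ℝ} {p m ε : ℝ} (hf : DifferentiableAt ℝ f p) (hε : 0 < ε)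
    (h : ∀ p', p < p' → p' < p + ε → f p' ≤ f p + m * (p' - p)) : deriv f p ≤ m := by
  have h1 : Tendsto (slope f p) (𝓝[>] p) (𝓝 (deriv f p)) :=
    (hasDerivAt_iff_tendsto_slope.1 hf.hasDerivAt).mono_left
      (nhdsWithin_mono _ fun x hx => ne_of_gt hx)
  refine le_of_tendsto h1 ?_
  filter_upwards [Ioo_mem_nhdsGT (lt_add_of_pos_right p hε)] with x hx
  rw [slope_def_field, div_le_iff₀ (sub_pos.2 hx.1)]
  linarith [h x hx.1 hx.2]

/-- the uncovered busy set -/
def G (X : Finset ι) (c d : ι → ℝ) : Set ℝ :=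
  {p : ℝ | 0 < qu X c d p ∧ ∀ i ∈ X, p ∉ Icc (c i) (d i)}

theorem deriv_bound {X : Finset ι} {c d : ι → ℝ} (hcd : ∀ i, c i ≤ d i) {p : ℝ}
    (hq : DifferentiableAt ℝ (qu X c d) p) (hp : ∀ i ∈ X, p ≠ c i ∧ p ≠ d i) :
    deriv (qu X c d) p ≤ max (cnt X c d p - 1) 0 - (G X c d).indicator (fun _ => (1 : ℝ)) p := by
  classical
  -- no endpoints near `p`
  obtain ⟨ε, hε, hεE⟩ : ∃ ε > 0, ∀ x, |x - p| < ε → ∀ i ∈ X, x ≠ c i ∧ x ≠ d i := by
    have h1 : IsClosed (((X.image c ∪ X.image d : Finset ℝ) : Set ℝ)) :=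
      (Finset.finite_toSet _).isClosed
    have h2 : p ∈ (((X.image c ∪ X.image d : Finset ℝ) : Set ℝ))ᶜ := by
      intro h
      rw [Finset.mem_coe, Finset.mem_union, Finset.mem_image, Finset.mem_image] at h
      rcases h with ⟨i, hi, h⟩ | ⟨i, hi, h⟩
      · exact (hp i hi).1 h.symm
      · exact (hp i hi).2 h.symm
    obtain ⟨ε, hε, h3⟩ := Metric.isOpen_iff.1 h1.isOpen_compl p h2
    refine ⟨ε, hε, fun x hx i hi => ?_⟩
    have h4 := h3 (show x ∈ Metric.ball p ε by rw [Metric.mem_ball, Real.dist_eq]; exact hx)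
    constructor
    · rintro rfl
      exact h4 (Finset.mem_coe.2 (Finset.mem_union_left _ (Finset.mem_image_of_mem _ hi)))
    · rintro rfl
      exact h4 (Finset.mem_coe.2 (Finset.mem_union_right _ (Finset.mem_image_of_mem _ hi)))
  have hstep : ∀ p', p < p' → p' < p + ε →
      qu X c d p' ≤ max (qu X c d p + (cnt X c d p - 1) * (p' - p)) 0 := by
    intro p' h1 h2
    have h3 : ∀ x ∈ Icc p p', |x - p| < ε := fun x hx => by
      rw [abs_of_nonneg (by linarith [hx.1])]
      linarith [hx.2]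
    exact qu_step hcd h1 (fun i hi h => (hεE _ (h3 _ h) i hi).1 rfl)
      (fun i hi h => (hεE _ (h3 _ h) i hi).2 rfl)
  have hq0 := qu_nonneg X c d p
  by_cases hG : p ∈ G X c d
  · rw [indicator_of_mem hG, cnt_zero hG.2]
    have h1 : max ((0 : ℝ) - 1) 0 = 0 := max_eq_right (by norm_num)
    rw [h1]
    rw [cnt_zero hG.2] at hstep
    refine deriv_le hq (lt_min hε hG.1) fun p' h2 h3 => ?_
    have h4 := hstep p' h2 (h3.trans_le (by linarith [min_le_left ε (qu X c d p)]))
    have h5 : p' < p + qu X c d p := h3.trans_le (by linarith [min_le_right ε (qu X c d p)])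
    rw [max_eq_left (by linarith)] at h4
    linarith
  · rw [indicator_of_notMem hG, sub_zero]
    refine deriv_le hq hε fun p' h2 h3 => (hstep p' h2 h3).trans (max_le ?_ ?_)
    · have := mul_le_mul_of_nonneg_right (le_max_left (cnt X c d p - 1) 0) (sub_pos.2 h2).le
      linarith
    · have := mul_nonneg (le_max_right (cnt X c d p - 1) 0) (sub_pos.2 h2).le
      linarith

/-! ### Integrability -/

theorem integrable_cnt (X : Finset ι) (c d : ι → ℝ) : Integrable (cnt X c d) := by
  unfold cnt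
  exact integrable_finsetSum _ fun i _ =>
    (integrable_indicator_iff measurableSet_Icc).2 (integrableOn_const (by simp))

theorem integrable_over (X : Finset ι) (c d : ι → ℝ) :
    Integrable (fun p => max (cnt X c d p - 1) 0) := by
  have hm : AEStronglyMeasurable (fun p => max (cnt X c d p - 1) 0) volume :=
    ((integrable_cnt X c d).aestronglyMeasurable.sub aestronglyMeasurable_const).sup
      aestronglyMeasurable_const
  refine (integrable_cnt X c d).mono hm (Filter.Eventually.of_forall fun p => ?_)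
  rw [Real.norm_eq_abs, Real.norm_eq_abs, abs_of_nonneg (le_max_right _ _),
    abs_of_nonneg (cnt_nonneg X c d p)]
  exact max_le (by linarith) (cnt_nonneg X c d p)

theorem measurableSet_G (X : Finset ι) (c d : ι → ℝ) : MeasurableSet (G X c d) := by
  obtain ⟨K, hK⟩ := lip_qu X c d
  have h1 : MeasurableSet {p : ℝ | 0 < qu X c d p} :=
    (isOpen_lt continuous_const hK.continuous).measurableSet
  have h2 : MeasurableSet (⋂ i ∈ X, (Icc (c i) (d i))ᶜ) :=
    Finset.measurableSet_biInter _ fun i _ => measurableSet_Icc.compl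
  have h3 : G X c d = {p : ℝ | 0 < qu X c d p} ∩ ⋂ i ∈ X, (Icc (c i) (d i))ᶜ := by
    ext p
    simp only [G, mem_ofPred_eq, mem_inter_iff, mem_iInter, mem_compl_iff]
  rw [h3]
  exact h1.inter h2

theorem qu_zero {X : Finset ι} {c d : ι → ℝ} {p : ℝ} (h : ∀ i ∈ X, p < c i) :
    qu X c d p ≤ 0 := by
  unfold qu
  rw [Finset.fold_max_le]
  refine ⟨le_rfl, fun k hk => ?_⟩
  unfold qk
  rw [min_eq_right (h k hk).le]
  linarith

end QBAux

open QBAux in
theorem pQB : S_QB := by
  intro ι X c d hcd a b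
  classical
  show volume (G X c d ∩ Icc a b) ≤ _
  obtain ⟨K, hK⟩ := lip_qu X c d
  -- the left end
  obtain ⟨α, hαa, hαc⟩ : ∃ α, α < a ∧ ∀ i ∈ X, α < c i := by
    have h1 : (((insert a (X.image c) : Finset ℝ) : Set ℝ)).Finite := Finset.finite_toSet _
    obtain ⟨m, hm⟩ := h1.bddBelow
    refine ⟨m - 1, ?_, fun i hi => ?_⟩
    · have := hm (Finset.mem_coe.2 (Finset.mem_insert_self a (X.image c)))
      linarith
    · have := hm (Finset.mem_coe.2 (Finset.mem_insert_of_mem (Finset.mem_image_of_mem c hi)))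
      linarith
  obtain ⟨β, hβ⟩ : ∃ β, β = max b α := ⟨_, rfl⟩
  have hbβ : b ≤ β := by rw [hβ]; exact le_max_left _ _
  have hαβ : α ≤ β := by rw [hβ]; exact le_max_right _ _
  have h1 : ∫ p in α..β, deriv (qu X c d) p = qu X c d β - qu X c d α :=
    (hK.lipschitzOnWith (s := uIcc α β)).absolutelyContinuousOnInterval.integral_deriv_eq_sub
  have h2 : ∀ᵐ p, deriv (qu X c d) p ≤
      max (cnt X c d p - 1) 0 - (G X c d).indicator (fun _ => (1 : ℝ)) p := by
    have h3 : ∀ᵐ p : ℝ, p ∉ (((X.image c ∪ X.image d : Finset ℝ) : Set ℝ)) :=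
      (Finset.countable_toSet _).ae_notMem volume
    filter_upwards [hK.ae_differentiableAt_real, h3] with p hp hp'
    refine deriv_bound hcd hp fun i hi => ⟨?_, ?_⟩
    · rintro rfl
      exact hp' (Finset.mem_coe.2 (Finset.mem_union_left _ (Finset.mem_image_of_mem _ hi)))
    · rintro rfl
      exact hp' (Finset.mem_coe.2 (Finset.mem_union_right _ (Finset.mem_image_of_mem _ hi)))
  have hiG : IntervalIntegrable ((G X c d).indicator (fun _ => (1 : ℝ))) volume α β := by
    rw [intervalIntegrable_iff_integrableOn_Ioc_of_le hαβ]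
    exact (integrableOn_const (C := (1 : ℝ)) (by simp)).indicator (measurableSet_G X c d)
  have hiF : IntervalIntegrable (fun p => max (cnt X c d p - 1) 0) volume α β :=
    (integrable_over X c d).intervalIntegrable
  have h4 : ∫ p in α..β, deriv (qu X c d) p ≤
      ∫ p in α..β, (max (cnt X c d p - 1) 0 - (G X c d).indicator (fun _ => (1 : ℝ)) p) :=
    intervalIntegral.integral_mono_ae hαβ
      (hK.lipschitzOnWith (s := uIcc α β)).absolutelyContinuousOnInterval.intervalIntegrable_deriv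
      (hiF.sub hiG) h2
  rw [intervalIntegral.integral_sub hiF hiG, h1] at h4
  have h5 : ∫ p in α..β, max (cnt X c d p - 1) 0 ≤ Fo X c d := by
    rw [intervalIntegral.integral_of_le hαβ]
    exact setIntegral_le_integral (integrable_over X c d)
      (Filter.Eventually.of_forall fun p => le_max_right _ _)
  have h6 : ∫ p in α..β, (G X c d).indicator (fun _ => (1 : ℝ)) p =
      (volume (G X c d ∩ Ioc α β)).toReal := by
    rw [intervalIntegral.integral_of_le hαβ, setIntegral_indicator (measurableSet_G X c d),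
      setIntegral_const, smul_eq_mul, mul_one, inter_comm]
    rfl
  have h7 := qu_nonneg X c d β
  have h8 := qu_zero (d := d) hαc
  have h9 : (volume (G X c d ∩ Ioc α β)).toReal ≤ Fo X c d := by linarith
  have h10 : volume (G X c d ∩ Ioc α β) ≠ ⊤ :=
    ((measure_mono inter_subset_right).trans_lt (by simp)).ne
  calc volume (G X c d ∩ Icc a b) ≤ volume (G X c d ∩ Ioc α β) := by
        apply measure_mono
        rintro p ⟨hp, hp'⟩
        exact ⟨hp, hαa.trans_le hp'.1, hp'.2.trans hbβ⟩
    _ ≤ ENNReal.ofReal (Fo X c d) :=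
        (ENNReal.le_ofReal_iff_toReal_le h10 (ENNReal.toReal_nonneg.trans h9)).2 h9

end Pool.Agent.OD
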