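import Pool.Agent.Lib.OD.Spec

/-!
# Opaque sets of the disc: module QC (1.3) (helper7)
-/

set_option autoImplicit false

namespace Pool.Agent.OD

open MeasureTheory Set Real Filter Topology

namespace QCAux

variable {ι : Type}

/-! ### Continuity -/

theorem cont_fold (X : Finset ι) (f : ι → ℝ → ℝ) (h : ∀ i, Continuous (f i)) :
    Continuous (fun p => X.fold max 0 (fun i => f i p)) := by
  classical
  induction X using Finset.induction_on with
  | empty =>
    simp only [Finset.fold_empty]
    exact continuous_const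
  | insert i X hi ih =>
    have h1 : (fun p => (insert i X).fold max 0 (fun i => f i p)) =
        fun p => max (f i p) (X.fold max 0 (fun i => f i p)) := by
      funext p
      rw [Finset.fold_insert hi]
    rw [h1]
    exact (h i).max ih

theorem cont_Aq (X : Finset ι) (c d : ι → ℝ) : Continuous (Aq X c d) := by
  unfold Aq
  fun_prop

theorem cont_qu (X : Finset ι) (c d : ι → ℝ) : Continuous (qu X c d) := by
  unfold qu
  apply cont_fold
  intro k
  unfold qk
  have h := cont_Aq X c d
  fun_prop

/-! ### The counting function -/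

theorem cnt_nonneg (X : Finset ι) (c d : ι → ℝ) (p : ℝ) : 0 ≤ cnt X c d p :=
  Finset.sum_nonneg fun _ _ => indicator_nonneg (fun _ _ => zero_le_one) _

theorem one_le_cnt {X : Finset ι} {c d : ι → ℝ} {p : ℝ} {i : ι} (hi : i ∈ X)
    (h : p ∈ Icc (c i) (d i)) : 1 ≤ cnt X c d p := by
  have h1 : (Icc (c i) (d i)).indicator (fun _ => (1 : ℝ)) p ≤ cnt X c d p :=
    Finset.single_le_sum (f := fun i => (Icc (c i) (d i)).indicator (fun _ => (1 : ℝ)) p)
      (fun _ _ => indicator_nonneg (fun _ _ => zero_le_one) _) hi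
  rwa [indicator_of_mem h] at h1

theorem cnt_zero {X : Finset ι} {c d : ι → ℝ} {p : ℝ}
    (h : ∀ i ∈ X, p ∉ Icc (c i) (d i)) : cnt X c d p = 0 :=
  Finset.sum_eq_zero fun i hi => indicator_of_notMem (h i hi) _

theorem integrable_cnt (X : Finset ι) (c d : ι → ℝ) : Integrable (cnt X c d) := by
  unfold cnt
  exact integrable_finsetSum _ fun i _ =>
    (integrable_indicator_iff measurableSet_Icc).2 (integrableOn_const (by simp))

theorem integrable_over (X : Finset ι) (c d : ι → ℝ) :
    Integrable (fun p => max (cnt X c d p - 1) 0) := by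
  have hm : AEStronglyMeasurable (fun p => max (cnt X c d p - 1) 0) volume :=
    ((integrable_cnt X c d).aestronglyMeasurable.sub aestronglyMeasurable_const).sup
      aestronglyMeasurable_const
  refine (integrable_cnt X c d).mono hm (Filter.Eventually.of_forall fun p => ?_)
  rw [Real.norm_eq_abs, Real.norm_eq_abs, abs_of_nonneg (le_max_right _ _),
    abs_of_nonneg (cnt_nonneg X c d p)]
  exact max_le (by linarith) (cnt_nonneg X c d p)

/-- the uncovered busy set -/
def G (X : Finset ι) (c d : ι → ℝ) : Set ℝ :=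
  {p : ℝ | 0 < qu X c d p ∧ ∀ i ∈ X, p ∉ Icc (c i) (d i)}

theorem measurableSet_G (X : Finset ι) (c d : ι → ℝ) : MeasurableSet (G X c d) := by
  have h1 : MeasurableSet {p : ℝ | 0 < qu X c d p} :=
    (isOpen_lt continuous_const (cont_qu X c d)).measurableSet
  have h2 : MeasurableSet (⋂ i ∈ X, (Icc (c i) (d i))ᶜ) :=
    Finset.measurableSet_biInter _ fun i _ => measurableSet_Icc.compl
  have h3 : G X c d = {p : ℝ | 0 < qu X c d p} ∩ ⋂ i ∈ X, (Icc (c i) (d i))ᶜ := by
    ext p
    simp only [G, mem_ofPred_eq, mem_inter_iff, mem_iInter, mem_compl_iff]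
  rw [h3]
  exact h1.inter h2

theorem measurableSet_Ub (X : Finset ι) (c d : ι → ℝ) : MeasurableSet (Ub X c d) := by
  have h1 : MeasurableSet {p : ℝ | 0 < qu X c d p} :=
    (isOpen_lt continuous_const (cont_qu X c d)).measurableSet
  have h2 : MeasurableSet (⋃ i ∈ X, Icc (c i) (d i)) :=
    Finset.measurableSet_biUnion _ fun i _ => measurableSet_Icc
  have h3 : Ub X c d = {p : ℝ | 0 < qu X c d p} ∪ ⋃ i ∈ X, Icc (c i) (d i) := by
    ext p
    simp only [Ub, mem_ofPred_eq, mem_union, mem_iUnion, exists_prop]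
  rw [h3]
  exact h1.union h2

theorem integrable_ind {S : Set ℝ} (hS : MeasurableSet S) {a b : ℝ} :
    Integrable ((S ∩ Icc a b).indicator (fun _ => (1 : ℝ))) := by
  rw [integrable_indicator_iff (hS.inter measurableSet_Icc)]
  exact integrableOn_const (((measure_mono inter_subset_right).trans_lt (by simp)).ne)

theorem integral_ind {S : Set ℝ} (hS : MeasurableSet S) {a b : ℝ} :
    ∫ p, (S ∩ Icc a b).indicator (fun _ => (1 : ℝ)) p = (volume (S ∩ Icc a b)).toReal := by
  rw [integral_indicator (hS.inter measurableSet_Icc), setIntegral_const, smul_eq_mul, mul_one]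
  rfl

end QCAux

open QCAux in
theorem pQC (hQB : S_QB) : S_QC := by
  intro ι _ X Y c d hcd hXY
  -- an interval which contains the intervals of `Y`
  obtain ⟨a, ha⟩ : ∃ a, ∀ j ∈ Y, a ≤ c j := by
    obtain ⟨m, hm⟩ := (Finset.finite_toSet (Y.image c)).bddBelow
    exact ⟨m, fun j hj => hm (Finset.mem_coe.2 (Finset.mem_image_of_mem c hj))⟩
  obtain ⟨b, hb⟩ : ∃ b, ∀ j ∈ Y, d j ≤ b := by
    obtain ⟨m, hm⟩ := (Finset.finite_toSet (Y.image d)).bddAbove
    exact ⟨m, fun j hj => hm (Finset.mem_coe.2 (Finset.mem_image_of_mem d hj))⟩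
  have h1 : (volume (G X c d ∩ Icc a b)).toReal ≤ Fo X c d := by
    have h2 := hQB ι X c d hcd a b
    have h3 : 0 ≤ Fo X c d := integral_nonneg fun p => le_max_right _ _
    have h4 := ENNReal.toReal_mono ENNReal.ofReal_ne_top h2
    rwa [ENNReal.toReal_ofReal h3] at h4
  have hU := measurableSet_Ub X c d
  have hG := measurableSet_G X c d
  have h2 : ∑ j ∈ Y, (volume (Ub X c d ∩ Icc (c j) (d j))).toReal =
      ∫ p, ∑ j ∈ Y, (Ub X c d ∩ Icc (c j) (d j)).indicator (fun _ => (1 : ℝ)) p := by
    rw [integral_finsetSum _ fun j _ => integrable_ind hU]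
    exact Finset.sum_congr rfl fun j _ => (integral_ind hU).symm
  have h3 : (∫ p, ∑ j ∈ Y, (Ub X c d ∩ Icc (c j) (d j)).indicator (fun _ => (1 : ℝ)) p) +
      Fo X c d ≤ (volume (G X c d ∩ Icc a b)).toReal + Fo (X ∪ Y) c d := by
    rw [← integral_ind hG, Fo, Fo,
      ← integral_add (integrable_finsetSum _ fun j _ => integrable_ind hU) (integrable_over X c d),
      ← integral_add (integrable_ind hG) (integrable_over (X ∪ Y) c d)]
    apply integral_mono
      ((integrable_finsetSum _ fun j _ => integrable_ind hU).add (integrable_over X c d))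
      ((integrable_ind hG).add (integrable_over (X ∪ Y) c d))
    intro p
    simp only [Pi.add_apply]
    have h4 : cnt (X ∪ Y) c d p = cnt X c d p + cnt Y c d p := Finset.sum_union hXY
    have h5 : 0 ≤ (G X c d ∩ Icc a b).indicator (fun _ => (1 : ℝ)) p :=
      indicator_nonneg (fun _ _ => zero_le_one) _
    have h6 := cnt_nonneg X c d p
    have h7 := cnt_nonneg Y c d p
    rw [h4]
    by_cases hp : p ∈ Ub X c d
    · have h8 : ∑ j ∈ Y, (Ub X c d ∩ Icc (c j) (d j)).indicator (fun _ => (1 : ℝ)) p =
          cnt Y c d p := by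
        unfold cnt
        refine Finset.sum_congr rfl fun j _ => ?_
        by_cases h : p ∈ Icc (c j) (d j)
        · have h' : p ∈ Ub X c d ∩ Icc (c j) (d j) := ⟨hp, h⟩
          rw [indicator_of_mem h, indicator_of_mem h']
        · rw [indicator_of_notMem h, indicator_of_notMem fun h' => h h'.2]
      rw [h8]
      by_cases hX : ∃ i ∈ X, p ∈ Icc (c i) (d i)
      · obtain ⟨i, hi, hpi⟩ := hX
        have h9 := one_le_cnt hi hpi
        rw [max_eq_left (by linarith : (0 : ℝ) ≤ cnt X c d p - 1),
          max_eq_left (by linarith : (0 : ℝ) ≤ cnt X c d p + cnt Y c d p - 1)]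
        linarith
      · push Not at hX
        have h9 : cnt X c d p = 0 := cnt_zero hX
        rw [h9, zero_add, max_eq_right (by norm_num : (0 : ℝ) - 1 ≤ 0)]
        by_cases hY : ∃ j ∈ Y, p ∈ Icc (c j) (d j)
        · obtain ⟨j, hj, hpj⟩ := hY
          have hpG : p ∈ G X c d ∩ Icc a b := by
            refine ⟨⟨?_, hX⟩, (ha j hj).trans hpj.1, hpj.2.trans (hb j hj)⟩
            rcases hp with hp | ⟨i, hi, hpi⟩
            · exact hp
            · exact absurd hpi (hX i hi)
          rw [indicator_of_mem hpG]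
          linarith [le_max_left (cnt Y c d p - 1) 0]
        · push Not at hY
          rw [cnt_zero hY]
          linarith [le_max_right ((0 : ℝ) - 1) 0]
    · have h8 : ∑ j ∈ Y, (Ub X c d ∩ Icc (c j) (d j)).indicator (fun _ => (1 : ℝ)) p = 0 :=
        Finset.sum_eq_zero fun j _ => indicator_of_notMem (fun h => hp h.1) _
      rw [h8, zero_add]
      have h9 : max (cnt X c d p - 1) 0 ≤ max (cnt X c d p + cnt Y c d p - 1) 0 :=
        max_le_max (by linarith) le_rfl
      linarith
  rw [h2]
  linarith

end Pool.Agent.OD
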