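import Pool.Agent.Lib.OD.Spec

set_option autoImplicit false

namespace Pool.Agent.OD

open MeasureTheory Set Real

theorem pRA : S_RA := by
  intro P P' z L θ h
  have e1 : 2 * pr z θ - (pr P θ + pr P' θ) = pr (z - P) θ + pr (z - P') θ := by
    rw [pr_sub, pr_sub]; ring
  have e2 : P' - P = (z - P) - (z - P') := by abel
  rw [e1, e2]
  generalize z - P = u at h ⊢
  generalize z - P' = v at h ⊢
  have hu := pr_sq_add_en_sq u θ
  have hv := pr_sq_add_en_sq v θ
  have hw := pr_sq_add_en_sq (u - v) θ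
  have n1 := nm_nonneg u
  have n2 := nm_nonneg v
  have n3 := nm_nonneg (u - v)
  have hL : 0 ≤ L := by linarith
  have h3 : nm (u - v) ≤ L := (nm_sub_le u v).trans h
  have hS : 0 ≤ L ^ 2 - nm (u - v) ^ 2 := by nlinarith
  have cs : pr u θ * pr v θ - en u θ * en v θ ≤ nm u * nm v := by
    apply le_of_sq_le_sq _ (mul_nonneg n1 n2)
    have : (nm u * nm v) ^ 2 = (pr u θ ^ 2 + en u θ ^ 2) * (pr v θ ^ 2 + en v θ ^ 2) := by
      rw [hu, hv]; ring
    rw [this]
    nlinarith [sq_nonneg (pr u θ * en v θ + en u θ * pr v θ)]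
  have key : (pr u θ + pr v θ) ^ 2 ≤ |pr (u - v) θ| ^ 2 + √(L ^ 2 - nm (u - v) ^ 2) ^ 2 := by
    rw [sq_abs, Real.sq_sqrt hS]
    have h5 : (nm u + nm v) ^ 2 ≤ L ^ 2 := by nlinarith
    have h6 : en (u - v) θ = en u θ - en v θ := en_sub u v θ
    rw [h6] at hw
    nlinarith
  have hs := Real.sqrt_nonneg (L ^ 2 - nm (u - v) ^ 2)
  have ha := abs_nonneg (pr (u - v) θ)
  apply abs_le_of_sq_le_sq _ (by positivity)
  nlinarith [mul_nonneg ha hs]

end Pool.Agent.OD
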