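import Pool.Agent.Lib.OD.Spec

set_option autoImplicit false

namespace Pool.Agent.OD

open MeasureTheory Set Real

namespace RBAux

theorem nm_toP (x y : E2) : nm (toP x - toP y) = dist x y := by
  rw [EuclideanSpace.dist_eq, Fin.sum_univ_two, nm]
  congr 1
  simp only [toP, Prod.fst_sub, Prod.snd_sub, Real.dist_eq, sq_abs]

/-- The uncovered part of one shadow. -/
theorem vol_part (c d s : ℝ) (hs : 0 ≤ s) :
    volume {p : ℝ | |2 * p - (c + d)| ≤ |d - c| + s ∧ p ∉ Icc (min c d) (max c d)} ≤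
      ENNReal.ofReal s := by
  have hsub : {p : ℝ | |2 * p - (c + d)| ≤ |d - c| + s ∧ p ∉ Icc (min c d) (max c d)} ⊆
      Icc (min c d - s / 2) (min c d) ∪ Icc (max c d) (max c d + s / 2) := by
    rintro p ⟨h1, h2⟩
    have h3 : |d - c| = max c d - min c d := by rw [max_sub_min_eq_abs]
    have h4 : c + d = max c d + min c d := by rw [add_comm (max c d), min_add_max]
    rw [h3, h4, abs_le] at h1
    rw [mem_Icc, not_and_or, not_le, not_le] at h2
    rcases h2 with h2 | h2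
    · exact Or.inl ⟨by linarith, h2.le⟩
    · exact Or.inr ⟨h2.le, by linarith⟩
  refine (measure_mono hsub).trans ((measure_union_le _ _).trans ?_)
  rw [Real.volume_Icc, Real.volume_Icc, ← ENNReal.ofReal_add (by linarith) (by linarith)]
  apply ENNReal.ofReal_le_ofReal
  linarith

/-- A partition of `[0,1]` with almost the whole variation. -/
theorem exists_partition (γ : ℝ → E2) (hγ : eVariationOn γ (Icc 0 1) ≠ ⊤) (δ : ℝ) (hδ : 0 < δ) :
    ∃ (n : ℕ) (E : ℕ → ℝ), Monotone E ∧ E 0 = 0 ∧ E n = 1 ∧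
      eVariationOn γ (Icc 0 1) <
        (∑ i ∈ Finset.range n, edist (γ (E (i + 1))) (γ (E i))) + ENNReal.ofReal δ := by
  have h1 : eVariationOn γ (Icc 0 1) < eVariationOn γ (Icc 0 1) + ENNReal.ofReal δ :=
    ENNReal.lt_add_right hγ (by simpa using hδ)
  have h2 : eVariationOn γ (Icc 0 1) + ENNReal.ofReal δ =
      ⨆ p : ℕ × { u : ℕ → ℝ // Monotone u ∧ ∀ i, u i ∈ Icc (0 : ℝ) 1 },
        ((∑ i ∈ Finset.range p.1, edist (γ (p.2.1 (i + 1))) (γ (p.2.1 i))) + ENNReal.ofReal δ) := by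
    have : Nonempty (ℕ × { u : ℕ → ℝ // Monotone u ∧ ∀ i, u i ∈ Icc (0 : ℝ) 1 }) :=
      ⟨(0, ⟨fun _ => 0, fun _ _ _ => le_rfl, fun _ => ⟨le_rfl, zero_le_one⟩⟩)⟩
    rw [eVariationOn, ENNReal.iSup_add]
  rw [h2] at h1
  obtain ⟨⟨n, u, hu, hu01⟩, hp⟩ := lt_iSup_iff.1 h1
  simp only at hp
  let E : ℕ → ℝ := fun k => match k with
    | 0 => 0
    | (i + 1) => if i ≤ n then u i else 1
  have hE0 : E 0 = 0 := rfl
  have hEs : ∀ i, E (i + 1) = if i ≤ n then u i else 1 := fun i => rfl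
  have hEm : Monotone E := by
    apply monotone_nat_of_le_succ
    intro k
    cases k with
    | zero =>
      rw [hE0, hEs, if_pos (Nat.zero_le n)]
      exact (hu01 0).1
    | succ i =>
      rw [hEs, hEs]
      by_cases h : i + 1 ≤ n
      · rw [if_pos h, if_pos (by omega)]
        exact hu (Nat.le_succ i)
      · rw [if_neg h]
        split_ifs
        · exact (hu01 i).2
        · exact le_rfl
  refine ⟨n + 2, E, hEm, hE0, by rw [hEs, if_neg (by omega)], lt_of_lt_of_le hp ?_⟩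
  gcongr
  rw [Finset.sum_range_succ', Finset.sum_range_succ]
  refine le_trans (le_trans ?_ (le_add_right le_rfl)) (le_add_right le_rfl)
  apply Finset.sum_le_sum
  intro i hi
  rw [Finset.mem_range] at hi
  rw [hEs, hEs, if_pos (by omega), if_pos (by omega)]

/-- A point of `[0, 1]` is in one of the parts. -/
theorem exists_part (n : ℕ) (E : ℕ → ℝ) (t : ℝ) (h0 : E 0 ≤ t) (hn : t ≤ E n) (hn0 : 0 < n) :
    ∃ m : Fin n, E m ≤ t ∧ t ≤ E (m + 1) := by
  by_contra hcon
  push Not at hcon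
  have key : ∀ k, k < n → E k ≤ t := by
    intro k
    induction k with
    | zero => intro _; exact h0
    | succ k ih =>
      intro hk
      exact (hcon ⟨k, by omega⟩ (ih (by omega))).le
  have h1 := hcon ⟨n - 1, by omega⟩ (key (n - 1) (by omega))
  have h2 : (n - 1) + 1 = n := by omega
  simp only [h2] at h1
  linarith

end RBAux

open RBAux

theorem pRB : S_RA → S_RB := by
  intro hRA γ δ hγ hδ
  set V : ENNReal := eVariationOn γ (Icc 0 1) with hV
  set L : ℝ := V.toReal with hL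
  have hL0 : 0 ≤ L := ENNReal.toReal_nonneg
  set del : ℝ := δ ^ 2 / (2 * L + 1) with hdel
  have hdelpos : 0 < del := by positivity
  obtain ⟨n, E, hE, hE0, hEn, hlt⟩ := exists_partition γ hγ del hdelpos
  have hn0 : 0 < n := by
    rcases Nat.eq_zero_or_pos n with h | h
    · rw [h, hE0] at hEn; norm_num at hEn
    · exact h
  -- the variations of the parts
  have hsum : ∑ i ∈ Finset.range n, eVariationOn γ (Icc (E i) (E (i + 1))) = V := by
    rw [eVariationOn.sum' γ hE, hE0, hEn]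
  have hfin : ∀ i ∈ Finset.range n, eVariationOn γ (Icc (E i) (E (i + 1))) ≠ ⊤ := by
    intro i hi h
    apply hγ
    rw [← hsum]
    exact ENNReal.sum_eq_top.2 ⟨i, hi, h⟩
  set Lm : Fin n → ℝ := fun i => (eVariationOn γ (Icc (E i) (E (i + 1)))).toReal with hLm
  set lm : Fin n → ℝ := fun i => dist (γ (E (i + 1))) (γ (E i)) with hlm
  have hsumL : ∑ i, Lm i = L := by
    rw [hL, ← hsum, ENNReal.toReal_sum hfin, Finset.sum_range]
  have hsuml : L < ∑ i, lm i + del := by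
    have h1 : (∑ i ∈ Finset.range n, edist (γ (E (i + 1))) (γ (E i))) =
        ENNReal.ofReal (∑ i, lm i) := by
      rw [ENNReal.ofReal_sum_of_nonneg (fun i _ => dist_nonneg), Finset.sum_range]
      exact Finset.sum_congr rfl fun i _ => edist_dist _ _
    rw [h1, ← ENNReal.ofReal_add (Finset.sum_nonneg fun i _ => dist_nonneg) hdelpos.le] at hlt
    have h2 := ENNReal.toReal_strict_mono ENNReal.ofReal_ne_top hlt
    rwa [ENNReal.toReal_ofReal (add_nonneg (Finset.sum_nonneg fun i _ => dist_nonneg)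
      hdelpos.le)] at h2
  have hbound : ∀ (i : Fin n) (x y : ℝ), E i ≤ x → x ≤ y → y ≤ E (i + 1) →
      eVariationOn γ (Icc x y) ≠ ⊤ := by
    intro i x y h1 _ h3
    exact ne_top_of_le_ne_top (hfin i (Finset.mem_range.2 i.2))
      (eVariationOn.mono γ (Icc_subset_Icc h1 h3))
  have hd : ∀ (i : Fin n) (x y : ℝ), E i ≤ x → x ≤ y → y ≤ E (i + 1) →
      dist (γ x) (γ y) ≤ (eVariationOn γ (Icc x y)).toReal := by
    intro i x y h1 h2 h3
    rw [dist_edist]
    exact ENNReal.toReal_mono (hbound i x y h1 h2 h3)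
      (eVariationOn.edist_le γ (left_mem_Icc.2 h2) (right_mem_Icc.2 h2))
  have hEi : ∀ i : Fin n, E i ≤ E (i + 1) := fun i => hE (Nat.le_succ _)
  have hlL : ∀ i, lm i ≤ Lm i := by
    intro i
    rw [hlm]
    show dist (γ (E (i + 1))) (γ (E i)) ≤ Lm i
    rw [dist_comm]
    exact hd i _ _ le_rfl (hEi i) le_rfl
  have hlm0 : ∀ i, 0 ≤ lm i := fun i => dist_nonneg
  have hnm : ∀ i : Fin n, nm (toP (γ (E (i + 1))) - toP (γ (E i))) = lm i := fun i => nm_toP _ _
  refine ⟨n, fun i => toP (γ (E i)), fun i => toP (γ (E (i + 1))), ?_, ?_⟩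
  · rw [len]
    show ∑ i : Fin n, nm (toP (γ (E (i + 1))) - toP (γ (E i))) ≤ L
    rw [← hsumL]
    exact Finset.sum_le_sum fun i _ => by rw [hnm]; exact hlL i
  intro θ
  -- the excess of the part `i`
  set s : Fin n → ℝ := fun i => √(Lm i ^ 2 - lm i ^ 2) with hs
  have hsub : {p : ℝ | (∃ t ∈ Icc (0 : ℝ) 1, pr (toP (γ t)) θ = p) ∧
      ∀ i : Fin n, p ∉ Icc (lo (fun i : Fin n => toP (γ (E i)))
        (fun i : Fin n => toP (γ (E (i + 1)))) θ i)
        (hi (fun i : Fin n => toP (γ (E i))) (fun i : Fin n => toP (γ (E (i + 1)))) θ i)} ⊆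
      ⋃ i : Fin n, {p : ℝ | |2 * p - (pr (toP (γ (E i))) θ + pr (toP (γ (E (i + 1)))) θ)| ≤
        |pr (toP (γ (E (i + 1)))) θ - pr (toP (γ (E i))) θ| + s i ∧
        p ∉ Icc (min (pr (toP (γ (E i))) θ) (pr (toP (γ (E (i + 1)))) θ))
          (max (pr (toP (γ (E i))) θ) (pr (toP (γ (E (i + 1)))) θ))} := by
    rintro p ⟨⟨t, ht, rfl⟩, hp⟩
    obtain ⟨m, hm1, hm2⟩ := exists_part n E t (by rw [hE0]; exact ht.1) (by rw [hEn]; exact ht.2) hn0
    refine mem_iUnion.2 ⟨m, ?_, hp m⟩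
    have h1 : nm (toP (γ t) - toP (γ (E m))) + nm (toP (γ t) - toP (γ (E (m + 1)))) ≤ Lm m := by
      rw [nm_toP, nm_toP, dist_comm (γ t) (γ (E m))]
      have h2 := hd m (E m) t le_rfl hm1 hm2
      have h3 := hd m t (E (m + 1)) hm1 hm2 le_rfl
      have h4 : (eVariationOn γ (Icc (E m) t)).toReal + (eVariationOn γ (Icc t (E (m + 1)))).toReal
          = Lm m := by
        rw [hLm, ← ENNReal.toReal_add (hbound m _ _ le_rfl hm1 hm2) (hbound m _ _ hm1 hm2 le_rfl)]
        congr 1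
        have h5 := eVariationOn.Icc_add_Icc γ (s := univ) hm1 hm2 (mem_univ t)
        simpa using h5
      linarith
    have h6 := hRA (toP (γ (E m))) (toP (γ (E (m + 1)))) (toP (γ t)) (Lm m) θ h1
    rw [hnm, pr_sub] at h6
    exact h6
  refine (measure_mono hsub).trans ((measure_iUnion_fintype_le _ _).trans ?_)
  refine (Finset.sum_le_sum fun i _ => vol_part _ _ (s i) (Real.sqrt_nonneg _)).trans ?_
  rw [← ENNReal.ofReal_sum_of_nonneg (fun i _ => Real.sqrt_nonneg _)]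
  apply ENNReal.ofReal_le_ofReal
  have hcs := Real.sum_sqrt_mul_sqrt_le (Finset.univ : Finset (Fin n))
    (f := fun i => Lm i - lm i) (g := fun i => Lm i + lm i)
    (fun i => sub_nonneg.2 (hlL i)) (fun i => add_nonneg ((hlm0 i).trans (hlL i)) (hlm0 i))
  have h1 : ∀ i, s i = √(Lm i - lm i) * √(Lm i + lm i) := by
    intro i
    rw [← Real.sqrt_mul (sub_nonneg.2 (hlL i))]
    show √(Lm i ^ 2 - lm i ^ 2) = √((Lm i - lm i) * (Lm i + lm i))
    rw [show Lm i ^ 2 - lm i ^ 2 = (Lm i - lm i) * (Lm i + lm i) by ring]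
  have h2 : ∑ i, s i = ∑ i, √(Lm i - lm i) * √(Lm i + lm i) := Finset.sum_congr rfl fun i _ => h1 i
  have h3 : ∑ i, (Lm i - lm i) ≤ del := by
    rw [Finset.sum_sub_distrib, hsumL]
    linarith
  have h4 : ∑ i, (Lm i + lm i) ≤ 2 * L := by
    rw [Finset.sum_add_distrib, hsumL]
    have : ∑ i, lm i ≤ L := by
      rw [← hsumL]
      exact Finset.sum_le_sum fun i _ => hlL i
    linarith
  have h5 : √del * √(2 * L) ≤ δ := by
    rw [← Real.sqrt_mul hdelpos.le]
    apply Real.sqrt_le_iff.2 ⟨hδ.le, ?_⟩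
    rw [hdel, div_mul_eq_mul_div, div_le_iff₀ (by positivity)]
    nlinarith [sq_nonneg δ]
  calc ∑ i, s i = ∑ i, √(Lm i - lm i) * √(Lm i + lm i) := h2
    _ ≤ √(∑ i, (Lm i - lm i)) * √(∑ i, (Lm i + lm i)) := hcs
    _ ≤ √del * √(2 * L) := by gcongr
    _ ≤ δ := h5

end Pool.Agent.OD
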