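import Pool.Agent.Lib.OD.Spec

set_option autoImplicit false

namespace Pool.Agent.OD

open MeasureTheory Set Real

namespace RCAux

/-- A point between two numbers. -/
theorem exists_param {A B p : ℝ} (h : p ∈ Icc (min A B) (max A B)) :
    ∃ τ : ℝ, 0 ≤ τ ∧ τ ≤ 1 ∧ p = A + τ * (B - A) := by
  have h' : p ∈ segment ℝ A B := by
    rw [segment_eq_uIcc]; exact h
  rw [segment_eq_image'] at h'
  obtain ⟨τ, hτ, rfl⟩ := h'
  exact ⟨τ, hτ.1, hτ.2, rfl⟩

theorem exists_cell {τ : ℝ} (h0 : 0 ≤ τ) (h1 : τ ≤ 1) (N : ℕ) (hN : 0 < N) :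
    ∃ k : Fin N, (k : ℝ) / N ≤ τ ∧ τ ≤ ((k : ℝ) + 1) / N := by
  have hN' : (0 : ℝ) < N := by exact_mod_cast hN
  by_cases h : ⌊τ * N⌋₊ < N
  · refine ⟨⟨⌊τ * N⌋₊, h⟩, ?_, ?_⟩
    · rw [div_le_iff₀ hN']
      exact Nat.floor_le (by positivity)
    · rw [le_div_iff₀ hN']
      exact (Nat.lt_floor_add_one _).le
  · have h2 : (N : ℝ) ≤ τ * N := by
      have := Nat.floor_le (show 0 ≤ τ * N by positivity)
      have h3 : (N : ℝ) ≤ (⌊τ * N⌋₊ : ℝ) := by exact_mod_cast (not_lt.1 h)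
      linarith
    have h4 : τ = 1 := by
      apply le_antisymm h1
      by_contra hc
      push Not at hc
      nlinarith
    refine ⟨⟨N - 1, by omega⟩, ?_, ?_⟩
    · rw [div_le_iff₀ hN', h4, one_mul]
      have : ((N - 1 : ℕ) : ℝ) ≤ N := by exact_mod_cast Nat.sub_le N 1
      exact this
    · rw [le_div_iff₀ hN', h4, one_mul]
      have : ((N - 1 : ℕ) : ℝ) + 1 = N := by
        have : N - 1 + 1 = N := by omega
        exact_mod_cast this
      show (N : ℝ) ≤ ((N - 1 : ℕ) : ℝ) + 1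
      rw [this]

theorem mem_minmax {A v τ s t : ℝ} (h1 : s ≤ τ) (h2 : τ ≤ t) :
    A + τ * v ∈ Icc (min (A + s * v) (A + t * v)) (max (A + s * v) (A + t * v)) := by
  rcases le_total 0 v with hv | hv
  · constructor
    · exact (min_le_left _ _).trans (by nlinarith)
    · exact le_trans (by nlinarith) (le_max_right _ _)
  · constructor
    · exact (min_le_right _ _).trans (by nlinarith)
    · exact le_trans (by nlinarith) (le_max_left _ _)

end RCAux

open RCAux in
theorem pRC : S_RC := by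
  intro ι _ a b η hη
  obtain ⟨N, hN, hN2⟩ : ∃ N : ℕ, 0 < N ∧ ∀ i, nm (b i - a i) ≤ N * η := by
    obtain ⟨N, hN⟩ := exists_nat_ge ((∑ i, nm (b i - a i)) / η)
    refine ⟨N + 1, by omega, fun i => ?_⟩
    rw [div_le_iff₀ hη] at hN
    have h1 : nm (b i - a i) ≤ ∑ i, nm (b i - a i) :=
      Finset.single_le_sum (f := fun i => nm (b i - a i)) (fun i _ => nm_nonneg _)
        (Finset.mem_univ i)
    push_cast
    nlinarith
  have hN' : (0 : ℝ) < N := by exact_mod_cast hN
  refine ⟨ι × Fin N, inferInstance, fun x => a x.1 + ((x.2 : ℝ) / N) • (b x.1 - a x.1),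
    fun x => a x.1 + (((x.2 : ℝ) + 1) / N) • (b x.1 - a x.1), ?_, ?_, ?_⟩
  · rintro ⟨i, k⟩
    have e : a i + (((k : ℝ) + 1) / N) • (b i - a i) - (a i + ((k : ℝ) / N) • (b i - a i)) =
        ((1 : ℝ) / N) • (b i - a i) := by
      rw [add_sub_add_left_eq_sub, ← sub_smul]
      congr 1
      ring
    show nm (a i + (((k : ℝ) + 1) / N) • (b i - a i) - (a i + ((k : ℝ) / N) • (b i - a i))) ≤ η
    rw [e, nm_smul, abs_of_pos (by positivity), one_div, inv_mul_le_iff₀ hN']
    exact hN2 i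
  · unfold len
    rw [Fintype.sum_prod_type]
    refine Finset.sum_congr rfl fun i _ => ?_
    have e : ∀ k : Fin N, nm (a i + (((k : ℝ) + 1) / N) • (b i - a i) -
        (a i + ((k : ℝ) / N) • (b i - a i))) = (1 / N) * nm (b i - a i) := by
      intro k
      have e : a i + (((k : ℝ) + 1) / N) • (b i - a i) - (a i + ((k : ℝ) / N) • (b i - a i)) =
          ((1 : ℝ) / N) • (b i - a i) := by
        rw [add_sub_add_left_eq_sub, ← sub_smul]
        congr 1
        ring
      rw [e, nm_smul, abs_of_pos (by positivity)]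
    rw [Finset.sum_congr rfl fun k _ => e k, Finset.sum_const, Finset.card_univ, Fintype.card_fin,
      nsmul_eq_mul]
    field_simp
  · rintro θ p ⟨i, hi⟩
    obtain ⟨τ, h0, h1, rfl⟩ := exists_param hi
    obtain ⟨k, hk1, hk2⟩ := exists_cell h0 h1 N hN
    refine ⟨(i, k), ?_⟩
    show pr (a i) θ + τ * (pr (b i) θ - pr (a i) θ) ∈
      Icc (min (pr (a i + ((k : ℝ) / N) • (b i - a i)) θ)
        (pr (a i + (((k : ℝ) + 1) / N) • (b i - a i)) θ))
        (max (pr (a i + ((k : ℝ) / N) • (b i - a i)) θ)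
        (pr (a i + (((k : ℝ) + 1) / N) • (b i - a i)) θ))
    rw [pr_add, pr_smul, pr_add, pr_smul, pr_sub]
    exact mem_minmax hk1 hk2

end Pool.Agent.OD
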