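import Pool.Agent.Lib.OD.Spec

set_option autoImplicit false

namespace Pool.Agent.OD

open MeasureTheory Set Real Filter Topology

namespace RDAux

theorem pr_eq_nm_le (x y : E2) (θ : ℝ) : |pr (toP x) θ - pr (toP y) θ| ≤ dist x y := by
  rw [← pr_sub]
  refine (abs_pr_le _ _).trans (le_of_eq ?_)
  rw [EuclideanSpace.dist_eq, Fin.sum_univ_two, nm]
  congr 1
  simp only [toP, Prod.fst_sub, Prod.snd_sub, Real.dist_eq, sq_abs]

theorem vol_shadow (f : ℝ → E2) (θ : ℝ) :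
    volume {p : ℝ | ∃ t ∈ Icc (0 : ℝ) 1, pr (toP (f t)) θ = p} ≤
      eVariationOn f (Icc 0 1) := by
  refine (Real.volume_le_diam _).trans ?_
  refine Metric.ediam_le ?_
  rintro _ ⟨t, ht, rfl⟩ _ ⟨s, hs, rfl⟩
  refine le_trans ?_ (eVariationOn.edist_le f ht hs)
  rw [edist_dist, edist_dist, Real.dist_eq]
  exact ENNReal.ofReal_le_ofReal (pr_eq_nm_le _ _ _)

end RDAux

open RDAux in
theorem pRD : S_Fin → S_RB → S_RC → S_RD := by
  intro hFin hRB hRC γ hcov
  by_contra hc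
  push Not at hc
  set V : ℕ → ENNReal := fun k => eVariationOn (γ k) (Icc 0 1) with hVdef
  have hVtop : ∑' k, V k ≠ ⊤ := (hc.trans ENNReal.ofReal_lt_top).ne
  have hV : ∀ k, V k ≠ ⊤ := ENNReal.ne_top_of_tsum_ne_top hVtop
  obtain ⟨K, hK⟩ : ∃ K : ℕ, ∑' k, V (k + K) ≤ ENNReal.ofReal (1 / 100000) := by
    have h1 := ENNReal.tendsto_sum_nat_add V hVtop
    have h2 : (0 : ENNReal) < ENNReal.ofReal (1 / 100000) := by
      rw [ENNReal.ofReal_pos]; norm_num
    exact ((h1.eventually (gt_mem_nhds h2)).exists).imp fun K hK => hK.le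
  have hRB' := fun k => hRB (γ k) (1 / (100000 * (K + 1))) (hV k) (by positivity)
  choose n a b hlen hvol using hRB'
  obtain ⟨κ, hκ, a', b', h1, h2, h3⟩ := hRC (Σ k : Fin K, Fin (n k))
    (fun x => a x.1 x.2) (fun x => b x.1 x.2) (1 / 10000) (by norm_num)
  have hC : Cov a' b' (1 / 10000) (1 / 10000) := by
    refine ⟨by norm_num, by norm_num, h1, fun θ => ?_⟩
    have hsub : {p : ℝ | p ∈ Icc (-1 : ℝ) 1 ∧ ∀ i, p ∉ Icc (lo a' b' θ i) (hi a' b' θ i)} ⊆
        (⋃ k : Fin K, {p : ℝ | (∃ t ∈ Icc (0 : ℝ) 1, pr (toP (γ k t)) θ = p) ∧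
          ∀ i, p ∉ Icc (lo (a k) (b k) θ i) (hi (a k) (b k) θ i)}) ∪
        ⋃ j : ℕ, {p : ℝ | ∃ t ∈ Icc (0 : ℝ) 1, pr (toP (γ (j + K) t)) θ = p} := by
      rintro p ⟨hp1, hp2⟩
      obtain ⟨k, t, ht, hpt⟩ := hcov θ p (abs_le.2 hp1)
      by_cases hk : k < K
      · left
        refine mem_iUnion.2 ⟨⟨k, hk⟩, ⟨t, ht, hpt⟩, fun i hi' => ?_⟩
        obtain ⟨i', hi''⟩ := h3 θ p ⟨⟨⟨k, hk⟩, i⟩, hi'⟩
        exact hp2 i' hi''
      · right
        refine mem_iUnion.2 ⟨k - K, t, ht, ?_⟩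
        have : k - K + K = k := by omega
        rw [this]; exact hpt
    refine (measure_mono hsub).trans ((measure_union_le _ _).trans ?_)
    have e1 : volume (⋃ k : Fin K, {p : ℝ | (∃ t ∈ Icc (0 : ℝ) 1, pr (toP (γ k t)) θ = p) ∧
          ∀ i, p ∉ Icc (lo (a k) (b k) θ i) (hi (a k) (b k) θ i)}) ≤
        ENNReal.ofReal (1 / 100000) := by
      refine (measure_iUnion_fintype_le _ _).trans ?_
      refine (Finset.sum_le_sum (s := Finset.univ) fun (k : Fin K) _ => hvol (k : ℕ) θ).trans ?_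
      rw [Finset.sum_const, Finset.card_univ, Fintype.card_fin, nsmul_eq_mul,
        ← ENNReal.ofReal_natCast, ← ENNReal.ofReal_mul (by positivity)]
      apply ENNReal.ofReal_le_ofReal
      rw [mul_one_div, div_le_div_iff₀ (by positivity) (by positivity)]
      nlinarith
    have e2 : volume (⋃ j : ℕ, {p : ℝ | ∃ t ∈ Icc (0 : ℝ) 1, pr (toP (γ (j + K) t)) θ = p}) ≤
        ENNReal.ofReal (1 / 100000) := by
      refine (measure_iUnion_le _).trans (le_trans ?_ hK)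
      exact ENNReal.tsum_le_tsum fun j => vol_shadow _ _
    refine (add_le_add e1 e2).trans ?_
    rw [← ENNReal.ofReal_add (by norm_num) (by norm_num)]
    exact ENNReal.ofReal_le_ofReal (by norm_num)
  have hF := hFin κ a' b' hC
  rw [h2] at hF
  have hlen' : len (fun x : (Σ k : Fin K, Fin (n k)) => a x.1 x.2) (fun x => b x.1 x.2)
      Finset.univ ≤ (∑' k, V k).toReal := by
    have e1 : len (fun x : (Σ k : Fin K, Fin (n k)) => a x.1 x.2) (fun x => b x.1 x.2)
        Finset.univ = ∑ k : Fin K, len (a k) (b k) Finset.univ := by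
      unfold len
      rw [← Finset.univ_sigma_univ, Finset.sum_sigma]
    rw [e1]
    refine (Finset.sum_le_sum (s := Finset.univ) fun (k : Fin K) _ => hlen (k : ℕ)).trans ?_
    rw [Fin.sum_univ_eq_sum_range (fun k => (eVariationOn (γ k) (Icc 0 1)).toReal) K,
      ← ENNReal.toReal_sum (fun k _ => hV k)]
    exact ENNReal.toReal_mono hVtop (ENNReal.sum_le_tsum _)
  have hlt : (∑' k, V k).toReal < π + 1 / 250 := ENNReal.toReal_lt_of_lt_ofReal hc
  linarith

end Pool.Agent.OD
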