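import Pool.Agent.Lib.OD.Base

/-!
# Opaque sets of the disc: the statements

THEOREM.  Let `γ k : [0,1] → ℝ²` (`k ∈ ℕ`) be continuous and suppose that every line that meets the closed
unit disc meets `⋃ γ k ([0,1])`.  Then `∑ length (γ k) ≥ π + 1/250`.

The proof is in `TEXT.md` (same folder); the numbers in the docstrings refer to it.
All modules are independent: statements used are hypotheses.  Each module has the form
`theorem pX : S_Y → S_Z → … → S_X` in the namespace `Pool.Agent.OD`, in the file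
`Pool/Agent/Lib/OD/X.lean` (import `Pool.Agent.Lib.OD.Spec`); the used statements are listed as (from …).
-/

set_option autoImplicit false

namespace Pool.Agent.OD

open MeasureTheory Set Real

/-! ## Part 1: one direction, intervals `[c i, d i]` on the line -/

/-- **One** (1.1).  Proof.  `cnt` is a sum of indicators, so `∫ cnt = ∑ (d i - c i) = M` (over `univ`); `cnt` has natural values, so
`cnt = min cnt 1 + max (cnt - 1) 0`, and `min cnt 1` is the indicator of `E = ⋃ [c i, d i]`.  With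
`E1 = E ∩ [-1,1]`: `|E1| ≥ 2 - ε` (hypothesis), so `Fo univ + |E \ [-1,1]| = M - |E1| ≤ M - 2 + ε`.  For a subset `X`:
`cnt X ≤ cnt univ` pointwise, so `Fo X ≤ Fo univ ≤ M - 2 + ε`.  For `O`: `∑_O (d i - c i) = ∫ cnt O ≤ ∫_{|p| > 1} cnt univ =
|E \ [-1,1]| + ∫_{|p|>1} max (cnt univ - 1) 0 ≤ M - 2 + ε` (`cnt O = 0` on `[-1,1]`). -/
def S_One : Prop := ∀ (ι : Type) [Fintype ι] (c d : ι → ℝ) (ε : ℝ), (∀ i, c i ≤ d i) → 0 ≤ ε →
  volume {p : ℝ | p ∈ Icc (-1 : ℝ) 1 ∧ ∀ i, p ∉ Icc (c i) (d i)} ≤ ENNReal.ofReal ε →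
  (∀ X : Finset ι, Fo X c d ≤ ∑ i, (d i - c i) - 2 + ε) ∧
  (∀ O : Finset ι, (∀ i ∈ O, ∀ p ∈ Icc (c i) (d i), 1 < |p|) →
    ∑ i ∈ O, (d i - c i) ≤ ∑ i, (d i - c i) - 2 + ε)

/-- **QA** (1.2(a) and the formula for `Aq`).  Proof.  `∫_s^p indicator [c,d] = (max (p-c) 0 - max (p-d) 0) - (max (s-c) 0 - max (s-d) 0)` for `s ≤ p`,
`c ≤ d` (the length of `[c,d] ∩ (s,p]`), sum over `i`.  `q ≥ 0`: `Finset.le_fold_max`.  `q ≤ Fo`: `Finset.fold_max_le`;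
`Fo ≥ 0`, and `qk k p = ∫_m^p (cnt - 1) ≤ ∫_m^p max (cnt - 1) 0 ≤ Fo` with `m = min (c k) p ≤ p`.  (`max (cnt - 1) 0` is bounded
with bounded support, so integrable.) -/
def S_QA : Prop := ∀ (ι : Type) (X : Finset ι) (c d : ι → ℝ), (∀ i, c i ≤ d i) →
  (∀ s p, s ≤ p → Aq X c d p - Aq X c d s = ∫ x in s..p, cnt X c d x) ∧
  (∀ p, 0 ≤ qu X c d p ∧ qu X c d p ≤ Fo X c d)

/-- **QB** (1.2(b), (c), (d)) (from QA).  Proof.  (b) For `p ≤ p'`: `q p' ≤ q p + ∫_p^p' max (cnt - 1) 0`: `fold_max_le`, for each `k ∈ X`: if `c k ≤ p` then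
`qk k p' = qk k p + ∫_p^p' (cnt - 1)` and `qk k p ≤ q p`; if `p < c k ≤ p'` then `qk k p' = ∫_{c k}^p' (cnt - 1) ≤ ∫_p^p' max (cnt - 1) 0`;
if `p' < c k` then `qk k p' = 0`.  (c) If `cnt = 0` on `[p,p']` (no interval meets `[p,p']`) and `q p' > 0` then `q p' ≤ q p - (p' - p)`: the maximum
is attained at some `k ∈ X` with `qk k p' > 0`, so `c k < p'`, so `c k < p` and `qk k p' = qk k p - (p' - p) ≤ q p - (p' - p)`.
(d) `q` is Lipschitz (a maximum of Lipschitz functions), so absolutely continuous.  Enlarge: let `α < β`, `α < c i`, `[a,b] ⊆ [α,β]`.  `q α = 0`, `q β ≥ 0`, so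
`0 ≤ ∫_α^β deriv q` (`AbsolutelyContinuousOnInterval.integral_deriv_eq_sub`).  For a.e. `p` in `[α,β]`: `q` is differentiable at `p` and `p` is not one of
the finitely many `c i`, `d i`; then `cnt` is constant near `p`, and (b) gives `deriv q p ≤ max (cnt p - 1) 0`; and if `q p > 0` and `p` is in
no `[c i, d i]`, `i ∈ X`, then (c) gives `deriv q p ≤ -1`.  So `deriv q ≤ max (cnt - 1) 0 - indicator G`, `G` the set in question,
and `0 ≤ Fo - |G|`.  (`G` is measurable: `q` is continuous.) -/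
def S_QB : Prop := ∀ (ι : Type) (X : Finset ι) (c d : ι → ℝ), (∀ i, c i ≤ d i) → ∀ a b : ℝ,
  volume ({p : ℝ | 0 < qu X c d p ∧ ∀ i ∈ X, p ∉ Icc (c i) (d i)} ∩ Icc a b) ≤
    ENNReal.ofReal (Fo X c d)

/-- **QC** (1.3) (from QB).  Proof.  The sum is `∫_U cnt Y` (`U = Ub X c d`, measurable as `q` is continuous).  Pointwise on `U`:
`cnt Y = 1(cnt Y ≥ 1) + max (cnt Y - 1) 0`, and `U ∩ {cnt Y ≥ 1} ⊆ {cnt X ≥ 1, cnt Y ≥ 1} ∪ (G ∩ [a,b])` with `G` the set of `QB` and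
`[a,b]` containing all `[c j, d j]`, `j ∈ Y`.  So the sum is `≤ |{cnt X ≥ 1, cnt Y ≥ 1}| + Fo X + Fo Y = ∫ (1(cnt X ≥ 1, cnt Y ≥ 1)
+ max (cnt X - 1) 0 + max (cnt Y - 1) 0) = Fo (X ∪ Y)` (`cnt (X ∪ Y) = cnt X + cnt Y`; both natural numbers). -/
def S_QC : Prop := ∀ (ι : Type) [DecidableEq ι] (X Y : Finset ι) (c d : ι → ℝ), (∀ i, c i ≤ d i) →
  Disjoint X Y →
  ∑ j ∈ Y, (volume (Ub X c d ∩ Icc (c j) (d j))).toReal ≤ Fo (X ∪ Y) c d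

/-- **Psi** (1.4).  Proof.  `f p = (1 - min |p - p₀| 1)²` is 2-Lipschitz, `0 ≤ f ≤ 1`, `∫ f = 2/3`.  For `p ∈ [c j, d j]`: `|p - x j| ≤ d j - c j ≤ η`, so
`(d j - c j) f (x j) ≤ ∫_{[c j, d j]} f + 2 η (d j - c j)`, and `∑ ∫_{[c j, d j]} f = ∫ cnt f ≤ ∫ f + ∫ max (cnt - 1) 0 · f ≤ 2/3 + Fo`
(`cnt ≤ 1 + max (cnt - 1) 0`).  With `M = ∑ (d j - c j)`: the sum is `M/4 - (1/2) ∑ (d j - c j) f (x j) ≥ M/4 - 1/3 - Fo/2 - η M`. -/
def S_Psi : Prop := ∀ (ι : Type) [Fintype ι] (c d x : ι → ℝ) (p₀ η : ℝ), (∀ i, c i ≤ d i) →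
  (∀ i, d i - c i ≤ η) → (∀ i, x i ∈ Icc (c i) (d i)) →
  (∑ i, (d i - c i)) / 4 - 1 / 3 - Fo Finset.univ c d / 2 - η * ∑ i, (d i - c i) ≤
    ∑ i, (d i - c i) * psi |x i - p₀|

/-! ## Part 2: the trajectory of a point, a line `H` -/

/-- **Lip** (Lipschitz and measurability facts for `qt`).  Proof.  `θ ↦ lo a b θ i`, `hi`, `pr z θ` are Lipschitz (`lipschitz_pr`, `LipschitzWith.min`/`max`), so `Aq`, `qk` (with
`min (c k) p`) and the `fold max` (induction on `X`, `Finset.fold_insert`) are Lipschitz.  Second part: `(θ, τ) ↦ pr (p + τ v) θ` is continuous,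
`qu` is a continuous function of all its arguments, so `{(θ,τ) | 0 < qt …}` is open, and `{∃ i ∈ X, …}` is closed. -/
def S_Lip : Prop := ∀ (ι : Type) (a b : ι → ℝ × ℝ) (X : Finset ι),
  (∀ z : ℝ × ℝ, ∃ K, LipschitzWith K (qt a b X z)) ∧
  (∀ (k : ι) (z : ℝ × ℝ), ∃ K, LipschitzWith K (fun θ => qk X (lo a b θ) (hi a b θ) k (pr z θ))) ∧
  (∀ P v : ℝ × ℝ, Measurable (fun x : ℝ × ℝ => us a b X (P + x.2 • v) x.1))

/-- **TA** (3.1, the key lemma) (from QA, Lip).  Proof in `TEXT.md` 3.1.  The derivative of `θ ↦ lo a b θ i` at a point where it is differentiable is `- en (lp a b θ i) θ`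
(`lo - pr (lp)` has a local maximum there, the point `lp a b θ i` being fixed), and `lo a b θ i = pr (lp a b θ i) θ`.  `c_i' - ζ' = en (z - lp) ≤ nm (z - lp) ≤ 2 R`.  `w_i = hi - lo` has
`|w_i'| ≤ nm (b i - a i)` (`lipschitz_wd`).  The statement QA is used for `A(p) - A(s) = ∫_s^p cnt ≥ (number of intervals covering (s,p)) (p - s)`;
this can also be seen directly: each term of `Aq` is monotone in `p`, and `= p - c_i + const` on `[c_i, d_i]`. -/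
def S_TA : Prop := ∀ (ι : Type) (a b : ι → ℝ × ℝ) (X : Finset ι) (z : ℝ × ℝ) (R : ℝ),
  (∀ i ∈ X, nm (a i) ≤ R ∧ nm (b i) ≤ R) → nm z ≤ R →
  ∀ᵐ θ : ℝ, ∑ i ∈ X, rho a b z θ i ≤ (len a b X + 2 * R) * us a b X z θ - deriv (qt a b X z) θ

/-- **TB** (3.2) (from TA, Lip).  Proof.  Multiply TA by `w ≥ 0` and integrate; by parts
(`AbsolutelyContinuousOnInterval.integral_mul_deriv_eq_deriv_mul`, Lipschitz functions are absolutely continuous)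
`- ∫ w q' = - w q |_{θ₀}^{θ₀+π} + ∫ w' q ≤ w(θ₀) q(θ₀) + K ∫ q`, with `q ≥ 0` (`qt ≥ 0` by `Finset.le_fold_max`) and `|w'| ≤ K`. -/
def S_TB : Prop := ∀ (ι : Type) (a b : ι → ℝ × ℝ) (X : Finset ι) (z : ℝ × ℝ) (R θ₀ : ℝ)
  (w : ℝ → ℝ) (K : NNReal),
  (∀ i ∈ X, nm (a i) ≤ R ∧ nm (b i) ≤ R) → nm z ≤ R → LipschitzWith K w → (∀ θ, 0 ≤ w θ) →
  ∫ θ in θ₀..(θ₀ + π), w θ * ∑ i ∈ X, rho a b z θ i ≤
    (len a b X + 2 * R) * (∫ θ in θ₀..(θ₀ + π), w θ * us a b X z θ) +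
      K * (∫ θ in θ₀..(θ₀ + π), qt a b X z θ) + w θ₀ * qt a b X z θ₀

/-- **Cr** (4.1).  Proof in `TEXT.md` 4.1.  `z = a j + τ • (b j - a j)`, `g = 4 η`, `f θ = pr z θ - lo a b θ i`, `f θ = pr (z - y) θ` with `y = lp a b θ i`. -/
def S_Cr : Prop := ∀ (ι : Type) (a b : ι → ℝ × ℝ) (i j : ι) (η θ₀ t τ : ℝ), 0 < η →
  nm (b i - a i) ≤ η → nm (b j - a j) ≤ η → pr (a i) θ₀ ≤ t → t + 4 * η ≤ pr (a j) θ₀ →
  0 ≤ τ → τ ≤ 1 →
  lam a b η i j * lam a b η j i ≤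
    ∫ θ in θ₀..(θ₀ + π), wd a b θ j * rho a b (a j + τ • (b j - a j)) θ i

/-! ## Part 3: averages -/

/-- **Int** (0.1).  Proof.  `exists_polar`: `|pr v θ| = nm v |sin (θ - φ)|`, and `∫_0^π |sin (θ - φ)| dθ = ∫_{-φ}^{π-φ} |sin| = ∫_0^π |sin| = 2`
(`Function.Periodic.intervalIntegral_add_eq`, period `π`).  Second part: `M` is `π`-periodic, `∫ M = ∑ 2 nm (b i - a i)`. -/
def S_Int : Prop := (∀ v : ℝ × ℝ, ∫ θ in (0 : ℝ)..π, |pr v θ| = 2 * nm v) ∧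
  (∀ (ι : Type) [Fintype ι] (a b : ι → ℝ × ℝ) (ε θ₀ : ℝ),
    ∫ θ in θ₀..(θ₀ + π), Wf a b ε θ = IW a b ε)

/-- **HA** (5.1 for fixed `τ`) (from TB, Cr, QA, One, Lip, Int).  Proof.  `X = XH a b R θ₀ t`, `Y = YH a b R η θ₀ t`.  For each `j ∈ Y` apply TB with `z = a j + τ • (b j - a j)` (`nm z ≤ R` by
convexity: `z = (1-τ) a j + τ b j`), `w = fun θ => wd a b θ j`, `K = (nm (b j - a j)).toNNReal` (`lipschitz_wd`).  `qt ≤ Fo X ≤ Wf θ` by QA and One (applied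
to `c = lo a b θ`, `d = hi a b θ`; `hi_sub_lo`).  Sum over `j`: the left side is `≥ ∑ lam lam` by Cr (the integral of the finite sum over `i`), and
`∑_j w_j(θ₀) Wf θ₀ ≤ len univ * Wf θ₀`, as `Wf ≥ 0` (One with `X = ∅`: `0 ≤ Fo`). -/
def S_HA : Prop := ∀ (ι : Type) [Fintype ι] (a b : ι → ℝ × ℝ) (η ε R θ₀ t τ : ℝ), Cov a b η ε →
  0 ≤ τ → τ ≤ 1 →
  ∑ i ∈ XH a b R θ₀ t, ∑ j ∈ YH a b R η θ₀ t, lam a b η i j * lam a b η j i ≤
    (len a b (XH a b R θ₀ t) + 2 * R) * (∫ θ in θ₀..(θ₀ + π),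
      ∑ j ∈ YH a b R η θ₀ t, wd a b θ j * us a b (XH a b R θ₀ t) (a j + τ • (b j - a j)) θ) +
    len a b (YH a b R η θ₀ t) * IW a b ε + len a b Finset.univ * Wf a b ε θ₀

/-- **HB** (5.1) (from HA, QC, One, Lip, Int).  Proof.  Integrate HA over `τ ∈ [0,1]` and exchange the integrals (Fubini: bounded measurable functions by Lip, continuity of `wd`).
For fixed `θ`: `wd a b θ j * ∫_0^1 us (a j + τ (b j - a j)) θ dτ = |Ub ∩ [lo θ j, hi θ j]|` (substitution `p = pr (a j) θ + τ pr (b j - a j) θ`; both sides are `0` if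
`pr (b j - a j) θ = 0`), so by QC (`X`, `Y` are disjoint as `η > 0`) and One the sum over `j` is `≤ Fo (X ∪ Y) ≤ Wf θ`.  So the double integral is `≤ IW`, and
`len X + len Y ≤ len univ`; `R ≥ 0` if `X` or `Y` is not empty (otherwise the left side is `0`; all terms on the right are `≥ 0`, with `R ≥ 0` assumed). -/
def S_HB : Prop := ∀ (ι : Type) [Fintype ι] (a b : ι → ℝ × ℝ) (η ε R θ₀ t : ℝ), Cov a b η ε → 0 ≤ R →
  ∑ i ∈ XH a b R θ₀ t, ∑ j ∈ YH a b R η θ₀ t, lam a b η i j * lam a b η j i ≤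
    (len a b Finset.univ + 2 * R) * IW a b ε + len a b Finset.univ * Wf a b ε θ₀

/-- **AvA** (first half of 5.2) (from HB, Int).  Proof.  Integrate HB over `t ∈ [-R,R]` and `θ₀ ∈ [0,π]`.  The left side of HB is
`∑ i ∈ B, ∑ j ∈ B, lam lam 1(pr (a i) θ₀ ≤ t) 1(t + 4 η ≤ pr (a j) θ₀)`, and for `i, j ∈ B` (`|pr| ≤ nm ≤ R`)
`∫_{-R}^R 1(pr (a i) θ₀ ≤ t ≤ pr (a j) θ₀ - 4η) dt = max (pr (a j) θ₀ - pr (a i) θ₀ - 4 η) 0 = max (pr (a j - a i) θ₀ - 4η) 0`. -/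
def S_AvA : Prop := ∀ (ι : Type) [Fintype ι] (a b : ι → ℝ × ℝ) (η ε R : ℝ), Cov a b η ε → 0 ≤ R →
  ∑ i ∈ Bs a b R, ∑ j ∈ Bs a b R, lam a b η i j * lam a b η j i *
      (∫ θ in (0 : ℝ)..π, max (pr (a j - a i) θ - 4 * η) 0) ≤
    2 * R * (π * (len a b Finset.univ + 2 * R) + len a b Finset.univ) * IW a b ε

/-- **AvB** (second half of 5.2) (from Int).  Proof.  No covering here.  Exchange `i` and `j` and add: `max (s - 4η) 0 + max (-s - 4η) 0 ≥ |s| - 4η` gives (Int)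
`LHS ≥ ∑ lam_ij lam_ji (r_ij - 2 π η)`, `0 ≤ lam_ij ≤ nm (b i - a i)` (`Dd_ij ≤ nm v_i * r_ij`, and `lam = 0` if `r = 0`), and
`r lam_ij lam_ji ≥ (D_ij D_ji - 3 η |v_i| D_ji - 3 η |v_j| D_ij)/r ≥ D_ij D_ji / r - 6 η |v_i| |v_j|`.  `∑ |v_i||v_j| = (len B)² ≤ (len univ)²`, `6 + 2π < 13`. -/
def S_AvB : Prop := ∀ (ι : Type) [Fintype ι] (a b : ι → ℝ × ℝ) (η R : ℝ), 0 < η →
  (∑ i ∈ Bs a b R, ∑ j ∈ Bs a b R, Dd a b i j * Dd a b j i / nm (a j - a i)) -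
      13 * η * len a b Finset.univ ^ 2 ≤
    ∑ i ∈ Bs a b R, ∑ j ∈ Bs a b R, lam a b η i j * lam a b η j i *
      (∫ θ in (0 : ℝ)..π, max (pr (a j - a i) θ - 4 * η) 0)

/-! ## Part 4: lower bound -/

/-- **LA** (6.1, 6.2) (from Psi, One).  Proof.  For each `i` with `v_i = b i - a i ≠ 0` let `θ_i` be the angle of `v_i` (`exists_polar`: `pr v_i θ_i = 0`, `en v_i θ_i = nm v_i`).  By `dt_eq`:
`nm v_i * wd a b θ_i j = |dt v_i v_j|`, `Dd i j = nm v_i * |pr (a j) θ_i - pr (a i) θ_i| = nm v_i u_ij`.  6.1: `Dd i j * Dd j i ≥ |dt v_i v_j| (psi u_ij + psi u_ji)`.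
Sum over `B × B`, symmetry.  For each `i`: Psi with `c = lo a b θ_i`, `d = hi a b θ_i`, `x j = pr (a j) θ_i`, `p₀ = pr (a i) θ_i`, and One (`Fo ≤ M - 2 + ε`) give
`∑_j wd_j psi u_ij ≥ 2/3 - M/4 - ε/2 - η M`, `M = M(θ_i) ≤ len univ`; the terms `j ∉ B` are `≤ nm v_j / 4` (`psi ≤ 1/4`).  Second part: `M(θ_i) ≥ 2 - ε` (One with `X = ∅`),
times `nm v_i`. -/
def S_LA : Prop := ∀ (ι : Type) [Fintype ι] (a b : ι → ℝ × ℝ) (η ε R : ℝ), Cov a b η ε →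
  (len a b (Bs a b R) * (4 / 3 - ε - 2 * η * len a b Finset.univ -
      (len a b Finset.univ - len a b (Bs a b R)) / 2) -
      (1 / 2) * ∑ i ∈ Bs a b R, ∑ j, |dt (b i - a i) (b j - a j)| ≤
    ∑ i ∈ Bs a b R, ∑ j ∈ Bs a b R, Dd a b i j * Dd a b j i) ∧
  (∀ i, (2 - ε) * nm (b i - a i) ≤ ∑ j, |dt (b i - a i) (b j - a j)|)

/-- **Cos** (the identity of 6.3).  Proof.  Both sides are `0` if `v = 0`.  Let `v = nm v e_φ` (`exists_polar`), `s = sign`.  The integrand is `π`-periodic, so the integral is over `[φ, φ+π]`, where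
`pr v θ = - nm v sin (θ - φ)` has absolute value `nm v sin (θ-φ)`, sign `-1` inside, and `en v θ = nm v cos (θ-φ)`.  `h θ = |pr u θ|` is Lipschitz with a.e. derivative `- sign (pr u θ) en u θ`
(if `pr u θ ≠ 0`; if `u = 0` all is `0`).  The integrand is a.e. `nm v (h sin (θ-φ) - h' cos (θ-φ)) = - nm v (h cos (θ-φ))'`, the integral is
`nm v (h(φ+π) + h(φ)) = 2 nm v |pr u φ| = 2 |dt u v|` (`dt_eq` at `φ`). -/
def S_Cos : Prop := ∀ u v : ℝ × ℝ,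
  ∫ θ in (0 : ℝ)..π, (|pr u θ| * |pr v θ| -
    (SignType.sign (pr u θ) : ℝ) * en u θ * ((SignType.sign (pr v θ) : ℝ) * en v θ)) = 2 * |dt u v|

/-- **LB** (6.3) (from Cos, Int, One).  Proof.  Sum Cos over all pairs: `2 ∑∑ |dt v_i v_j| = ∫_0^π (M² - (∑ sign (pr v_i θ) en v_i θ)²) ≤ ∫_0^π M²`.  By One (`X = ∅`) `2 - ε ≤ M ≤ ℓ`, so
`M² ≤ (2 - ε + ℓ) M - (2 - ε) ℓ`, and `∫_0^π M = 2 ℓ`: `∑∑ |dt| ≤ ℓ (2 - ε + ℓ) - (1 - ε/2) π ℓ`, and `π/2 - 1 ≤ 0.6`. -/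
def S_LB : Prop := ∀ (ι : Type) [Fintype ι] (a b : ι → ℝ × ℝ) (η ε : ℝ), Cov a b η ε →
  ∑ i, ∑ j, |dt (b i - a i) (b j - a j)| ≤
    len a b Finset.univ * (2 + len a b Finset.univ - π + 0.6 * ε)

/-- **Far** (7.1) (from One, Int).  Proof in `TEXT.md` 7.1 (`R = 1.084`, `η = ε = 10⁻⁴`).  `0.1508² (1.3² + 6.5²) < 1`. -/
def S_Far : Prop := ∀ (ι : Type) [Fintype ι] (a b : ι → ℝ × ℝ),
  Cov a b (1 / 10000) (1 / 10000) →
  0.1508 * (len a b Finset.univ - len a b (Bs a b 1.084)) ≤ IW a b (1 / 10000)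

/-- **Fin** (8, Theorem F) (from AvA, AvB, LA, LB, Far, One, Int).  Proof in `TEXT.md` 8.  `nm (a j - a i) ≤ 2 R` for `i, j ∈ B`, and the terms with `nm (a j - a i) = 0` have `Dd = 0`.  `ℓ ≥ π - π ε / 2` from
`Wf ≥ 0` (One, `X = ∅`) and `∫ Wf = IW`. -/
def S_Fin : Prop := ∀ (ι : Type) [Fintype ι] (a b : ι → ℝ × ℝ),
  Cov a b (1 / 10000) (1 / 10000) → π + 1 / 250 ≤ len a b Finset.univ

/-! ## Part 5: from curves to pieces -/

/-- The plane. -/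
abbrev E2 : Type := EuclideanSpace ℝ (Fin 2)

/-- Coordinates. -/
def toP (x : E2) : ℝ × ℝ := (x 0, x 1)

/-- **RA** (9.1).  Proof in `TEXT.md` 9.1. -/
def S_RA : Prop := ∀ (P P' z : ℝ × ℝ) (L θ : ℝ), nm (z - P) + nm (z - P') ≤ L →
  |2 * pr z θ - (pr P θ + pr P' θ)| ≤ |pr (P' - P) θ| + √(L ^ 2 - nm (P' - P) ^ 2)

/-- **RB** (9.2) (from RA).  Proof in `TEXT.md` 9.2. -/
def S_RB : Prop := ∀ (γ : ℝ → E2) (δ : ℝ), eVariationOn γ (Icc 0 1) ≠ ⊤ → 0 < δ →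
  ∃ (n : ℕ) (a b : Fin n → ℝ × ℝ),
    len a b Finset.univ ≤ (eVariationOn γ (Icc 0 1)).toReal ∧
    ∀ θ, volume {p : ℝ | (∃ t ∈ Icc (0 : ℝ) 1, pr (toP (γ t)) θ = p) ∧
      ∀ i, p ∉ Icc (lo a b θ i) (hi a b θ i)} ≤ ENNReal.ofReal δ

/-- **RC** (9.3).  Proof.  Cut each segment into `N` equal parts, `N ≥ 1`, `nm (b i - a i) ≤ N η`; `ι' = ι × Fin N`, `a' (i,k) = a i + (k/N) (b i - a i)`,
`b' (i,k) = a i + ((k+1)/N) (b i - a i)`. -/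
def S_RC : Prop := ∀ (ι : Type) [Fintype ι] (a b : ι → ℝ × ℝ) (η : ℝ), 0 < η →
  ∃ (κ : Type) (_ : Fintype κ) (a' b' : κ → ℝ × ℝ), (∀ i, nm (b' i - a' i) ≤ η) ∧
    len a' b' Finset.univ = len a b Finset.univ ∧
    ∀ θ p, (∃ i, p ∈ Icc (lo a b θ i) (hi a b θ i)) → ∃ i, p ∈ Icc (lo a' b' θ i) (hi a' b' θ i)

/-- **RD** (9.4) (from Fin, RB, RC).  Proof in `TEXT.md` 9.4.  The line `{x | pr (toP x) θ = p}` with `|p| ≤ 1` contains the point `p • n_θ` of the disc. -/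
def S_RD : Prop := ∀ (γ : ℕ → ℝ → E2),
  (∀ θ p : ℝ, |p| ≤ 1 → ∃ k, ∃ t ∈ Icc (0 : ℝ) 1, pr (toP (γ k t)) θ = p) →
  ENNReal.ofReal (π + 1 / 250) ≤ ∑' k, eVariationOn (γ k) (Icc 0 1)

/-- **Main** (from RD).  The theorem.  Proof.  `{x | pr (toP x) θ = p}` is a line (an affine subspace with one-dimensional direction). -/
def S_Main : Prop := ∀ (γ : ℕ → ℝ → E2), (∀ k, ContinuousOn (γ k) (Icc 0 1)) →
  (∀ l : AffineSubspace ℝ E2, Module.finrank ℝ l.direction = 1 → (∃ x ∈ l, ‖x‖ ≤ 1) →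
    ∃ k, ∃ t ∈ Icc (0 : ℝ) 1, γ k t ∈ l) →
  ENNReal.ofReal (π + 1 / 250) ≤ ∑' k, eVariationOn (γ k) (Icc 0 1)

end Pool.Agent.OD
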