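import Pool.Agent.Lib.OD.Spec

set_option autoImplicit false

namespace Pool.Agent.OD

open MeasureTheory Set Real

namespace TAAux

theorem hasDerivAt_pos {f g : ℝ → ℝ} {x : ℝ} (hf : DifferentiableAt ℝ f x)
    (hg : DifferentiableAt ℝ g x) (h : DifferentiableAt ℝ (fun y => max (f y - g y) 0) x) :
    HasDerivAt (fun y => max (f y - g y) 0) (if g x < f x then deriv f x - deriv g x else 0) x := by
  split_ifs with hlt
  · have h1 : HasDerivAt (fun y => f y - g y) (deriv f x - deriv g x) x :=
      hf.hasDerivAt.sub hg.hasDerivAt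
    refine h1.congr_of_eventuallyEq ?_
    have h2 : ∀ᶠ y in nhds x, g y < f y :=
      hg.continuousAt.eventually_lt hf.continuousAt hlt
    filter_upwards [h2] with y hy
    exact max_eq_left (by linarith)
  · have h1 : IsLocalMin (fun y => max (f y - g y) 0) x := by
      filter_upwards with y
      have : max (f x - g x) 0 = 0 := max_eq_right (by linarith)
      rw [this]; exact le_max_right _ _
    have h2 := h1.deriv_eq_zero
    have h3 := h.hasDerivAt
    rwa [h2] at h3

theorem lo_eq {ι : Type} (a b : ι → ℝ × ℝ) (θ : ℝ) (i : ι) :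
    lo a b θ i = pr (lp a b θ i) θ := by
  unfold lo lp
  split_ifs with h
  · exact min_eq_left h
  · exact min_eq_right (le_of_lt (not_le.mp h))

theorem deriv_lo {ι : Type} (a b : ι → ℝ × ℝ) (θ : ℝ) (i : ι)
    (h : DifferentiableAt ℝ (fun t => lo a b t i) θ) :
    deriv (fun t => lo a b t i) θ = - en (lp a b θ i) θ := by
  have h1 : IsLocalMin (fun t => pr (lp a b θ i) t - lo a b t i) θ := by
    filter_upwards with t
    rw [← lo_eq, sub_self, sub_nonneg]
    unfold lo lp
    split_ifs
    · exact min_le_left _ _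
    · exact min_le_right _ _
  have h2 := h1.deriv_eq_zero
  have h3 : HasDerivAt (fun t => pr (lp a b θ i) t - lo a b t i)
      (- en (lp a b θ i) θ - deriv (fun t => lo a b t i) θ) θ :=
    (hasDerivAt_pr _ _).sub h.hasDerivAt
  rw [h3.deriv] at h2
  linarith

theorem lip_pr (x : ℝ × ℝ) : ∃ K, LipschitzWith K (pr x) := ⟨_, lipschitz_pr x⟩

theorem lip_lo {ι : Type} (a b : ι → ℝ × ℝ) (i : ι) : ∃ K, LipschitzWith K (fun t => lo a b t i) :=
  ⟨_, (lipschitz_pr (a i)).min (lipschitz_pr (b i))⟩

theorem lip_hi {ι : Type} (a b : ι → ℝ × ℝ) (i : ι) : ∃ K, LipschitzWith K (fun t => hi a b t i) :=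
  ⟨_, (lipschitz_pr (a i)).max (lipschitz_pr (b i))⟩

theorem lip_pos {f g : ℝ → ℝ} (hf : ∃ K, LipschitzWith K f) (hg : ∃ K, LipschitzWith K g) :
    ∃ K, LipschitzWith K (fun y => max (f y - g y) 0) := by
  obtain ⟨K, hf⟩ := hf
  obtain ⟨L, hg⟩ := hg
  exact ⟨_, (hf.sub hg).max_const 0⟩

theorem ae_diff {f : ℝ → ℝ} (hf : ∃ K, LipschitzWith K f) : ∀ᵐ x, DifferentiableAt ℝ f x := by
  obtain ⟨K, hf⟩ := hf
  exact hf.ae_differentiableAt

/-- the good points -/
structure Good {ι : Type} (a b : ι → ℝ × ℝ) (X : Finset ι) (z : ℝ × ℝ) (θ : ℝ) : Prop where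
  q : DifferentiableAt ℝ (qt a b X z) θ
  lo : ∀ i ∈ X, DifferentiableAt ℝ (fun t => lo a b t i) θ
  hi : ∀ i ∈ X, DifferentiableAt ℝ (fun t => hi a b t i) θ
  zl : ∀ i ∈ X, DifferentiableAt ℝ (fun t => max (pr z t - Pool.Agent.OD.lo a b t i) 0) θ
  zh : ∀ i ∈ X, DifferentiableAt ℝ (fun t => max (pr z t - Pool.Agent.OD.hi a b t i) 0) θ
  ll : ∀ k ∈ X, ∀ i ∈ X, DifferentiableAt ℝ
    (fun t => max (Pool.Agent.OD.lo a b t k - Pool.Agent.OD.lo a b t i) 0) θ
  lh : ∀ k ∈ X, ∀ i ∈ X, DifferentiableAt ℝ
    (fun t => max (Pool.Agent.OD.lo a b t k - Pool.Agent.OD.hi a b t i) 0) θ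

theorem ae_good {ι : Type} (a b : ι → ℝ × ℝ) (X : Finset ι) (z : ℝ × ℝ)
    (h : ∃ K, LipschitzWith K (qt a b X z)) : ∀ᵐ θ : ℝ, Good a b X z θ := by
  have e1 := ae_diff h
  have e2 : ∀ᵐ θ : ℝ, ∀ i ∈ X, DifferentiableAt ℝ (fun t => lo a b t i) θ :=
    (Filter.eventually_all_finset X).2 fun i _ => ae_diff (lip_lo a b i)
  have e3 : ∀ᵐ θ : ℝ, ∀ i ∈ X, DifferentiableAt ℝ (fun t => hi a b t i) θ :=
    (Filter.eventually_all_finset X).2 fun i _ => ae_diff (lip_hi a b i)
  have e4 : ∀ᵐ θ : ℝ, ∀ i ∈ X, DifferentiableAt ℝ (fun t => max (pr z t - lo a b t i) 0) θ :=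
    (Filter.eventually_all_finset X).2 fun i _ => ae_diff (lip_pos (lip_pr z) (lip_lo a b i))
  have e5 : ∀ᵐ θ : ℝ, ∀ i ∈ X, DifferentiableAt ℝ (fun t => max (pr z t - hi a b t i) 0) θ :=
    (Filter.eventually_all_finset X).2 fun i _ => ae_diff (lip_pos (lip_pr z) (lip_hi a b i))
  have e6 : ∀ᵐ θ : ℝ, ∀ k ∈ X, ∀ i ∈ X,
      DifferentiableAt ℝ (fun t => max (lo a b t k - lo a b t i) 0) θ :=
    (Filter.eventually_all_finset X).2 fun k _ => (Filter.eventually_all_finset X).2 fun i _ =>
      ae_diff (lip_pos (lip_lo a b k) (lip_lo a b i))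
  have e7 : ∀ᵐ θ : ℝ, ∀ k ∈ X, ∀ i ∈ X,
      DifferentiableAt ℝ (fun t => max (lo a b t k - hi a b t i) 0) θ :=
    (Filter.eventually_all_finset X).2 fun k _ => (Filter.eventually_all_finset X).2 fun i _ =>
      ae_diff (lip_pos (lip_lo a b k) (lip_hi a b i))
  filter_upwards [e1, e2, e3, e4, e5, e6, e7] with θ h1 h2 h3 h4 h5 h6 h7
  exact ⟨h1, h2, h3, h4, h5, h6, h7⟩

/-- one term of `Aq` is monotone -/
theorem term_mono {c d s p : ℝ} (hcd : c ≤ d) (hsp : s ≤ p) :
    max (s - c) 0 - max (s - d) 0 ≤ max (p - c) 0 - max (p - d) 0 := by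
  rcases le_total s c with h1 | h1 <;> rcases le_total s d with h2 | h2 <;>
  rcases le_total p c with h3 | h3 <;> rcases le_total p d with h4 | h4 <;>
  simp only [max_eq_left (sub_nonneg.2 h1), max_eq_left (sub_nonneg.2 h2),
    max_eq_left (sub_nonneg.2 h3), max_eq_left (sub_nonneg.2 h4),
    max_eq_right (sub_nonpos.2 h1), max_eq_right (sub_nonpos.2 h2),
    max_eq_right (sub_nonpos.2 h3), max_eq_right (sub_nonpos.2 h4)] <;> linarith

theorem term_eq {c d s p : ℝ} (hs : c ≤ s) (hsp : s ≤ p) (hp : p ≤ d) :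
    (max (p - c) 0 - max (p - d) 0) - (max (s - c) 0 - max (s - d) 0) = p - s := by
  rw [max_eq_left (by linarith), max_eq_right (by linarith), max_eq_left (by linarith),
    max_eq_right (by linarith)]
  ring

theorem Aq_one {ι : Type} {X : Finset ι} {c d : ι → ℝ} (hcd : ∀ i, c i ≤ d i) {i : ι}
    (hi : i ∈ X) {s p : ℝ} (hsp : s ≤ p) (hs : c i ≤ s) (hp : p ≤ d i) :
    p - s ≤ Aq X c d p - Aq X c d s := by
  unfold Aq
  rw [← Finset.sum_sub_distrib]
  have h := Finset.single_le_sum
    (f := fun j => (max (p - c j) 0 - max (p - d j) 0) - (max (s - c j) 0 - max (s - d j) 0))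
    (fun j _ => sub_nonneg.2 (term_mono (hcd j) hsp)) hi
  have h2 := term_eq hs hsp hp
  linarith

theorem Aq_two {ι : Type} {X : Finset ι} {c d : ι → ℝ} (hcd : ∀ i, c i ≤ d i) {i j : ι}
    (hi : i ∈ X) (hj : j ∈ X) (hij : i ≠ j) {s p : ℝ} (hsp : s ≤ p) (hs : c i ≤ s) (hp : p ≤ d i)
    (hs' : c j ≤ s) (hp' : p ≤ d j) :
    2 * (p - s) ≤ Aq X c d p - Aq X c d s := by
  classical
  unfold Aq
  rw [← Finset.sum_sub_distrib]
  have h := Finset.sum_le_sum_of_subset_of_nonneg
    (f := fun j => (max (p - c j) 0 - max (p - d j) 0) - (max (s - c j) 0 - max (s - d j) 0))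
    (s := {i, j}) (t := X) (by
      intro x hx; rcases Finset.mem_insert.1 hx with h | h
      · rwa [h]
      · rwa [Finset.mem_singleton.1 h])
    (fun j _ _ => sub_nonneg.2 (term_mono (hcd j) hsp))
  rw [Finset.sum_pair hij, term_eq hs hsp hp, term_eq hs' hsp hp'] at h
  linarith

theorem qu_nonneg {ι : Type} (X : Finset ι) (c d : ι → ℝ) (p : ℝ) : 0 ≤ qu X c d p :=
  Finset.le_fold_max _ |>.2 (Or.inl le_rfl)

theorem qk_le {ι : Type} {X : Finset ι} (c d : ι → ℝ) (p : ℝ) {k : ι} (hk : k ∈ X) :
    qk X c d k p ≤ qu X c d p :=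
  Finset.le_fold_max _ |>.2 (Or.inr ⟨k, hk, le_rfl⟩)

theorem exists_qk {ι : Type} {X : Finset ι} {c d : ι → ℝ} {p : ℝ} (h : 0 < qu X c d p) :
    ∃ k ∈ X, qk X c d k p = qu X c d p := by
  rcases (Finset.le_fold_max (f := fun k => qk X c d k p) (b := 0) (s := X) (qu X c d p)).1 le_rfl
    with h1 | ⟨k, hk, h1⟩
  · exact absurd h1 (not_le.2 h)
  · exact ⟨k, hk, le_antisymm (qk_le c d p hk) h1⟩

theorem rho_le {ι : Type} {a b : ι → ℝ × ℝ} {z : ℝ × ℝ} {R : ℝ} {i : ι}
    (h : nm (a i) ≤ R ∧ nm (b i) ≤ R) (hz : nm z ≤ R) (θ : ℝ) : en (z - lp a b θ i) θ ≤ 2 * R := by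
  have h1 := (le_abs_self _).trans (abs_en_le (z - lp a b θ i) θ)
  have h2 := nm_sub_le z (lp a b θ i)
  have h3 : nm (lp a b θ i) ≤ R := by
    unfold lp; split_ifs
    · exact h.1
    · exact h.2
  linarith

end TAAux

open TAAux in
theorem pTA : S_Lip → S_TA := by
  intro hLip ι a b X z R hX hz
  classical
  have hR : 0 ≤ R := (nm_nonneg z).trans hz
  have hlen : 0 ≤ len a b X := Finset.sum_nonneg fun i _ => nm_nonneg _
  filter_upwards [ae_good a b X z ((hLip ι a b X).1 z)] with θ hG
  set c := lo a b θ with hc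
  set d := hi a b θ with hd
  set ζ := pr z θ with hζ
  have hcd : ∀ i, c i ≤ d i := fun i => lo_le_hi a b θ i
  have hq0 : ∀ t, 0 ≤ qt a b X z t := fun t => qu_nonneg _ _ _ _
  rcases eq_or_lt_of_le (hq0 θ) with h0 | hpos
  · -- the queue is empty
    have hq' : deriv (qt a b X z) θ = 0 := by
      apply IsLocalMin.deriv_eq_zero
      filter_upwards with t
      rw [← h0]; exact hq0 t
    rw [hq', sub_zero]
    by_cases hex : ∃ i ∈ X, c i < ζ ∧ ζ ≤ d i
    · obtain ⟨i, hi, hi1, hi2⟩ := hex
      have hus : us a b X z θ = 1 := by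
        unfold us
        rw [indicator_of_mem]
        exact Or.inr ⟨i, hi, hi1.le, hi2⟩
      rw [hus, mul_one, Finset.sum_eq_single_of_mem i hi]
      · unfold rho
        rw [if_pos ⟨hi1, hi2⟩]
        linarith [rho_le (hX i hi) hz θ]
      · intro j hj hji
        unfold rho
        rw [if_neg]
        rintro ⟨hj1, hj2⟩
        -- two intervals
        have key : ∀ k ∈ X, ∀ l ∈ X, k ≠ l → c l ≤ c k → c k < ζ → ζ ≤ d k → ζ ≤ d l → False := by
          intro k hk l hl hkl h1 h2 h3 h4
          have h5 := Aq_two (X := X) hcd hk hl hkl h2.le le_rfl h3 h1 h4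
          have h6 : qk X c d k ζ ≤ 0 := by
            have := qk_le (X := X) c d ζ hk
            have h7 : qu X c d ζ = 0 := h0.symm
            linarith
          unfold qk at h6
          rw [min_eq_left h2.le] at h6
          linarith
        rcases le_total (c i) (c j) with h | h
        · exact key j hj i hi hji h hj1 hj2 hi2
        · exact key i hi j hj hji.symm h hi1 hi2 hj2
    · push Not at hex
      have : ∑ i ∈ X, rho a b z θ i = 0 := by
        apply Finset.sum_eq_zero
        intro i hi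
        unfold rho
        rw [if_neg]
        rintro ⟨h1, h2⟩
        exact absurd h2 (not_le.2 (hex i hi h1))
      rw [this]
      apply mul_nonneg (by linarith)
      unfold us
      exact indicator_nonneg (fun _ _ => zero_le_one) _
  · -- the queue is not empty
    have hus : us a b X z θ = 1 := by
      unfold us
      rw [indicator_of_mem]
      exact Or.inl hpos
    rw [hus, mul_one]
    -- the first customer in service
    have hne : (X.filter (fun k => qk X c d k ζ = qu X c d ζ)).Nonempty := by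
      obtain ⟨k, hk, h⟩ := exists_qk hpos
      exact ⟨k, Finset.mem_filter.2 ⟨hk, h⟩⟩
    obtain ⟨k, hk, hmin⟩ := Finset.exists_min_image _ c hne
    obtain ⟨hkX, hkq⟩ := Finset.mem_filter.1 hk
    have hkpos : 0 < qk X c d k ζ := by rw [hkq]; exact hpos
    have hckζ : c k < ζ := by
      by_contra h
      unfold qk at hkpos
      rw [min_eq_right (not_lt.1 h)] at hkpos
      linarith
    have hcov : ∀ i ∈ X, c i < c k → d i < c k := by
      intro i hi hik
      by_contra h
      have h1 := Aq_one (X := X) hcd hi hik.le le_rfl (not_lt.1 h)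
      have h2 : qk X c d k ζ ≤ qk X c d i ζ := by
        unfold qk
        rw [min_eq_left hckζ.le, min_eq_left (hik.trans hckζ).le]
        linarith
      have h3 : qk X c d i ζ = qu X c d ζ := le_antisymm (qk_le c d ζ hi) (hkq ▸ h2)
      have := hmin i (Finset.mem_filter.2 ⟨hi, h3⟩)
      linarith
    -- derivatives
    have dpr : DifferentiableAt ℝ (pr z) θ := (hasDerivAt_pr z θ).differentiableAt
    have hA : HasDerivAt (fun t => Aq X (lo a b t) (hi a b t) (pr z t))
        (∑ i ∈ X, ((if c i < ζ then deriv (pr z) θ - deriv (fun t => lo a b t i) θ else 0) -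
          (if d i < ζ then deriv (pr z) θ - deriv (fun t => hi a b t i) θ else 0))) θ := by
      unfold Aq
      apply HasDerivAt.fun_sum
      intro i hi
      exact (hasDerivAt_pos dpr (hG.lo i hi) (hG.zl i hi)).sub
        (hasDerivAt_pos dpr (hG.hi i hi) (hG.zh i hi))
    have hB : HasDerivAt (fun t => Aq X (lo a b t) (hi a b t) (lo a b t k))
        (∑ i ∈ X, ((if c i < c k then deriv (fun t => lo a b t k) θ -
            deriv (fun t => lo a b t i) θ else 0) -
          (if d i < c k then deriv (fun t => lo a b t k) θ -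
            deriv (fun t => hi a b t i) θ else 0))) θ := by
      unfold Aq
      apply HasDerivAt.fun_sum
      intro i hi
      exact (hasDerivAt_pos (hG.lo k hkX) (hG.lo i hi) (hG.ll k hkX i hi)).sub
        (hasDerivAt_pos (hG.lo k hkX) (hG.hi i hi) (hG.lh k hkX i hi))
    have hQ : HasDerivAt (fun t => qk X (lo a b t) (hi a b t) k (pr z t))
        ((∑ i ∈ X, ((if c i < ζ then deriv (pr z) θ - deriv (fun t => lo a b t i) θ else 0) -
          (if d i < ζ then deriv (pr z) θ - deriv (fun t => hi a b t i) θ else 0))) -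
        (∑ i ∈ X, ((if c i < c k then deriv (fun t => lo a b t k) θ -
            deriv (fun t => lo a b t i) θ else 0) -
          (if d i < c k then deriv (fun t => lo a b t k) θ -
            deriv (fun t => hi a b t i) θ else 0))) -
        (deriv (pr z) θ - deriv (fun t => lo a b t k) θ)) θ := by
      refine ((hA.sub hB).sub (dpr.hasDerivAt.sub (hG.lo k hkX).hasDerivAt)).congr_of_eventuallyEq ?_
      have h2 : ∀ᶠ t in nhds θ, lo a b t k < pr z t :=
        (hG.lo k hkX).continuousAt.eventually_lt dpr.continuousAt hckζ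
      filter_upwards [h2] with t ht
      unfold qk
      rw [min_eq_left ht.le]
      rfl
    have hq' : deriv (qt a b X z) θ = deriv (fun t => qk X (lo a b t) (hi a b t) k (pr z t)) θ := by
      have h1 : IsLocalMin (fun t => qt a b X z t - qk X (lo a b t) (hi a b t) k (pr z t)) θ := by
        filter_upwards with t
        have h2 : qt a b X z θ - qk X (lo a b θ) (hi a b θ) k (pr z θ) = 0 := by
          rw [sub_eq_zero]; exact hkq.symm
        rw [h2, sub_nonneg]
        exact qk_le _ _ _ hkX
      have h2 := h1.deriv_eq_zero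
      rw [(hG.q.hasDerivAt.fun_sub hQ.differentiableAt.hasDerivAt).deriv] at h2
      linarith
    rw [hq', hQ.deriv]
    -- termwise
    have hw : ∀ i ∈ X, |deriv (fun t => hi a b t i) θ - deriv (fun t => lo a b t i) θ| ≤
        nm (b i - a i) := by
      intro i hiX
      have h1 : HasDerivAt (fun t => wd a b t i)
          (deriv (fun t => hi a b t i) θ - deriv (fun t => lo a b t i) θ) θ := by
        have := (hG.hi i hiX).hasDerivAt.sub (hG.lo i hiX).hasDerivAt
        refine this.congr_of_eventuallyEq ?_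
        filter_upwards with t
        exact (hi_sub_lo a b t i).symm
      have h2 := norm_deriv_le_of_lipschitz (lipschitz_wd a b i) (x₀ := θ)
      rw [h1.deriv, Real.norm_eq_abs, Real.coe_toNNReal _ (nm_nonneg _)] at h2
      exact h2
    have hz' : deriv (pr z) θ = - en z θ := (hasDerivAt_pr z θ).deriv
    have hterm : ∀ i ∈ X, rho a b z θ i +
        (((if c i < ζ then deriv (pr z) θ - deriv (fun t => lo a b t i) θ else 0) -
          (if d i < ζ then deriv (pr z) θ - deriv (fun t => hi a b t i) θ else 0)) -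
        ((if c i < c k then deriv (fun t => lo a b t k) θ -
            deriv (fun t => lo a b t i) θ else 0) -
          (if d i < c k then deriv (fun t => lo a b t k) θ -
            deriv (fun t => hi a b t i) θ else 0))) ≤ nm (b i - a i) := by
      intro i hi
      have hwi := abs_le.1 (hw i hi)
      have hn := nm_nonneg (b i - a i)
      have hl := deriv_lo a b θ i (hG.lo i hi)
      have hci := hcd i
      by_cases h3 : c i < c k
      · have h4 := hcov i hi h3
        have h5 : d i < ζ := h4.trans hckζ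
        have h6 : rho a b z θ i = 0 := by
          unfold rho
          rw [if_neg]
          rintro ⟨_, h7⟩
          exact absurd h7 (not_le.2 h5)
        rw [h6, if_pos h3, if_pos h4, if_pos h5, if_pos (h3.trans hckζ)]
        linarith
      · have h4 : ¬ d i < c k := fun h => h3 (lt_of_le_of_lt hci h)
        rw [if_neg h3, if_neg h4]
        by_cases h5 : d i < ζ
        · have h6 : rho a b z θ i = 0 := by
            unfold rho
            rw [if_neg]
            rintro ⟨_, h7⟩
            exact absurd h7 (not_le.2 h5)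
          rw [h6, if_pos h5, if_pos (lt_of_le_of_lt hci h5)]
          linarith [hwi.2]
        · rw [if_neg h5]
          by_cases h6 : c i < ζ
          · have h7 : rho a b z θ i = en (z - lp a b θ i) θ := by
              unfold rho
              rw [if_pos ⟨h6, not_lt.1 h5⟩]
            rw [h7, if_pos h6, en_sub, hl, hz']
            linarith
          · have h7 : rho a b z θ i = 0 := by
              unfold rho
              rw [if_neg]
              rintro ⟨h8, _⟩
              exact h6 h8
            rw [h7, if_neg h6]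
            linarith
    have hsum := Finset.sum_le_sum hterm
    rw [Finset.sum_add_distrib, Finset.sum_sub_distrib] at hsum
    have hkk : deriv (fun t => lo a b t k) θ - deriv (pr z) θ ≤ 2 * R := by
      rw [deriv_lo a b θ k (hG.lo k hkX), hz']
      have := rho_le (hX k hkX) hz θ
      rw [en_sub] at this
      linarith
    unfold len
    linarith

end Pool.Agent.OD
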