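import Pool.Agent.Lib.OD.Spec

/-!
# Opaque sets of the disc: integration of the key lemma (statement `S_TB`)
-/

set_option autoImplicit false

namespace Pool.Agent.OD

open MeasureTheory Set Real

namespace TBAux

/-- Bounded measurable functions are integrable on intervals. -/
theorem ii_of_bdd {f : ℝ → ℝ} {C : ℝ} (hf : Measurable f) (hC : ∀ x, |f x| ≤ C) (s t : ℝ) :
    IntervalIntegrable f volume s t := by
  have h0 : IntervalIntegrable (fun _ : ℝ => C) volume s t := intervalIntegrable_const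
  exact h0.mono_fun' hf.aestronglyMeasurable (Filter.Eventually.of_forall hC)

theorem us_meas (hL : S_Lip) {ι : Type} (a b : ι → ℝ × ℝ) (X : Finset ι) (z : ℝ × ℝ) :
    Measurable (us a b X z) := by
  have h := (hL ι a b X).2.2 z 0
  have h1 : us a b X z = (fun x : ℝ × ℝ => us a b X (z + x.2 • (0 : ℝ × ℝ)) x.1) ∘
      (fun θ : ℝ => (θ, (0 : ℝ))) := by
    funext θ
    simp
  rw [h1]
  exact h.comp (by fun_prop)

theorem us_bdd {ι : Type} (a b : ι → ℝ × ℝ) (X : Finset ι) (z : ℝ × ℝ) (θ : ℝ) :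
    |us a b X z θ| ≤ 1 := by
  unfold us
  by_cases h : pr z θ ∈ Ub X (lo a b θ) (hi a b θ)
  · rw [indicator_of_mem h, abs_one]
  · rw [indicator_of_notMem h, abs_zero]
    exact zero_le_one

theorem rho_meas {ι : Type} (a b : ι → ℝ × ℝ) (z : ℝ × ℝ) (i : ι) :
    Measurable (fun θ => rho a b z θ i) := by
  have h1 : ∀ w : ℝ × ℝ, Measurable (pr w) := fun w => (continuous_pr w).measurable
  have h2 : ∀ w : ℝ × ℝ, Measurable (en w) := fun w => (continuous_en w).measurable
  have h3 : (fun θ => rho a b z θ i) = fun θ =>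
      if lo a b θ i < pr z θ ∧ pr z θ ≤ hi a b θ i then
        (if pr (a i) θ ≤ pr (b i) θ then en (z - a i) θ else en (z - b i) θ) else 0 := by
    funext θ
    unfold rho lp
    split_ifs <;> rfl
  rw [h3]
  have hlo : Measurable (fun θ => lo a b θ i) := (h1 _).min (h1 _)
  have hhi : Measurable (fun θ => hi a b θ i) := (h1 _).max (h1 _)
  refine Measurable.ite ?_ (Measurable.ite ?_ (h2 _) (h2 _)) measurable_const
  · exact (measurableSet_lt hlo (h1 z)).inter (measurableSet_le (h1 z) hhi)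
  · exact measurableSet_le (h1 _) (h1 _)

theorem rho_bdd {ι : Type} (a b : ι → ℝ × ℝ) (z : ℝ × ℝ) (i : ι) (θ : ℝ) :
    |rho a b z θ i| ≤ nm (z - a i) + nm (z - b i) := by
  have ha := nm_nonneg (z - a i)
  have hb := nm_nonneg (z - b i)
  unfold rho lp
  split_ifs
  · exact (abs_en_le _ _).trans (by linarith)
  · exact (abs_en_le _ _).trans (by linarith)
  · rw [abs_zero]
    linarith

theorem qt_nonneg {ι : Type} (a b : ι → ℝ × ℝ) (X : Finset ι) (z : ℝ × ℝ) (θ : ℝ) :
    0 ≤ qt a b X z θ := by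
  unfold qt qu
  rw [Finset.le_fold_max]
  exact Or.inl le_rfl

end TBAux

open TBAux in
theorem pTB : S_TA → S_Lip → S_TB := by
  intro hA hL ι a b X z R θ₀ w K hX hz hw hw0
  have hlen : 0 ≤ π := pi_pos.le
  have hle : θ₀ ≤ θ₀ + π := by linarith
  obtain ⟨L, hq⟩ := (hL ι a b X).1 z
  have hwc : Continuous w := hw.continuous
  have hqc : Continuous (qt a b X z) := hq.continuous
  -- integrability
  have hρm : Measurable (fun θ => ∑ i ∈ X, rho a b z θ i) :=
    Finset.measurable_sum X fun i _ => rho_meas a b z i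
  have hρ : IntervalIntegrable (fun θ => ∑ i ∈ X, rho a b z θ i) volume θ₀ (θ₀ + π) := by
    refine ii_of_bdd (C := ∑ i ∈ X, (nm (z - a i) + nm (z - b i))) hρm (fun θ => ?_) _ _
    exact (Finset.abs_sum_le_sum_abs _ _).trans (Finset.sum_le_sum fun i _ => rho_bdd a b z i θ)
  have hus : IntervalIntegrable (us a b X z) volume θ₀ (θ₀ + π) :=
    ii_of_bdd (us_meas hL a b X z) (us_bdd a b X z) _ _
  have hdq : IntervalIntegrable (deriv (qt a b X z)) volume θ₀ (θ₀ + π) :=
    ii_of_bdd (measurable_deriv _) (fun θ => norm_deriv_le_of_lipschitz hq) _ _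
  have hdw : IntervalIntegrable (deriv w) volume θ₀ (θ₀ + π) :=
    ii_of_bdd (measurable_deriv _) (fun θ => norm_deriv_le_of_lipschitz hw) _ _
  have hwρ : IntervalIntegrable (fun θ => w θ * ∑ i ∈ X, rho a b z θ i) volume θ₀ (θ₀ + π) :=
    hρ.continuousOn_mul hwc.continuousOn
  have hwus : IntervalIntegrable (fun θ => w θ * us a b X z θ) volume θ₀ (θ₀ + π) :=
    hus.continuousOn_mul hwc.continuousOn
  have hwdq : IntervalIntegrable (fun θ => w θ * deriv (qt a b X z) θ) volume θ₀ (θ₀ + π) :=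
    hdq.continuousOn_mul hwc.continuousOn
  have hdwq : IntervalIntegrable (fun θ => deriv w θ * qt a b X z θ) volume θ₀ (θ₀ + π) :=
    hdw.mul_continuousOn hqc.continuousOn
  -- the pointwise inequality
  have h1 : ∫ θ in θ₀..(θ₀ + π), w θ * ∑ i ∈ X, rho a b z θ i ≤
      ∫ θ in θ₀..(θ₀ + π), ((len a b X + 2 * R) * (w θ * us a b X z θ) -
        w θ * deriv (qt a b X z) θ) := by
    refine intervalIntegral.integral_mono_ae hle hwρ ((hwus.const_mul _).sub hwdq) ?_
    filter_upwards [hA ι a b X z R hX hz] with θ hθ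
    have := mul_le_mul_of_nonneg_left hθ (hw0 θ)
    linarith
  rw [intervalIntegral.integral_sub (hwus.const_mul _) hwdq,
    intervalIntegral.integral_const_mul] at h1
  -- integration by parts
  have hac1 : AbsolutelyContinuousOnInterval w θ₀ (θ₀ + π) :=
    (hw.lipschitzOnWith (s := uIcc θ₀ (θ₀ + π))).absolutelyContinuousOnInterval
  have hac2 : AbsolutelyContinuousOnInterval (qt a b X z) θ₀ (θ₀ + π) :=
    (hq.lipschitzOnWith (s := uIcc θ₀ (θ₀ + π))).absolutelyContinuousOnInterval
  have h2 := hac1.integral_mul_deriv_eq_deriv_mul hac2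
  have h3 : ∫ θ in θ₀..(θ₀ + π), deriv w θ * qt a b X z θ ≤
      ∫ θ in θ₀..(θ₀ + π), K * qt a b X z θ := by
    refine intervalIntegral.integral_mono_on hle hdwq
      ((hqc.const_mul _).intervalIntegrable _ _) fun θ _ => ?_
    refine mul_le_mul_of_nonneg_right ?_ (qt_nonneg a b X z θ)
    exact (le_abs_self _).trans (norm_deriv_le_of_lipschitz hw)
  rw [intervalIntegral.integral_const_mul] at h3
  have h4 : 0 ≤ w (θ₀ + π) * qt a b X z (θ₀ + π) :=
    mul_nonneg (hw0 _) (qt_nonneg a b X z _)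
  linarith

end Pool.Agent.OD
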